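import Pool.Agent.J6H87.DD.PartC

/-!
# Density domination exponents: block graphs
-/

set_option autoImplicit false

namespace Pool.Agent.J6H87.DD.V

theorem supp {X : Type*} (m : ℕ) (π : Fin (m + 1) → X → ℝ) (K : Fin m → X → X → ℝ)
    (p : Fin m → Fin (m + 1)) (T : Fin (m + 1) → X → Prop)
    (h0 : ∀ x, π 0 x ≠ 0 → T 0 x) (hKT : ∀ i x y, K i x y ≠ 0 → T i.succ y)
    (ψ : Fin (m + 1) → X) (h : PP m π K p ψ ≠ 0) (j : Fin (m + 1)) : T j (ψ j) := by
  unfold PP at h
  rcases Fin.eq_zero_or_eq_succ j with rfl | ⟨i, rfl⟩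
  · exact h0 _ (left_ne_zero_of_mul h)
  · exact hKT i _ _ ((Finset.prod_ne_zero_iff.1 (right_ne_zero_of_mul h)) i (Finset.mem_univ _))

theorem mass {X : Type*} [Fintype X] : ∀ (m : ℕ) (π : Fin (m + 1) → X → ℝ)
    (K : Fin m → X → X → ℝ) (p : Fin m → Fin (m + 1)) (_ : ∀ i, (p i : ℕ) ≤ i) (D : Fin m → ℝ)
    (T : Fin (m + 1) → X → Prop) (_ : ∀ x, π 0 x ≠ 0 → T 0 x)
    (_ : ∀ i x y, K i x y ≠ 0 → T i.succ y)
    (_ : ∀ i x, T (p i) x → ∑ y, K i x y = D i),
    ∑ ψ, PP m π K p ψ = (∑ x, π 0 x) * ∏ i, D i := by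
  intro m
  induction m with
  | zero =>
    intro π K p hp D T h0 hKT hD
    rw [← (Equiv.funUnique (Fin 1) X).symm.sum_comp]
    simp [PP, Equiv.funUnique]
  | succ m ih =>
    intro π K p hp D T h0 hKT hD
    rw [sum_snoc]
    have e : ∀ ψ : Fin (m + 1) → X, ∑ y, PP (m + 1) π K p (Fin.snoc ψ y) =
        PP m (fun j => π j.castSucc) (fun i => K i.castSucc) (pr p hp) ψ * D (Fin.last m) := by
      intro ψ
      simp_rw [PP_snoc m π K p hp]
      rw [← Finset.mul_sum]
      by_cases h : PP m (fun j => π j.castSucc) (fun i => K i.castSucc) (pr p hp) ψ = 0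
      · rw [h, zero_mul, zero_mul]
      · have h1 := supp m (fun j => π j.castSucc) (fun i => K i.castSucc) (pr p hp)
          (fun j => T j.castSucc) (fun x hx => h0 x hx) (fun i x y hxy => by
            have := hKT i.castSucc x y hxy
            rwa [Fin.succ_castSucc] at this) ψ h (pl p hp)
        have h2 : (pl p hp).castSucc = p (Fin.last m) := by
          unfold pl
          rw [Fin.castSucc_castLT]
        rw [h2] at h1
        rw [hD (Fin.last m) _ h1]
    simp_rw [e]
    rw [← Finset.sum_mul, ih (fun j => π j.castSucc) (fun i => K i.castSucc) (pr p hp)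
      (pr_le p hp) (fun i => D i.castSucc) (fun j => T j.castSucc) (fun x hx => h0 x hx)
      (fun i x y hxy => by
        have := hKT i.castSucc x y hxy
        rwa [Fin.succ_castSucc] at this) (fun i x hx => by
        refine hD i.castSucc x ?_
        have h2 : (pr p hp i).castSucc = p i.castSucc := by
          unfold pr
          rw [Fin.castSucc_castLT]
        rwa [h2] at hx), Fin.prod_univ_castSucc, mul_assoc]
    rfl

section

variable {V : Type} [Fintype V] {G : SimpleGraph V} {n : ℕ}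

/-- the vertices of the block graph -/
abbrev Bk (V : Type) (n q M : ℕ) (b : Fin n → ℕ) : Type :=
  V × ((i : Fin n) → Fin (q ^ b i)) × Fin (q ^ M)

/-- the non isolated vertices -/
def ok (q M : ℕ) (A : V → ℕ) (b : Fin n → ℕ) (x : Bk V n q M b) : Prop :=
  x.2.2.val < q ^ (M - A x.1)

/-- adjacency in the block graph -/
def adjB (E : TreeEnum G n) (q M : ℕ) (A : V → ℕ) (b : Fin n → ℕ) (x y : Bk V n q M b) : Prop :=
  (ok q M A b x ∧ ok q M A b y) ∧
  ∃ i : Fin n, ((x.1 = E.e (E.p i) ∧ y.1 = E.e i.succ) ∨ (y.1 = E.e (E.p i) ∧ x.1 = E.e i.succ)) ∧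
    x.2.1 i = y.2.1 i

/-- the block graph -/
def WB (E : TreeEnum G n) (q M : ℕ) (A : V → ℕ) (b : Fin n → ℕ) :
    SimpleGraph (Bk V n q M b) where
  Adj := adjB E q M A b
  symm := ⟨by
    rintro x y ⟨⟨h1, h2⟩, i, h3, h4⟩
    exact ⟨⟨h2, h1⟩, i, h3.symm, h4.symm⟩⟩
  loopless := ⟨by
    rintro x ⟨-, i, h3, -⟩
    have h5 := (E.adj i).ne
    rcases h3 with ⟨h1, h2⟩ | ⟨h1, h2⟩
    · exact h5 (h1.symm.trans h2)
    · exact h5 (h1.symm.trans h2)⟩

omit [Fintype V] in
/-- the edge of an enumerated tree is determined by its ends -/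
theorem edge_inj (E : TreeEnum G n) (i j : Fin n) (v w : V)
    (h1 : (v = E.e (E.p i) ∧ w = E.e i.succ) ∨ (w = E.e (E.p i) ∧ v = E.e i.succ))
    (h2 : (v = E.e (E.p j) ∧ w = E.e j.succ) ∨ (w = E.e (E.p j) ∧ v = E.e j.succ)) : i = j := by
  have a1 := E.hp i
  have a2 := E.hp j
  rcases h1 with ⟨rfl, rfl⟩ | ⟨rfl, rfl⟩ <;> rcases h2 with ⟨h3, h4⟩ | ⟨h3, h4⟩
  · exact Fin.succ_injective _ (E.e.injective h4)
  · have h5 := E.e.injective h3
    have h6 := E.e.injective h4
    rw [h6, Fin.val_succ] at a1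
    rw [← h5, Fin.val_succ] at a2
    omega
  · have h5 := E.e.injective h3
    have h6 := E.e.injective h4
    rw [h6, Fin.val_succ] at a1
    rw [← h5, Fin.val_succ] at a2
    omega
  · exact Fin.succ_injective _ (E.e.injective h4)

theorem card_coord (q : ℕ) (b : Fin n → ℕ) (i : Fin n) (k : Fin (q ^ b i)) :
    Fintype.card {x : (j : Fin n) → Fin (q ^ b j) // x i = k} * q ^ b i =
      q ^ (∑ j, b j) := by
  classical
  have h1 : Fintype.card {x : (j : Fin n) → Fin (q ^ b j) // x i = k} =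
      Fintype.card ((j : {j // j ≠ i}) → Fin (q ^ b j)) := by
    refine Fintype.card_congr
      { toFun := fun x j => x.1 j
        invFun := fun z => ⟨fun j => if h : j = i then h ▸ k else z ⟨j, h⟩, by simp⟩
        left_inv := ?_
        right_inv := ?_ }
    · rintro ⟨x, hx⟩
      apply Subtype.ext
      funext j
      by_cases h : j = i
      · subst h
        simp [hx]
      · simp [h]
    · intro z
      funext j
      simp [j.2]
  have h2 : Fintype.card ((j : Fin n) → Fin (q ^ b j)) = q ^ (∑ j, b j) := by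
    rw [Fintype.card_pi]
    simp only [Fintype.card_fin]
    rw [Finset.prod_pow_eq_pow_sum]
  have h3 : Fintype.card ((j : Fin n) → Fin (q ^ b j)) =
      Fintype.card (Fin (q ^ b i)) * Fintype.card ((j : {j // j ≠ i}) → Fin (q ^ b j)) := by
    rw [← Fintype.card_prod]
    exact Fintype.card_congr (Equiv.piSplitAt i fun j => Fin (q ^ b j))
  rw [h1, ← h2, h3, Fintype.card_fin, mul_comm]

open Classical in
/-- the number of points of a block with one prescribed coordinate -/
theorem card_fix (q M : ℕ) (hq : 1 ≤ q) (A : V → ℕ) (b : Fin n → ℕ) (v : V) (i : Fin n)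
    (k : Fin (q ^ b i)) :
    (Finset.univ.filter fun y : Bk V n q M b => y.1 = v ∧ ok q M A b y ∧ y.2.1 i = k).card *
      q ^ b i = q ^ (∑ j, b j) * q ^ (M - A v) := by
  have h1 : (Finset.univ.filter fun y : Bk V n q M b => y.1 = v ∧ ok q M A b y ∧ y.2.1 i = k) =
      ({v} : Finset V) ×ˢ ((Finset.univ.filter fun x : (j : Fin n) → Fin (q ^ b j) => x i = k) ×ˢ
        (Finset.univ.filter fun s : Fin (q ^ M) => s.val < q ^ (M - A v))) := by
    ext y
    simp only [Finset.mem_filter, Finset.mem_univ, true_and, Finset.mem_product,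
      Finset.mem_singleton]
    constructor
    · rintro ⟨h2, h3, h4⟩
      refine ⟨h2, h4, ?_⟩
      unfold ok at h3
      rwa [h2] at h3
    · rintro ⟨h2, h4, h3⟩
      refine ⟨h2, ?_, h4⟩
      unfold ok
      rwa [h2]
  have h2 : (Finset.univ.filter fun s : Fin (q ^ M) => s.val < q ^ (M - A v)).card =
      q ^ (M - A v) := by
    rw [← Fintype.card_subtype]
    exact Fintype.card_fin_lt_of_le (Nat.pow_le_pow_right hq (Nat.sub_le _ _))
  have h3 := card_coord q b i k
  rw [Fintype.card_subtype] at h3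
  rw [h1, Finset.card_product, Finset.card_product, Finset.card_singleton, h2, one_mul,
    mul_assoc, mul_comm (q ^ (M - A v)), ← mul_assoc]
  congr 1

open Classical in
/-- the number of non isolated points of a block -/
theorem card_block (q M : ℕ) (hq : 1 ≤ q) (A : V → ℕ) (b : Fin n → ℕ) (v : V) :
    (Finset.univ.filter fun y : Bk V n q M b => y.1 = v ∧ ok q M A b y).card =
      q ^ (∑ j, b j) * q ^ (M - A v) := by
  have h1 : (Finset.univ.filter fun y : Bk V n q M b => y.1 = v ∧ ok q M A b y) =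
      ({v} : Finset V) ×ˢ ((Finset.univ : Finset ((j : Fin n) → Fin (q ^ b j))) ×ˢ
        (Finset.univ.filter fun s : Fin (q ^ M) => s.val < q ^ (M - A v))) := by
    ext y
    simp only [Finset.mem_filter, Finset.mem_univ, true_and, Finset.mem_product,
      Finset.mem_singleton]
    constructor
    · rintro ⟨h2, h3⟩
      refine ⟨h2, ?_⟩
      unfold ok at h3
      rwa [h2] at h3
    · rintro ⟨h2, h3⟩
      refine ⟨h2, ?_⟩
      unfold ok
      rwa [h2]
  have h2 : (Finset.univ.filter fun s : Fin (q ^ M) => s.val < q ^ (M - A v)).card =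
      q ^ (M - A v) := by
    rw [← Fintype.card_subtype]
    exact Fintype.card_fin_lt_of_le (Nat.pow_le_pow_right hq (Nat.sub_le _ _))
  have h4 : Fintype.card ((j : Fin n) → Fin (q ^ b j)) = q ^ (∑ j, b j) := by
    rw [Fintype.card_pi]
    simp only [Fintype.card_fin]
    rw [Finset.prod_pow_eq_pow_sum]
  rw [h1, Finset.card_product, Finset.card_product, Finset.card_singleton, h2, one_mul,
    Finset.card_univ, h4]

open Classical in
/-- the number of homomorphisms of a tree over a given map of the vertices -/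
theorem count_over {m : ℕ} (E : TreeEnum G n) (q M : ℕ) (hq : 1 ≤ q) (A : V → ℕ)
    (hA : ∀ v, A v ≤ M) (b : Fin n → ℕ)
    (p : Fin m → Fin (m + 1)) (hp : ∀ i, (p i : ℕ) ≤ i) (t : Fin (m + 1) → V)
    (idx : Fin m → Fin n) (hidx : ∀ i, (t (p i) = E.e (E.p (idx i)) ∧ t i.succ = E.e (idx i).succ) ∨
      (t i.succ = E.e (E.p (idx i)) ∧ t (p i) = E.e (idx i).succ)) (hm : 0 < m) :
    ((Finset.univ.filter fun ψ : Fin (m + 1) → Bk V n q M b => (∀ j, (ψ j).1 = t j) ∧
      ∀ i, adjB E q M A b (ψ (p i)) (ψ i.succ)).card : ℝ) =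
      ((q : ℝ) ^ (∑ j, b j + M)) ^ (m + 1) /
        (q : ℝ) ^ (∑ j, A (t j) + ∑ i, b (idx i)) := by
  have hq0 : (0 : ℝ) < q := by
    have : 0 < q := hq
    exact_mod_cast this
  let π : Fin (m + 1) → Bk V n q M b → ℝ := fun j x =>
    if x.1 = t j ∧ ok q M A b x then 1 else 0
  let K : Fin m → Bk V n q M b → Bk V n q M b → ℝ := fun i x y =>
    if (y.1 = t i.succ ∧ ok q M A b y) ∧ x.2.1 (idx i) = y.2.1 (idx i) then 1 else 0
  let Q : ℝ := (q : ℝ) ^ (∑ j, b j + M)
  have hfix : ∀ i : Fin m, ∀ x, ∑ y, K i x y =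
      Q / ((q : ℝ) ^ A (t i.succ) * (q : ℝ) ^ b (idx i)) := by
    intro i x
    have h := card_fix q M hq A b (t i.succ) (idx i) (x.2.1 (idx i))
    have h1 : ∑ y, K i x y = ((Finset.univ.filter fun y : Bk V n q M b => y.1 = t i.succ ∧
        ok q M A b y ∧ y.2.1 (idx i) = x.2.1 (idx i)).card : ℝ) := by
      show ∑ y, (if (y.1 = t i.succ ∧ ok q M A b y) ∧ x.2.1 (idx i) = y.2.1 (idx i) then
        (1 : ℝ) else 0) = _
      rw [Finset.sum_boole]
      congr 2
      ext y
      simp only [Finset.mem_filter, Finset.mem_univ, true_and]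
      constructor
      · rintro ⟨⟨h1, h2⟩, h3⟩
        exact ⟨h1, h2, h3.symm⟩
      · rintro ⟨h1, h2, h3⟩
        exact ⟨⟨h1, h2⟩, h3.symm⟩
    rw [h1, eq_div_iff (by positivity)]
    have h2 : (((Finset.univ.filter fun y : Bk V n q M b => y.1 = t i.succ ∧
        ok q M A b y ∧ y.2.1 (idx i) = x.2.1 (idx i)).card : ℝ)) * (q : ℝ) ^ b (idx i) =
        (q : ℝ) ^ (∑ j, b j) * (q : ℝ) ^ (M - A (t i.succ)) := by exact_mod_cast h
    have h3 : (q : ℝ) ^ (M - A (t i.succ)) * (q : ℝ) ^ A (t i.succ) = (q : ℝ) ^ M := by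
      rw [← pow_add, Nat.sub_add_cancel (hA _)]
    show _ = (q : ℝ) ^ (∑ j, b j + M)
    rw [pow_add, ← h3]
    calc _ = ((((Finset.univ.filter fun y : Bk V n q M b => y.1 = t i.succ ∧
        ok q M A b y ∧ y.2.1 (idx i) = x.2.1 (idx i)).card : ℝ)) * (q : ℝ) ^ b (idx i)) *
          (q : ℝ) ^ A (t i.succ) := by ring
      _ = _ := by rw [h2]; ring
  have hblock : ∑ x, π 0 x = Q / (q : ℝ) ^ A (t 0) := by
    have h := card_block q M hq A b (t 0)
    have h1 : ∑ x, π 0 x = ((Finset.univ.filter fun y : Bk V n q M b => y.1 = t 0 ∧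
        ok q M A b y).card : ℝ) := by
      show ∑ x : Bk V n q M b, (if x.1 = t 0 ∧ ok q M A b x then (1 : ℝ) else 0) = _
      rw [Finset.sum_boole]
    rw [h1, eq_div_iff (by positivity), h]
    push_cast
    have h3 : (q : ℝ) ^ (M - A (t 0)) * (q : ℝ) ^ A (t 0) = (q : ℝ) ^ M := by
      rw [← pow_add, Nat.sub_add_cancel (hA _)]
    show _ = (q : ℝ) ^ (∑ j, b j + M)
    rw [pow_add, ← h3]
    ring
  have hmass := mass m π K p hp (fun i => Q / ((q : ℝ) ^ A (t i.succ) * (q : ℝ) ^ b (idx i)))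
    (fun _ _ => True) (fun _ _ => trivial) (fun _ _ _ _ => trivial) (fun i x _ => hfix i x)
  rw [hblock] at hmass
  have hcount : ((Finset.univ.filter fun ψ : Fin (m + 1) → Bk V n q M b => (∀ j, (ψ j).1 = t j) ∧
      ∀ i, adjB E q M A b (ψ (p i)) (ψ i.succ)).card : ℝ) = ∑ ψ, PP m π K p ψ := by
    rw [Finset.card_filter]
    push_cast
    refine Finset.sum_congr rfl fun ψ _ => ?_
    by_cases h : (∀ j, (ψ j).1 = t j) ∧ ∀ i, adjB E q M A b (ψ (p i)) (ψ i.succ)
    · rw [if_pos h]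
      unfold PP
      have hok : ∀ j, ok q M A b (ψ j) := by
        intro j
        rcases Fin.eq_zero_or_eq_succ j with rfl | ⟨i, rfl⟩
        · have hp0 : p ⟨0, hm⟩ = 0 := by
            have := hp ⟨0, hm⟩
            exact Fin.ext (by simpa using this)
          have h3 := (h.2 ⟨0, hm⟩).1.1
          rwa [hp0] at h3
        · exact (h.2 i).1.2
      have h0 : π 0 (ψ 0) = 1 := if_pos ⟨h.1 0, hok 0⟩
      rw [h0, one_mul]
      refine (Finset.prod_eq_one fun i _ => ?_).symm
      refine if_pos ⟨⟨h.1 _, hok _⟩, ?_⟩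
      obtain ⟨-, i', h5, h6⟩ := h.2 i
      rw [h.1, h.1] at h5
      have h7 := edge_inj E i' (idx i) _ _ h5 (hidx i)
      rw [← h7]
      exact h6
    · rw [if_neg h]
      by_contra hne
      have hne' : PP m π K p ψ ≠ 0 := fun h' => hne h'.symm
      unfold PP at hne'
      have h1 : (ψ 0).1 = t 0 ∧ ok q M A b (ψ 0) := by
        by_contra h2
        exact left_ne_zero_of_mul hne' (if_neg h2)
      have h2 : ∀ i : Fin m, ((ψ i.succ).1 = t i.succ ∧ ok q M A b (ψ i.succ)) ∧
          (ψ (p i)).2.1 (idx i) = (ψ i.succ).2.1 (idx i) := by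
        intro i
        by_contra h3
        exact (Finset.prod_ne_zero_iff.1 (right_ne_zero_of_mul hne')) i (Finset.mem_univ _)
          (if_neg h3)
      have h3 : ∀ j, (ψ j).1 = t j ∧ ok q M A b (ψ j) := by
        intro j
        rcases Fin.eq_zero_or_eq_succ j with rfl | ⟨i, rfl⟩
        · exact h1
        · exact (h2 i).1
      refine h ⟨fun j => (h3 j).1, fun i => ⟨⟨(h3 _).2, (h3 _).2⟩, idx i, ?_, (h2 i).2⟩⟩
      rw [(h3 _).1, (h3 _).1]
      exact hidx i
  rw [hcount, hmass, Finset.prod_div_distrib, Finset.prod_const, Finset.card_univ,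
    Fintype.card_fin, Finset.prod_mul_distrib, Finset.prod_pow_eq_pow_sum,
    Finset.prod_pow_eq_pow_sum, Fin.sum_univ_succ (fun j => A (t j)), pow_add _ (_ + _) _,
    pow_add _ (A (t 0)) _]
  show Q / (q : ℝ) ^ A (t 0) * (Q ^ m / _) = Q ^ (m + 1) / _
  rw [pow_succ]
  field_simp

end

end Pool.Agent.J6H87.DD.V
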