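import Mathlib

/-!
# Density domination exponents of trees: tree indexed Markov chains
-/

set_option autoImplicit false

namespace Pool.Agent.J6H87.DD

theorem gibbs {α : Type*} [Fintype α] (a b : α → ℝ) (ha : ∀ i, 0 ≤ a i) (hb : ∀ i, 0 ≤ b i)
    (ha1 : ∑ i, a i = 1) (hb1 : ∑ i, b i ≤ 1) (hab : ∀ i, 0 < a i → 0 < b i) :
    ∑ i, a i * Real.log (b i) ≤ ∑ i, a i * Real.log (a i) := by
  have h : ∀ i, a i * Real.log (b i) - a i * Real.log (a i) ≤ b i - a i := by
    intro i
    rcases (ha i).eq_or_lt with h0 | h0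
    · rw [← h0]
      simpa using hb i
    · have h1 := hab i h0
      have h2 := Real.log_le_sub_one_of_pos (div_pos h1 h0)
      rw [Real.log_div h1.ne' h0.ne'] at h2
      have h3 := mul_le_mul_of_nonneg_left h2 h0.le
      have h4 : a i * (b i / a i - 1) = b i - a i := by
        field_simp
      rw [h4] at h3
      linarith
  have h5 := Finset.sum_le_sum fun i (_ : i ∈ Finset.univ) => h i
  rw [Finset.sum_sub_distrib, Finset.sum_sub_distrib] at h5
  linarith

variable {X : Type*} [Fintype X]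

/-- a stationary Markov chain -/
structure Chain (π : X → ℝ) (K : X → X → ℝ) : Prop where
  pi_nonneg : ∀ x, 0 ≤ π x
  pi_sum : ∑ x, π x = 1
  K_nonneg : ∀ x y, 0 ≤ K x y
  K_sum : ∀ x, ∑ y, K x y = 1
  stat : ∀ y, ∑ x, π x * K x y = π y

/-- a probability law -/
structure Law (π : X → ℝ) : Prop where
  nonneg : ∀ x, 0 ≤ π x
  sum : ∑ x, π x = 1

/-- the law of the chain along a tree, with one kernel for each edge -/
noncomputable def PP (π : X → ℝ) (n : ℕ) (K : Fin n → X → X → ℝ) (p : Fin n → Fin (n + 1))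
    (ψ : Fin (n + 1) → X) : ℝ :=
  π (ψ 0) * ∏ i : Fin n, K i (ψ (p i)) (ψ i.succ)

omit [Fintype X] in
theorem sum_snoc [Fintype X] (n : ℕ) (F : (Fin (n + 2) → X) → ℝ) :
    ∑ ψ, F ψ = ∑ ψ' : Fin (n + 1) → X, ∑ y : X, F (Fin.snoc ψ' y) := by
  rw [← (Fin.snocEquiv (fun _ : Fin (n + 2) => X)).sum_comp, Fintype.sum_prod_type,
    Finset.sum_comm]
  rfl

/-- the parent function without the last vertex -/
def pr {n : ℕ} (p : Fin (n + 1) → Fin (n + 2)) (hp : ∀ i, (p i : ℕ) ≤ i) (i : Fin n) :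
    Fin (n + 1) :=
  (p i.castSucc).castLT (lt_of_le_of_lt (hp i.castSucc) (by
    simp only [Fin.val_castSucc]
    omega))

/-- the parent of the last vertex -/
def pl {n : ℕ} (p : Fin (n + 1) → Fin (n + 2)) (hp : ∀ i, (p i : ℕ) ≤ i) : Fin (n + 1) :=
  (p (Fin.last n)).castLT (lt_of_le_of_lt (hp (Fin.last n)) (by
    simp only [Fin.val_last]
    omega))

theorem pr_le {n : ℕ} (p : Fin (n + 1) → Fin (n + 2)) (hp : ∀ i, (p i : ℕ) ≤ i) (i : Fin n) :
    (pr p hp i : ℕ) ≤ i := by
  have := hp i.castSucc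
  simpa [pr] using this

omit [Fintype X] in
theorem PP_snoc (π : X → ℝ) (n : ℕ) (K : Fin (n + 1) → X → X → ℝ)
    (p : Fin (n + 1) → Fin (n + 2))
    (hp : ∀ i, (p i : ℕ) ≤ i) (ψ : Fin (n + 1) → X) (y : X) :
    PP π (n + 1) K p (Fin.snoc ψ y) =
      PP π n (fun i => K i.castSucc) (pr p hp) ψ * K (Fin.last n) (ψ (pl p hp)) y := by
  have h0 : (Fin.snoc ψ y : Fin (n + 2) → X) 0 = ψ 0 := by
    have : (0 : Fin (n + 2)) = Fin.castSucc 0 := rfl
    rw [this, Fin.snoc_castSucc]
  have h1 : ∀ i : Fin n, (Fin.snoc ψ y : Fin (n + 2) → X) (p i.castSucc) = ψ (pr p hp i) := by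
    intro i
    have : p i.castSucc = (pr p hp i).castSucc := by
      unfold pr
      rw [Fin.castSucc_castLT]
    rw [this, Fin.snoc_castSucc]
  have h2 : (Fin.snoc ψ y : Fin (n + 2) → X) (p (Fin.last n)) = ψ (pl p hp) := by
    have : p (Fin.last n) = (pl p hp).castSucc := by
      unfold pl
      rw [Fin.castSucc_castLT]
    rw [this, Fin.snoc_castSucc]
  unfold PP
  rw [Fin.prod_univ_castSucc, h0, h2, Fin.succ_last, Fin.snoc_last, mul_assoc]
  congr 2
  refine Finset.prod_congr rfl fun i _ => ?_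
  rw [h1, Fin.succ_castSucc, Fin.snoc_castSucc]

variable {π : X → ℝ}

theorem marg (hL : Law π) : ∀ (n : ℕ) (K : Fin n → X → X → ℝ) (_ : ∀ i, Chain π (K i))
    (p : Fin n → Fin (n + 1)) (_ : ∀ i, (p i : ℕ) ≤ i)
    (j : Fin (n + 1)) (f : X → ℝ), ∑ ψ, PP π n K p ψ * f (ψ j) = ∑ x, π x * f x := by
  intro n
  induction n with
  | zero =>
    intro K hK p hp j f
    have hj : j = 0 := Fin.ext (by
      have := j.isLt
      simp only [Fin.val_zero]
      omega)
    rw [hj, ← (Equiv.funUnique (Fin 1) X).symm.sum_comp]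
    refine Finset.sum_congr rfl fun x _ => ?_
    simp [PP, Equiv.funUnique]
  | succ n ih =>
    intro K hK p hp j f
    rw [sum_snoc]
    rcases Fin.eq_castSucc_or_eq_last j with ⟨j', rfl⟩ | rfl
    · have e : ∀ ψ : Fin (n + 1) → X, ∑ y, PP π (n + 1) K p (Fin.snoc ψ y) *
          f ((Fin.snoc ψ y : Fin (n + 2) → X) j'.castSucc) =
          PP π n (fun i => K i.castSucc) (pr p hp) ψ * f (ψ j') := by
        intro ψ
        have : ∀ y, PP π (n + 1) K p (Fin.snoc ψ y) *
          f ((Fin.snoc ψ y : Fin (n + 2) → X) j'.castSucc) =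
          (PP π n (fun i => K i.castSucc) (pr p hp) ψ * f (ψ j')) *
            K (Fin.last n) (ψ (pl p hp)) y := by
          intro y
          rw [PP_snoc π n K p hp, Fin.snoc_castSucc]
          ring
        simp_rw [this]
        rw [← Finset.mul_sum, (hK (Fin.last n)).K_sum, mul_one]
      simp_rw [e]
      exact ih (fun i => K i.castSucc) (fun i => hK i.castSucc) (pr p hp) (pr_le p hp) j' f
    · have e : ∀ ψ : Fin (n + 1) → X, ∑ y, PP π (n + 1) K p (Fin.snoc ψ y) *
          f ((Fin.snoc ψ y : Fin (n + 2) → X) (Fin.last (n + 1))) =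
          PP π n (fun i => K i.castSucc) (pr p hp) ψ *
            (∑ y, K (Fin.last n) (ψ (pl p hp)) y * f y) := by
        intro ψ
        rw [Finset.mul_sum]
        refine Finset.sum_congr rfl fun y _ => ?_
        rw [PP_snoc π n K p hp, Fin.snoc_last]
        ring
      simp_rw [e]
      rw [ih (fun i => K i.castSucc) (fun i => hK i.castSucc) (pr p hp) (pr_le p hp) (pl p hp)
        (fun x => ∑ y, K (Fin.last n) x y * f y)]
      simp_rw [Finset.mul_sum]
      rw [Finset.sum_comm]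
      refine Finset.sum_congr rfl fun y _ => ?_
      rw [← (hK (Fin.last n)).stat y, Finset.sum_mul]
      refine Finset.sum_congr rfl fun x _ => ?_
      ring

theorem marg2 (hL : Law π) : ∀ (n : ℕ) (K : Fin n → X → X → ℝ) (_ : ∀ i, Chain π (K i))
    (p : Fin n → Fin (n + 1)) (_ : ∀ i, (p i : ℕ) ≤ i)
    (i : Fin n) (f : X → X → ℝ), ∑ ψ, PP π n K p ψ * f (ψ (p i)) (ψ i.succ) =
      ∑ x, ∑ y, π x * K i x y * f x y := by
  intro n
  induction n with
  | zero =>
    intro K hK p hp i f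
    exact i.elim0
  | succ n ih =>
    intro K hK p hp i f
    rw [sum_snoc]
    rcases Fin.eq_castSucc_or_eq_last i with ⟨i', rfl⟩ | rfl
    · have e : ∀ ψ : Fin (n + 1) → X, ∑ y, PP π (n + 1) K p (Fin.snoc ψ y) *
          f ((Fin.snoc ψ y : Fin (n + 2) → X) (p i'.castSucc))
            ((Fin.snoc ψ y : Fin (n + 2) → X) i'.castSucc.succ) =
          PP π n (fun i => K i.castSucc) (pr p hp) ψ * f (ψ (pr p hp i')) (ψ i'.succ) := by
        intro ψ
        have : ∀ y, PP π (n + 1) K p (Fin.snoc ψ y) *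
          f ((Fin.snoc ψ y : Fin (n + 2) → X) (p i'.castSucc))
            ((Fin.snoc ψ y : Fin (n + 2) → X) i'.castSucc.succ) =
          (PP π n (fun i => K i.castSucc) (pr p hp) ψ * f (ψ (pr p hp i')) (ψ i'.succ)) *
            K (Fin.last n) (ψ (pl p hp)) y := by
          intro y
          have h1 : p i'.castSucc = (pr p hp i').castSucc := by
            unfold pr
            rw [Fin.castSucc_castLT]
          rw [PP_snoc π n K p hp, h1, Fin.succ_castSucc, Fin.snoc_castSucc, Fin.snoc_castSucc]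
          ring
        simp_rw [this]
        rw [← Finset.mul_sum, (hK (Fin.last n)).K_sum, mul_one]
      simp_rw [e]
      exact ih (fun i => K i.castSucc) (fun i => hK i.castSucc) (pr p hp) (pr_le p hp) i' f
    · have e : ∀ ψ : Fin (n + 1) → X, ∑ y, PP π (n + 1) K p (Fin.snoc ψ y) *
          f ((Fin.snoc ψ y : Fin (n + 2) → X) (p (Fin.last n)))
            ((Fin.snoc ψ y : Fin (n + 2) → X) (Fin.last n).succ) =
          PP π n (fun i => K i.castSucc) (pr p hp) ψ *
            (∑ y, K (Fin.last n) (ψ (pl p hp)) y * f (ψ (pl p hp)) y) := by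
        intro ψ
        rw [Finset.mul_sum]
        refine Finset.sum_congr rfl fun y _ => ?_
        have h1 : p (Fin.last n) = (pl p hp).castSucc := by
          unfold pl
          rw [Fin.castSucc_castLT]
        rw [PP_snoc π n K p hp, h1, Fin.succ_last, Fin.snoc_last, Fin.snoc_castSucc]
        ring
      simp_rw [e]
      rw [marg hL n (fun i => K i.castSucc) (fun i => hK i.castSucc) (pr p hp) (pr_le p hp)
        (pl p hp) (fun x => ∑ y, K (Fin.last n) x y * f x y)]
      refine Finset.sum_congr rfl fun x _ => ?_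
      rw [Finset.mul_sum]
      refine Finset.sum_congr rfl fun y _ => ?_
      ring

omit [Fintype X] in
theorem PP_nonneg (h1 : ∀ x, 0 ≤ π x) (n : ℕ) (K : Fin n → X → X → ℝ)
    (h2 : ∀ i x y, 0 ≤ K i x y) (p : Fin n → Fin (n + 1)) (ψ : Fin (n + 1) → X) :
    0 ≤ PP π n K p ψ :=
  mul_nonneg (h1 _) (Finset.prod_nonneg fun _ _ => h2 _ _ _)

theorem PP_sum (hL : Law π) (n : ℕ) (K : Fin n → X → X → ℝ) (hK : ∀ i, Chain π (K i))
    (p : Fin n → Fin (n + 1)) (hp : ∀ i, (p i : ℕ) ≤ i) :
    ∑ ψ, PP π n K p ψ = 1 := by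
  have := marg hL n K hK p hp 0 (fun _ => 1)
  simpa [hL.sum] using this

omit [Fintype X] in
theorem log_PP (n : ℕ) (K : Fin n → X → X → ℝ)
    (p : Fin n → Fin (n + 1)) (ψ : Fin (n + 1) → X) (h : 0 < PP π n K p ψ) :
    Real.log (PP π n K p ψ) =
      Real.log (π (ψ 0)) + ∑ i : Fin n, Real.log (K i (ψ (p i)) (ψ i.succ)) := by
  unfold PP at h ⊢
  have h3 : π (ψ 0) ≠ 0 := by
    intro h0
    rw [h0, zero_mul] at h
    exact h.ne' rfl
  have h4 : ∏ i : Fin n, K i (ψ (p i)) (ψ i.succ) ≠ 0 := by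
    intro h0
    rw [h0, mul_zero] at h
    exact h.ne' rfl
  rw [Real.log_mul h3 h4, Real.log_prod]
  intro i _
  exact (Finset.prod_ne_zero_iff.1 h4) i (Finset.mem_univ _)

theorem entropy (hL : Law π) (n : ℕ) (K : Fin n → X → X → ℝ) (hK : ∀ i, Chain π (K i))
    (p : Fin n → Fin (n + 1)) (hp : ∀ i, (p i : ℕ) ≤ i) :
    ∑ ψ, PP π n K p ψ * Real.log (PP π n K p ψ) =
      ∑ x, π x * Real.log (π x) +
        ∑ i, ∑ x, ∑ y, π x * K i x y * Real.log (K i x y) := by
  have e : ∀ ψ, PP π n K p ψ * Real.log (PP π n K p ψ) =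
      PP π n K p ψ * Real.log (π (ψ 0)) +
        ∑ i : Fin n, PP π n K p ψ * Real.log (K i (ψ (p i)) (ψ i.succ)) := by
    intro ψ
    rcases (PP_nonneg hL.nonneg n K (fun i => (hK i).K_nonneg) p ψ).eq_or_lt with h0 | h0
    · rw [← h0]
      simp
    · rw [log_PP n K p ψ h0, mul_add, Finset.mul_sum]
  simp_rw [e]
  rw [Finset.sum_add_distrib, marg hL n K hK p hp 0 (fun x => Real.log (π x)), Finset.sum_comm]
  congr 1
  exact Finset.sum_congr rfl fun i _ => marg2 hL n K hK p hp i (fun x y => Real.log (K i x y))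

theorem K_pos (n : ℕ) (K : Fin n → X → X → ℝ) (hK : ∀ i, Chain π (K i))
    (p : Fin n → Fin (n + 1))
    (ψ : Fin (n + 1) → X) (h : 0 < PP π n K p ψ) : ∀ i, 0 < K i (ψ (p i)) (ψ i.succ) := by
  intro i
  refine lt_of_le_of_ne ((hK i).K_nonneg _ _) fun h0 => ?_
  unfold PP at h
  rw [Finset.prod_eq_zero (Finset.mem_univ i) h0.symm, mul_zero] at h
  exact h.ne' rfl

theorem pi_pos (hL : Law π) (n : ℕ) (K : Fin n → X → X → ℝ) (hK : ∀ i, Chain π (K i))
    (p : Fin n → Fin (n + 1)) (hp : ∀ i, (p i : ℕ) ≤ i)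
    (ψ : Fin (n + 1) → X) (h : 0 < PP π n K p ψ) : ∀ j, 0 < π (ψ j) := by
  have h4 := K_pos n K hK p ψ h
  have h3 : 0 < π (ψ 0) := by
    refine lt_of_le_of_ne (hL.nonneg _) fun h0 => ?_
    unfold PP at h
    rw [← h0, zero_mul] at h
    exact h.ne' rfl
  have key : ∀ m : ℕ, ∀ j : Fin (n + 1), (j : ℕ) ≤ m → 0 < π (ψ j) := by
    intro m
    induction m with
    | zero =>
      intro j hj
      have : j = 0 := by
        ext
        simp only [Fin.val_zero]
        omega
      rw [this]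
      exact h3
    | succ m ih =>
      intro j hj
      rcases Fin.eq_zero_or_eq_succ j with rfl | ⟨i, rfl⟩
      · exact h3
      · have h5 : 0 < π (ψ (p i)) := by
          refine ih (p i) ((hp i).trans ?_)
          simp only [Fin.val_succ] at hj
          omega
        rw [← (hK i).stat (ψ i.succ)]
        refine lt_of_lt_of_le (mul_pos h5 (h4 i)) ?_
        exact Finset.single_le_sum (f := fun x => π x * K i x (ψ i.succ))
          (fun x _ => mul_nonneg (hL.nonneg _) ((hK i).K_nonneg _ _))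
          (Finset.mem_univ (ψ (p i)))
  intro j
  exact key j j le_rfl

/-- lower bound for the number of tree configurations supported by the chain -/
theorem count_tree (hL : Law π) (A : X → X → Prop) (n : ℕ) (K : Fin n → X → X → ℝ)
    (hK : ∀ i, Chain π (K i)) (B : Fin n → Prop)
    (hA : ∀ i, B i → ∀ x y, 0 < π x → 0 < K i x y → A x y)
    (p : Fin n → Fin (n + 1)) (hp : ∀ i, (p i : ℕ) ≤ i) (M : ℕ)
    (hM : M = Nat.card {ψ : Fin (n + 1) → X // ∀ i, B i → A (ψ (p i)) (ψ i.succ)}) :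
    0 < M ∧ -(∑ x, π x * Real.log (π x) +
      ∑ i, ∑ x, ∑ y, π x * K i x y * Real.log (K i x y)) ≤ Real.log M := by
  classical
  rw [Nat.card_eq_fintype_card, Fintype.card_subtype] at hM
  have hPn : ∀ ψ, 0 ≤ PP π n K p ψ := PP_nonneg hL.nonneg n K (fun i => (hK i).K_nonneg) p
  have hgood : ∀ ψ, 0 < PP π n K p ψ → ∀ i, B i → A (ψ (p i)) (ψ i.succ) := fun ψ h i hi =>
    hA i hi _ _ (pi_pos hL n K hK p hp ψ h _) (K_pos n K hK p ψ h i)
  have hM0 : 0 < M := by
    rw [hM, Finset.card_pos]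
    by_contra hne
    rw [Finset.not_nonempty_iff_eq_empty] at hne
    have h1 : ∀ ψ, PP π n K p ψ = 0 := by
      intro ψ
      by_contra h0
      have h2 := hgood ψ (lt_of_le_of_ne (hPn ψ) (Ne.symm h0))
      have : ψ ∈ (Finset.univ.filter fun ψ : Fin (n + 1) → X =>
          ∀ i, B i → A (ψ (p i)) (ψ i.succ)) :=
        Finset.mem_filter.2 ⟨Finset.mem_univ _, h2⟩
      rw [hne] at this
      exact absurd this (Finset.notMem_empty _)
    have h3 := PP_sum hL n K hK p hp
    simp [h1] at h3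
  refine ⟨hM0, ?_⟩
  have hMr : (0 : ℝ) < M := by exact_mod_cast hM0
  have h5 := gibbs (PP π n K p)
    (fun ψ => if ∀ i, B i → A (ψ (p i)) (ψ i.succ) then (M : ℝ)⁻¹ else 0)
    hPn (fun ψ => by
      split_ifs
      · positivity
      · exact le_rfl) (PP_sum hL n K hK p hp) (by
      rw [← Finset.sum_filter, Finset.sum_const, ← hM, nsmul_eq_mul,
        mul_inv_cancel₀ hMr.ne']) (fun ψ h => by
      rw [if_pos (hgood ψ h)]
      positivity)
  rw [entropy hL n K hK p hp] at h5
  have h6 : ∑ ψ, PP π n K p ψ *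
      Real.log (if ∀ i, B i → A (ψ (p i)) (ψ i.succ) then (M : ℝ)⁻¹ else 0) =
        -Real.log M := by
    have : ∀ ψ, PP π n K p ψ *
      Real.log (if ∀ i, B i → A (ψ (p i)) (ψ i.succ) then (M : ℝ)⁻¹ else 0) =
        PP π n K p ψ * (-Real.log M) := by
      intro ψ
      rcases (hPn ψ).eq_or_lt with h0 | h0
      · rw [← h0]
        simp
      · rw [if_pos (hgood ψ h0), Real.log_inv]
    simp_rw [this]
    rw [← Finset.sum_mul, PP_sum hL n K hK p hp, one_mul]
  rw [h6] at h5
  linarith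

variable {K : X → X → ℝ}

/-- the entropies of a chain -/
theorem chain_ineq (hC : Chain π K) (hsym : ∀ x y, π x * K x y = π y * K y x) :
    -(∑ x, π x * Real.log (π x)) ≤ Real.log (Fintype.card X) ∧
      -(∑ x, ∑ y, π x * K x y * Real.log (K x y)) ≤ -(∑ x, π x * Real.log (π x)) := by
  have hne : Nonempty X := by
    by_contra h
    rw [not_nonempty_iff] at h
    have := hC.pi_sum
    simp at this
  have hn : (0 : ℝ) < Fintype.card X := by exact_mod_cast Fintype.card_pos
  constructor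
  · have h1 := gibbs π (fun _ => ((Fintype.card X : ℝ))⁻¹) hC.pi_nonneg (fun _ => by positivity)
      hC.pi_sum (by
        rw [Finset.sum_const, Finset.card_univ, nsmul_eq_mul, mul_inv_cancel₀ hn.ne'])
      (fun _ _ => by positivity)
    rw [← Finset.sum_mul, hC.pi_sum, one_mul, Real.log_inv] at h1
    linarith
  · have hm0 : ∀ x y, 0 < π x * K x y → 0 < π x ∧ 0 < K x y := by
      intro x y h
      refine ⟨lt_of_le_of_ne (hC.pi_nonneg _) fun h0 => ?_,
        lt_of_le_of_ne (hC.K_nonneg _ _) fun h0 => ?_⟩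
      · rw [← h0, zero_mul] at h
        exact h.ne' rfl
      · rw [← h0, mul_zero] at h
        exact h.ne' rfl
    have h1 := gibbs (fun z : X × X => π z.1 * K z.1 z.2) (fun z : X × X => π z.1 * π z.2)
      (fun z => mul_nonneg (hC.pi_nonneg _) (hC.K_nonneg _ _))
      (fun z => mul_nonneg (hC.pi_nonneg _) (hC.pi_nonneg _)) (by
        rw [Fintype.sum_prod_type]
        simp_rw [← Finset.mul_sum, hC.K_sum, mul_one]
        exact hC.pi_sum) (by
        rw [Fintype.sum_prod_type]
        simp_rw [← Finset.mul_sum, hC.pi_sum, mul_one]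
        exact hC.pi_sum.le) (fun z h => by
        obtain ⟨h2, h3⟩ := hm0 _ _ h
        refine mul_pos h2 ?_
        have h4 : 0 < π z.2 * K z.2 z.1 := by
          rw [← hsym]
          exact h
        exact (hm0 _ _ h4).1)
    rw [Fintype.sum_prod_type, Fintype.sum_prod_type] at h1
    have e1 : ∀ x y, π x * K x y * Real.log (π x * π y) =
        π x * K x y * Real.log (π x) + π x * K x y * Real.log (π y) := by
      intro x y
      rcases (mul_nonneg (hC.pi_nonneg x) (hC.K_nonneg x y)).eq_or_lt with h0 | h0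
      · rw [← h0]
        simp
      · have h2 := (hm0 _ _ h0).1
        have h4 : 0 < π y * K y x := by
          rw [← hsym]
          exact h0
        rw [Real.log_mul h2.ne' (hm0 _ _ h4).1.ne']
        ring
    have e2 : ∀ x y, π x * K x y * Real.log (π x * K x y) =
        π x * K x y * Real.log (π x) + π x * K x y * Real.log (K x y) := by
      intro x y
      rcases (mul_nonneg (hC.pi_nonneg x) (hC.K_nonneg x y)).eq_or_lt with h0 | h0
      · rw [← h0]
        simp
      · rw [Real.log_mul (hm0 _ _ h0).1.ne' (hm0 _ _ h0).2.ne']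
        ring
    simp only [e1, e2, Finset.sum_add_distrib] at h1
    have e3 : ∑ x, ∑ y, π x * K x y * Real.log (π y) = ∑ x, π x * Real.log (π x) := by
      rw [Finset.sum_comm]
      refine Finset.sum_congr rfl fun y _ => ?_
      rw [← Finset.sum_mul, hC.stat]
    rw [e3] at h1
    linarith

end Pool.Agent.J6H87.DD
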