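import Pool.Agent.J6H87.DD.Chain

/-!
# Density domination exponents: tree indexed Markov chains with vertex dependent laws
-/

set_option autoImplicit false

namespace Pool.Agent.J6H87.DD.V

variable {X : Type*} [Fintype X]

/-- a probability kernel from the law `π` to the law `ρ` -/
structure Ker (π ρ : X → ℝ) (K : X → X → ℝ) : Prop where
  K_nonneg : ∀ x y, 0 ≤ K x y
  K_sum : ∀ x, ∑ y, K x y = 1
  push : ∀ y, ∑ x, π x * K x y = ρ y

/-- the law of the chain along a tree -/
noncomputable def PP (n : ℕ) (π : Fin (n + 1) → X → ℝ) (K : Fin n → X → X → ℝ)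
    (p : Fin n → Fin (n + 1)) (ψ : Fin (n + 1) → X) : ℝ :=
  π 0 (ψ 0) * ∏ i : Fin n, K i (ψ (p i)) (ψ i.succ)

omit [Fintype X] in
theorem PP_snoc (n : ℕ) (π : Fin (n + 2) → X → ℝ) (K : Fin (n + 1) → X → X → ℝ)
    (p : Fin (n + 1) → Fin (n + 2))
    (hp : ∀ i, (p i : ℕ) ≤ i) (ψ : Fin (n + 1) → X) (y : X) :
    PP (n + 1) π K p (Fin.snoc ψ y) =
      PP n (fun j => π j.castSucc) (fun i => K i.castSucc) (pr p hp) ψ *
        K (Fin.last n) (ψ (pl p hp)) y := by
  have h0 : (Fin.snoc ψ y : Fin (n + 2) → X) 0 = ψ 0 := by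
    have : (0 : Fin (n + 2)) = Fin.castSucc 0 := rfl
    rw [this, Fin.snoc_castSucc]
  have h1 : ∀ i : Fin n, (Fin.snoc ψ y : Fin (n + 2) → X) (p i.castSucc) = ψ (pr p hp i) := by
    intro i
    have : p i.castSucc = (pr p hp i).castSucc := by
      unfold pr
      rw [Fin.castSucc_castLT]
    rw [this, Fin.snoc_castSucc]
  have h2 : (Fin.snoc ψ y : Fin (n + 2) → X) (p (Fin.last n)) = ψ (pl p hp) := by
    have : p (Fin.last n) = (pl p hp).castSucc := by
      unfold pl
      rw [Fin.castSucc_castLT]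
    rw [this, Fin.snoc_castSucc]
  unfold PP
  rw [Fin.prod_univ_castSucc, h0, h2, Fin.succ_last, Fin.snoc_last, mul_assoc]
  congr 2
  refine Finset.prod_congr rfl fun i _ => ?_
  rw [h1, Fin.succ_castSucc, Fin.snoc_castSucc]

theorem ker_restrict (n : ℕ) (π : Fin (n + 2) → X → ℝ) (K : Fin (n + 1) → X → X → ℝ)
    (p : Fin (n + 1) → Fin (n + 2)) (hp : ∀ i, (p i : ℕ) ≤ i)
    (hK : ∀ i, Ker (π (p i)) (π i.succ) (K i)) (i : Fin n) :
    Ker (π (pr p hp i).castSucc) (π i.succ.castSucc) (K i.castSucc) := by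
  have h := hK i.castSucc
  have e : p i.castSucc = (pr p hp i).castSucc := by
    unfold pr
    rw [Fin.castSucc_castLT]
  rw [e, Fin.succ_castSucc] at h
  exact h

theorem marg : ∀ (n : ℕ) (π : Fin (n + 1) → X → ℝ) (K : Fin n → X → X → ℝ)
    (p : Fin n → Fin (n + 1)) (_ : ∀ i, (p i : ℕ) ≤ i)
    (_ : ∀ i, Ker (π (p i)) (π i.succ) (K i))
    (j : Fin (n + 1)) (f : X → ℝ), ∑ ψ, PP n π K p ψ * f (ψ j) = ∑ x, π j x * f x := by
  intro n
  induction n with
  | zero =>
    intro π K p hp hK j f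
    have hj : j = 0 := Fin.ext (by
      have := j.isLt
      simp only [Fin.val_zero]
      omega)
    rw [hj, ← (Equiv.funUnique (Fin 1) X).symm.sum_comp]
    refine Finset.sum_congr rfl fun x _ => ?_
    simp [PP, Equiv.funUnique]
  | succ n ih =>
    intro π K p hp hK j f
    have hK' := ker_restrict n π K p hp hK
    rw [sum_snoc]
    rcases Fin.eq_castSucc_or_eq_last j with ⟨j', rfl⟩ | rfl
    · have e : ∀ ψ : Fin (n + 1) → X, ∑ y, PP (n + 1) π K p (Fin.snoc ψ y) *
          f ((Fin.snoc ψ y : Fin (n + 2) → X) j'.castSucc) =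
          PP n (fun j => π j.castSucc) (fun i => K i.castSucc) (pr p hp) ψ * f (ψ j') := by
        intro ψ
        have : ∀ y, PP (n + 1) π K p (Fin.snoc ψ y) *
          f ((Fin.snoc ψ y : Fin (n + 2) → X) j'.castSucc) =
          (PP n (fun j => π j.castSucc) (fun i => K i.castSucc) (pr p hp) ψ * f (ψ j')) *
            K (Fin.last n) (ψ (pl p hp)) y := by
          intro y
          rw [PP_snoc n π K p hp, Fin.snoc_castSucc]
          ring
        simp_rw [this]
        rw [← Finset.mul_sum, (hK (Fin.last n)).K_sum, mul_one]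
      simp_rw [e]
      exact ih (fun j => π j.castSucc) (fun i => K i.castSucc) (pr p hp) (pr_le p hp) hK' j' f
    · have e : ∀ ψ : Fin (n + 1) → X, ∑ y, PP (n + 1) π K p (Fin.snoc ψ y) *
          f ((Fin.snoc ψ y : Fin (n + 2) → X) (Fin.last (n + 1))) =
          PP n (fun j => π j.castSucc) (fun i => K i.castSucc) (pr p hp) ψ *
            (∑ y, K (Fin.last n) (ψ (pl p hp)) y * f y) := by
        intro ψ
        rw [Finset.mul_sum]
        refine Finset.sum_congr rfl fun y _ => ?_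
        rw [PP_snoc n π K p hp, Fin.snoc_last]
        ring
      simp_rw [e]
      rw [ih (fun j => π j.castSucc) (fun i => K i.castSucc) (pr p hp) (pr_le p hp) hK' (pl p hp)
        (fun x => ∑ y, K (Fin.last n) x y * f y)]
      have e2 : π (pl p hp).castSucc = π (p (Fin.last n)) := by
        unfold pl
        rw [Fin.castSucc_castLT]
      simp_rw [e2, Finset.mul_sum]
      rw [Finset.sum_comm]
      refine Finset.sum_congr rfl fun y _ => ?_
      have h3 := (hK (Fin.last n)).push y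
      rw [Fin.succ_last] at h3
      rw [← h3, Finset.sum_mul]
      refine Finset.sum_congr rfl fun x _ => ?_
      ring

theorem marg2 : ∀ (n : ℕ) (π : Fin (n + 1) → X → ℝ) (K : Fin n → X → X → ℝ)
    (p : Fin n → Fin (n + 1)) (_ : ∀ i, (p i : ℕ) ≤ i)
    (_ : ∀ i, Ker (π (p i)) (π i.succ) (K i))
    (i : Fin n) (f : X → X → ℝ), ∑ ψ, PP n π K p ψ * f (ψ (p i)) (ψ i.succ) =
      ∑ x, ∑ y, π (p i) x * K i x y * f x y := by
  intro n
  induction n with
  | zero =>
    intro π K p hp hK i f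
    exact i.elim0
  | succ n ih =>
    intro π K p hp hK i f
    have hK' := ker_restrict n π K p hp hK
    rw [sum_snoc]
    rcases Fin.eq_castSucc_or_eq_last i with ⟨i', rfl⟩ | rfl
    · have h1 : p i'.castSucc = (pr p hp i').castSucc := by
        unfold pr
        rw [Fin.castSucc_castLT]
      have e : ∀ ψ : Fin (n + 1) → X, ∑ y, PP (n + 1) π K p (Fin.snoc ψ y) *
          f ((Fin.snoc ψ y : Fin (n + 2) → X) (p i'.castSucc))
            ((Fin.snoc ψ y : Fin (n + 2) → X) i'.castSucc.succ) =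
          PP n (fun j => π j.castSucc) (fun i => K i.castSucc) (pr p hp) ψ *
            f (ψ (pr p hp i')) (ψ i'.succ) := by
        intro ψ
        have : ∀ y, PP (n + 1) π K p (Fin.snoc ψ y) *
          f ((Fin.snoc ψ y : Fin (n + 2) → X) (p i'.castSucc))
            ((Fin.snoc ψ y : Fin (n + 2) → X) i'.castSucc.succ) =
          (PP n (fun j => π j.castSucc) (fun i => K i.castSucc) (pr p hp) ψ *
            f (ψ (pr p hp i')) (ψ i'.succ)) *
            K (Fin.last n) (ψ (pl p hp)) y := by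
          intro y
          rw [PP_snoc n π K p hp, h1, Fin.succ_castSucc, Fin.snoc_castSucc, Fin.snoc_castSucc]
          ring
        simp_rw [this]
        rw [← Finset.mul_sum, (hK (Fin.last n)).K_sum, mul_one]
      simp_rw [e, h1]
      exact ih (fun j => π j.castSucc) (fun i => K i.castSucc) (pr p hp) (pr_le p hp) hK' i' f
    · have h1 : p (Fin.last n) = (pl p hp).castSucc := by
        unfold pl
        rw [Fin.castSucc_castLT]
      have e : ∀ ψ : Fin (n + 1) → X, ∑ y, PP (n + 1) π K p (Fin.snoc ψ y) *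
          f ((Fin.snoc ψ y : Fin (n + 2) → X) (p (Fin.last n)))
            ((Fin.snoc ψ y : Fin (n + 2) → X) (Fin.last n).succ) =
          PP n (fun j => π j.castSucc) (fun i => K i.castSucc) (pr p hp) ψ *
            (∑ y, K (Fin.last n) (ψ (pl p hp)) y * f (ψ (pl p hp)) y) := by
        intro ψ
        rw [Finset.mul_sum]
        refine Finset.sum_congr rfl fun y _ => ?_
        rw [PP_snoc n π K p hp, h1, Fin.succ_last, Fin.snoc_last, Fin.snoc_castSucc]
        ring
      simp_rw [e]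
      rw [marg n (fun j => π j.castSucc) (fun i => K i.castSucc) (pr p hp) (pr_le p hp) hK'
        (pl p hp) (fun x => ∑ y, K (Fin.last n) x y * f x y), h1]
      refine Finset.sum_congr rfl fun x _ => ?_
      rw [Finset.mul_sum]
      refine Finset.sum_congr rfl fun y _ => ?_
      ring

omit [Fintype X] in
theorem PP_nonneg (n : ℕ) (π : Fin (n + 1) → X → ℝ) (h1 : ∀ j x, 0 ≤ π j x)
    (K : Fin n → X → X → ℝ)
    (h2 : ∀ i x y, 0 ≤ K i x y) (p : Fin n → Fin (n + 1)) (ψ : Fin (n + 1) → X) :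
    0 ≤ PP n π K p ψ :=
  mul_nonneg (h1 _ _) (Finset.prod_nonneg fun _ _ => h2 _ _ _)

theorem PP_sum (n : ℕ) (π : Fin (n + 1) → X → ℝ) (hs : ∑ x, π 0 x = 1) (K : Fin n → X → X → ℝ)
    (p : Fin n → Fin (n + 1)) (hp : ∀ i, (p i : ℕ) ≤ i)
    (hK : ∀ i, Ker (π (p i)) (π i.succ) (K i)) :
    ∑ ψ, PP n π K p ψ = 1 := by
  have := marg n π K p hp hK 0 (fun _ => 1)
  simpa [hs] using this

omit [Fintype X] in
theorem log_PP (n : ℕ) (π : Fin (n + 1) → X → ℝ) (K : Fin n → X → X → ℝ)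
    (p : Fin n → Fin (n + 1)) (ψ : Fin (n + 1) → X) (h : 0 < PP n π K p ψ) :
    Real.log (PP n π K p ψ) =
      Real.log (π 0 (ψ 0)) + ∑ i : Fin n, Real.log (K i (ψ (p i)) (ψ i.succ)) := by
  unfold PP at h ⊢
  have h3 : π 0 (ψ 0) ≠ 0 := by
    intro h0
    rw [h0, zero_mul] at h
    exact h.ne' rfl
  have h4 : ∏ i : Fin n, K i (ψ (p i)) (ψ i.succ) ≠ 0 := by
    intro h0
    rw [h0, mul_zero] at h
    exact h.ne' rfl
  rw [Real.log_mul h3 h4, Real.log_prod]
  intro i _
  exact (Finset.prod_ne_zero_iff.1 h4) i (Finset.mem_univ _)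

theorem entropy (n : ℕ) (π : Fin (n + 1) → X → ℝ) (h1 : ∀ j x, 0 ≤ π j x)
    (K : Fin n → X → X → ℝ) (p : Fin n → Fin (n + 1)) (hp : ∀ i, (p i : ℕ) ≤ i)
    (hK : ∀ i, Ker (π (p i)) (π i.succ) (K i)) :
    ∑ ψ, PP n π K p ψ * Real.log (PP n π K p ψ) =
      ∑ x, π 0 x * Real.log (π 0 x) +
        ∑ i, ∑ x, ∑ y, π (p i) x * K i x y * Real.log (K i x y) := by
  have e : ∀ ψ, PP n π K p ψ * Real.log (PP n π K p ψ) =
      PP n π K p ψ * Real.log (π 0 (ψ 0)) +
        ∑ i : Fin n, PP n π K p ψ * Real.log (K i (ψ (p i)) (ψ i.succ)) := by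
    intro ψ
    rcases (PP_nonneg n π h1 K (fun i => (hK i).K_nonneg) p ψ).eq_or_lt with h0 | h0
    · rw [← h0]
      simp
    · rw [log_PP n π K p ψ h0, mul_add, Finset.mul_sum]
  simp_rw [e]
  rw [Finset.sum_add_distrib, marg n π K p hp hK 0 (fun x => Real.log (π 0 x)), Finset.sum_comm]
  congr 1
  exact Finset.sum_congr rfl fun i _ => marg2 n π K p hp hK i (fun x y => Real.log (K i x y))

theorem K_pos (n : ℕ) (π : Fin (n + 1) → X → ℝ) (K : Fin n → X → X → ℝ)
    (h2 : ∀ i x y, 0 ≤ K i x y)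
    (p : Fin n → Fin (n + 1))
    (ψ : Fin (n + 1) → X) (h : 0 < PP n π K p ψ) : ∀ i, 0 < K i (ψ (p i)) (ψ i.succ) := by
  intro i
  refine lt_of_le_of_ne (h2 i _ _) fun h0 => ?_
  unfold PP at h
  rw [Finset.prod_eq_zero (Finset.mem_univ i) h0.symm, mul_zero] at h
  exact h.ne' rfl

theorem pi_pos (n : ℕ) (π : Fin (n + 1) → X → ℝ) (h1 : ∀ j x, 0 ≤ π j x)
    (K : Fin n → X → X → ℝ) (p : Fin n → Fin (n + 1)) (hp : ∀ i, (p i : ℕ) ≤ i)
    (hK : ∀ i, Ker (π (p i)) (π i.succ) (K i))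
    (ψ : Fin (n + 1) → X) (h : 0 < PP n π K p ψ) : ∀ j, 0 < π j (ψ j) := by
  have h4 := K_pos n π K (fun i => (hK i).K_nonneg) p ψ h
  have h3 : 0 < π 0 (ψ 0) := by
    refine lt_of_le_of_ne (h1 _ _) fun h0 => ?_
    unfold PP at h
    rw [← h0, zero_mul] at h
    exact h.ne' rfl
  have key : ∀ m : ℕ, ∀ j : Fin (n + 1), (j : ℕ) ≤ m → 0 < π j (ψ j) := by
    intro m
    induction m with
    | zero =>
      intro j hj
      have : j = 0 := by
        ext
        simp only [Fin.val_zero]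
        omega
      rw [this]
      exact h3
    | succ m ih =>
      intro j hj
      rcases Fin.eq_zero_or_eq_succ j with rfl | ⟨i, rfl⟩
      · exact h3
      · have h5 : 0 < π (p i) (ψ (p i)) := by
          refine ih (p i) ((hp i).trans ?_)
          simp only [Fin.val_succ] at hj
          omega
        rw [← (hK i).push (ψ i.succ)]
        refine lt_of_lt_of_le (mul_pos h5 (h4 i)) ?_
        exact Finset.single_le_sum (f := fun x => π (p i) x * K i x (ψ i.succ))
          (fun x _ => mul_nonneg (h1 _ _) ((hK i).K_nonneg _ _))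
          (Finset.mem_univ (ψ (p i)))
  intro j
  exact key j j le_rfl

/-- lower bound for the number of tree configurations supported by the chain -/
theorem count_tree (n : ℕ) (π : Fin (n + 1) → X → ℝ) (h1 : ∀ j x, 0 ≤ π j x)
    (hs : ∑ x, π 0 x = 1) (A : X → X → Prop) (K : Fin n → X → X → ℝ)
    (p : Fin n → Fin (n + 1)) (hp : ∀ i, (p i : ℕ) ≤ i)
    (hK : ∀ i, Ker (π (p i)) (π i.succ) (K i))
    (hA : ∀ i x y, 0 < π (p i) x → 0 < K i x y → A x y) (M : ℕ)
    (hM : M = Nat.card {ψ : Fin (n + 1) → X // ∀ i, A (ψ (p i)) (ψ i.succ)}) :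
    0 < M ∧ -(∑ x, π 0 x * Real.log (π 0 x) +
      ∑ i, ∑ x, ∑ y, π (p i) x * K i x y * Real.log (K i x y)) ≤ Real.log M := by
  classical
  rw [Nat.card_eq_fintype_card, Fintype.card_subtype] at hM
  have hPn : ∀ ψ, 0 ≤ PP n π K p ψ := PP_nonneg n π h1 K (fun i => (hK i).K_nonneg) p
  have hgood : ∀ ψ, 0 < PP n π K p ψ → ∀ i, A (ψ (p i)) (ψ i.succ) := fun ψ h i =>
    hA i _ _ (pi_pos n π h1 K p hp hK ψ h _) (K_pos n π K (fun i => (hK i).K_nonneg) p ψ h i)
  have hM0 : 0 < M := by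
    rw [hM, Finset.card_pos]
    by_contra hne
    rw [Finset.not_nonempty_iff_eq_empty] at hne
    have h1 : ∀ ψ, PP n π K p ψ = 0 := by
      intro ψ
      by_contra h0
      have h2 := hgood ψ (lt_of_le_of_ne (hPn ψ) (Ne.symm h0))
      have : ψ ∈ (Finset.univ.filter fun ψ : Fin (n + 1) → X =>
          ∀ i, A (ψ (p i)) (ψ i.succ)) :=
        Finset.mem_filter.2 ⟨Finset.mem_univ _, h2⟩
      rw [hne] at this
      exact absurd this (Finset.notMem_empty _)
    have h3 := PP_sum n π hs K p hp hK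
    simp [h1] at h3
  refine ⟨hM0, ?_⟩
  have hMr : (0 : ℝ) < M := by exact_mod_cast hM0
  have h5 := gibbs (PP n π K p)
    (fun ψ => if ∀ i, A (ψ (p i)) (ψ i.succ) then (M : ℝ)⁻¹ else 0)
    hPn (fun ψ => by
      split_ifs
      · positivity
      · exact le_rfl) (PP_sum n π hs K p hp hK) (by
      rw [← Finset.sum_filter, Finset.sum_const, ← hM, nsmul_eq_mul,
        mul_inv_cancel₀ hMr.ne']) (fun ψ h => by
      rw [if_pos (hgood ψ h)]
      positivity)
  rw [entropy n π h1 K p hp hK] at h5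
  have h6 : ∑ ψ, PP n π K p ψ *
      Real.log (if ∀ i, A (ψ (p i)) (ψ i.succ) then (M : ℝ)⁻¹ else 0) =
        -Real.log M := by
    have : ∀ ψ, PP n π K p ψ *
      Real.log (if ∀ i, A (ψ (p i)) (ψ i.succ) then (M : ℝ)⁻¹ else 0) =
        PP n π K p ψ * (-Real.log M) := by
      intro ψ
      rcases (hPn ψ).eq_or_lt with h0 | h0
      · rw [← h0]
        simp
      · rw [if_pos (hgood ψ h0), Real.log_inv]
    simp_rw [this]
    rw [← Finset.sum_mul, PP_sum n π hs K p hp hK, one_mul]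
  rw [h6] at h5
  linarith

end Pool.Agent.J6H87.DD.V
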