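import Mathlib

/-!
# Density domination exponents: definitions
-/

set_option autoImplicit false

namespace Pool.Agent.J6H87.DD

/-- the homomorphism density `t(F,W) = hom(F,W) / |V(W)| ^ |V(F)|` of `F` in the finite graph
`W` -/
noncomputable def dens {V X : Type} (F : SimpleGraph V) (W : SimpleGraph X) : ℝ :=
  (Nat.card (F →g W) : ℝ) / (Nat.card X : ℝ) ^ Nat.card V

/-- the set of all `c ≥ 0` such that `t(H,W) ≥ t(G,W) ^ c` for all finite nonempty graphs `W` -/
def Exps {V U : Type} (G : SimpleGraph V) (H : SimpleGraph U) : Set ℝ :=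
  {c | 0 ≤ c ∧ ∀ (X : Type) [Finite X] [Nonempty X] (W : SimpleGraph X),
    dens G W ^ c ≤ dens H W}

/-- `G` is regular of degree `d` -/
def Reg {V : Type} (G : SimpleGraph V) (d : ℕ) : Prop :=
  ∀ a, Nat.card {b // G.Adj a b} = d

/-- there is a nonempty finite family of spanning trees of `G` such that all edges of `G` are
contained in the same number of them -/
def Cover {V : Type} (G : SimpleGraph V) : Prop :=
  ∃ (ι : Type) (S : ι → SimpleGraph V) (k : ℕ), Finite ι ∧ Nonempty ι ∧
    (∀ i, S i ≤ G ∧ (S i).IsTree) ∧ ∀ a b, G.Adj a b → Nat.card {i // (S i).Adj a b} = k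

/-- the automorphism group of `G` acts transitively on the edges -/
def EdgeTransitive {V : Type} (G : SimpleGraph V) : Prop :=
  ∀ a b a' b', G.Adj a b → G.Adj a' b' →
    ∃ τ : G ≃g G, (τ a = a' ∧ τ b = b') ∨ (τ a = b' ∧ τ b = a')

/-- the automorphism group of `G` acts transitively on the vertices -/
def VertexTransitive {V : Type} (G : SimpleGraph V) : Prop :=
  ∀ a b, ∃ τ : G ≃g G, τ a = b

/-- there is a finite family of copies of `H` in `G` such that all vertices of `G` are covered by
the same positive number `k` of them -/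
def Tiling {V U : Type} (G : SimpleGraph V) (H : SimpleGraph U) : Prop :=
  ∃ (ι : Type) (f : ι → U → V) (k : ℕ), Finite ι ∧ 0 < k ∧
    (∀ i, Function.Injective (f i) ∧ ∀ a b, H.Adj a b → G.Adj (f i a) (f i b)) ∧
    ∀ v, Nat.card {i // ∃ u, f i u = v} = k

end Pool.Agent.J6H87.DD
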