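import Mathlib

/-!
# Density domination exponents: fractional loads, definition
-/

set_option autoImplicit false

namespace Pool.Agent.J6H87.DD

/-- There is a probability distribution `y` on the homomorphisms from `H` to `G` such that the
expected number of vertices of `H` mapped to any given vertex of `G`, and the expected number of
edges of `H` mapped to any given edge of `G`, is at most `c`. -/
def Loads {V U : Type} (G : SimpleGraph V) (H : SimpleGraph U) (c : ℝ) : Prop :=
  ∃ y : (H →g G) → ℝ, (∀ f, 0 ≤ y f) ∧ ∑ᶠ f, y f = 1 ∧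
    (∀ v, ∑ᶠ f, y f * (Nat.card {u // f u = v} : ℝ) ≤ c) ∧
    ∀ v w, G.Adj v w →
      ∑ᶠ f, y f * (Nat.card {z : U × U // H.Adj z.1 z.2 ∧ f z.1 = v ∧ f z.2 = w} : ℝ) ≤ c

end Pool.Agent.J6H87.DD
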