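import Mathlib

/-!
# Density domination exponents of trees: enumerations of trees
-/

set_option autoImplicit false

namespace Pool.Agent.J6H87.DD

/-- an enumeration of a tree in which every vertex but the first comes after its parent -/
structure TreeEnum {V : Type*} (S : SimpleGraph V) (n : ℕ) where
  e : Fin (n + 1) ≃ V
  p : Fin n → Fin (n + 1)
  hp : ∀ i, (p i : ℕ) ≤ i
  adj : ∀ i, S.Adj (e (p i)) (e i.succ)
  all : ∀ a b, S.Adj a b → ∃ i, (a = e (p i) ∧ b = e i.succ) ∨ (b = e (p i) ∧ a = e i.succ)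

variable {V : Type*}

theorem enum_aux [Fintype V] (S : SimpleGraph V) (hS : S.Connected) (n : ℕ)
    (hn : Fintype.card V = n + 1) : ∀ k ≤ n, ∃ (f : ℕ → V) (q : ℕ → ℕ),
      (∀ i ≤ k, ∀ j ≤ k, f i = f j → i = j) ∧ ∀ i < k, q i ≤ i ∧ S.Adj (f (q i)) (f (i + 1)) := by
  classical
  intro k
  induction k with
  | zero =>
    intro _
    obtain ⟨v⟩ := hS.nonempty
    refine ⟨fun _ => v, fun _ => 0, fun i hi j hj _ => by omega, fun i hi => by omega⟩
  | succ k ih =>
    intro hk
    obtain ⟨f, q, hf, hq⟩ := ih (by omega)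
    have hex : ∃ v : V, ∀ i ≤ k, f i ≠ v := by
      by_contra hcon
      push Not at hcon
      have h1 : (Finset.univ : Finset V) ⊆ (Finset.range (k + 1)).image f := by
        intro v _
        obtain ⟨i, hi, hv⟩ := hcon v
        exact Finset.mem_image.2 ⟨i, Finset.mem_range.2 (by omega), hv⟩
      have h2 := (Finset.card_le_card h1).trans Finset.card_image_le
      rw [Finset.card_univ, Finset.card_range] at h2
      omega
    obtain ⟨v, hv⟩ := hex
    obtain ⟨w⟩ := hS.preconnected (f 0) v
    obtain ⟨d, -, hd1, hd2⟩ := w.exists_boundary_dart {x | ∃ i ≤ k, f i = x}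
      ⟨0, Nat.zero_le _, rfl⟩ (by
        rintro ⟨i, hi, h⟩
        exact hv i hi h)
    obtain ⟨i0, hi0, hi0'⟩ := hd1
    have hd3 : ∀ i ≤ k, f i ≠ d.snd := fun i hi h => hd2 ⟨i, hi, h⟩
    refine ⟨fun i => if i = k + 1 then d.snd else f i, fun i => if i = k then i0 else q i, ?_, ?_⟩
    · intro i hi j hj hij
      by_cases h1 : i = k + 1
      · by_cases h2 : j = k + 1
        · omega
        · simp only [if_pos h1, if_neg h2] at hij
          exact absurd hij.symm (hd3 j (by omega))
      · by_cases h2 : j = k + 1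
        · simp only [if_neg h1, if_pos h2] at hij
          exact absurd hij (hd3 i (by omega))
        · simp only [if_neg h1, if_neg h2] at hij
          exact hf i (by omega) j (by omega) hij
    · intro i hi
      by_cases h1 : i = k
      · subst h1
        simp only [if_true]
        refine ⟨hi0, ?_⟩
        rw [if_neg (by omega), hi0']
        exact d.adj
      · simp only [if_neg h1]
        obtain ⟨h2, h3⟩ := hq i (by omega)
        refine ⟨h2, ?_⟩
        rw [if_neg (by omega), if_neg (by omega)]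
        exact h3

theorem enum_tree [Fintype V] (S : SimpleGraph V) (hS : S.IsTree) (n : ℕ)
    (hn : Fintype.card V = n + 1) : Nonempty (TreeEnum S n) := by
  classical
  obtain ⟨f, q, hf, hq⟩ := enum_aux S hS.1 n hn n le_rfl
  have hinj : Function.Injective (fun i : Fin (n + 1) => f i) := by
    intro i j hij
    exact Fin.ext (hf i (by omega) j (by omega) hij)
  have hbij : Function.Bijective (fun i : Fin (n + 1) => f i) :=
    (Fintype.bijective_iff_injective_and_card _).2 ⟨hinj, by rw [Fintype.card_fin, hn]⟩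
  let e : Fin (n + 1) ≃ V := Equiv.ofBijective _ hbij
  let p : Fin n → Fin (n + 1) := fun i => ⟨q i, by
    have := (hq i i.isLt).1
    have := i.isLt
    omega⟩
  have hp : ∀ i, (p i : ℕ) ≤ i := fun i => (hq i i.isLt).1
  have hadj : ∀ i, S.Adj (e (p i)) (e i.succ) := fun i => (hq i i.isLt).2
  refine ⟨⟨e, p, hp, hadj, ?_⟩⟩
  have hg : Function.Injective (fun i : Fin n => s(e (p i), e i.succ)) := by
    intro i j hij
    simp only [Sym2.eq_iff, EmbeddingLike.apply_eq_iff_eq] at hij
    rcases hij with ⟨-, h⟩ | ⟨h1, h2⟩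
    · exact Fin.succ_injective _ h
    · have h3 := hp i
      have h4 := hp j
      rw [h1, Fin.val_succ] at h3
      rw [← h2, Fin.val_succ] at h4
      omega
  have hcard := hS.card_edgeFinset
  have hsub : (Finset.univ.image fun i : Fin n => s(e (p i), e i.succ)) ⊆ S.edgeFinset := by
    intro z hz
    obtain ⟨i, -, rfl⟩ := Finset.mem_image.1 hz
    rw [SimpleGraph.mem_edgeFinset, SimpleGraph.mem_edgeSet]
    exact hadj i
  have heq := Finset.eq_of_subset_of_card_le hsub (by
    rw [Finset.card_image_of_injective _ hg, Finset.card_univ, Fintype.card_fin]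
    omega)
  intro a b hab
  have h1 : s(a, b) ∈ S.edgeFinset := by
    rw [SimpleGraph.mem_edgeFinset, SimpleGraph.mem_edgeSet]
    exact hab
  rw [← heq] at h1
  obtain ⟨i, -, hi⟩ := Finset.mem_image.1 h1
  refine ⟨i, ?_⟩
  rw [Sym2.eq_iff] at hi
  rcases hi with ⟨h2, h3⟩ | ⟨h2, h3⟩
  · exact Or.inl ⟨h2.symm, h3.symm⟩
  · exact Or.inr ⟨h2.symm, h3.symm⟩

/-- sums over the ordered adjacent pairs of an enumerated tree -/
theorem sum_adj [Fintype V] (S : SimpleGraph V) [DecidableRel S.Adj] (n : ℕ) (E : TreeEnum S n)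
    (D : V → V → ℝ) (hD : ∀ a b, D a b = D b a) :
    (∑ a, ∑ b, if S.Adj a b then D a b else 0) = 2 * ∑ i : Fin n, D (E.e (E.p i)) (E.e i.succ) := by
  classical
  have h1 : (∑ a, ∑ b, if S.Adj a b then D a b else 0) =
      ∑ z ∈ (Finset.univ : Finset (V × V)).filter (fun z => S.Adj z.1 z.2), D z.1 z.2 := by
    rw [Finset.sum_filter, Fintype.sum_prod_type]
  have hinj1 : Function.Injective (fun i : Fin n => (E.e (E.p i), E.e i.succ)) := by
    intro i j hij
    simp only [Prod.mk.injEq, EmbeddingLike.apply_eq_iff_eq] at hij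
    exact Fin.succ_injective _ hij.2
  have hinj2 : Function.Injective (fun i : Fin n => (E.e i.succ, E.e (E.p i))) := by
    intro i j hij
    simp only [Prod.mk.injEq, EmbeddingLike.apply_eq_iff_eq] at hij
    exact Fin.succ_injective _ hij.1
  have h2 : (Finset.univ : Finset (V × V)).filter (fun z => S.Adj z.1 z.2) =
      (Finset.univ.image fun i : Fin n => (E.e (E.p i), E.e i.succ)) ∪
        (Finset.univ.image fun i : Fin n => (E.e i.succ, E.e (E.p i))) := by
    ext ⟨a, b⟩
    simp only [Finset.mem_filter, Finset.mem_univ, true_and, Finset.mem_union,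
      Finset.mem_image, Prod.mk.injEq]
    constructor
    · intro h
      obtain ⟨i, h3 | h3⟩ := E.all a b h
      · exact Or.inl ⟨i, h3.1.symm, h3.2.symm⟩
      · exact Or.inr ⟨i, h3.2.symm, h3.1.symm⟩
    · rintro (⟨i, rfl, rfl⟩ | ⟨i, rfl, rfl⟩)
      · exact E.adj i
      · exact (E.adj i).symm
  have h3 : Disjoint (Finset.univ.image fun i : Fin n => (E.e (E.p i), E.e i.succ))
      (Finset.univ.image fun i : Fin n => (E.e i.succ, E.e (E.p i))) := by
    rw [Finset.disjoint_left]
    rintro z h4 h5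
    obtain ⟨i, -, rfl⟩ := Finset.mem_image.1 h4
    obtain ⟨j, -, h6⟩ := Finset.mem_image.1 h5
    simp only [Prod.mk.injEq, EmbeddingLike.apply_eq_iff_eq] at h6
    have h7 := E.hp i
    have h8 := E.hp j
    rw [← h6.1, Fin.val_succ] at h7
    rw [h6.2, Fin.val_succ] at h8
    omega
  rw [h1, h2, Finset.sum_union h3, Finset.sum_image fun _ _ _ _ h => hinj1 h,
    Finset.sum_image fun _ _ _ _ h => hinj2 h, two_mul]
  congr 1
  exact Finset.sum_congr rfl fun i _ => hD _ _

end Pool.Agent.J6H87.DD
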