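import Mathlib

/-!
# Density domination exponents: Finner's inequality for uniform covers
-/

set_option autoImplicit false

open MeasureTheory
open scoped ENNReal

namespace Pool.Agent.J6H87.DD

theorem finner_step {V Ω ι : Type} [Fintype V] [DecidableEq V] [Fintype ι] [MeasurableSpace Ω]
    (P : Measure Ω) [IsProbabilityMeasure P] (S : ι → Finset V) (k : ℕ) (hk : 0 < k)
    (hS : ∀ v, (Finset.univ.filter fun i => v ∈ S i).card = k)
    (g : ι → (V → Ω) → ℝ≥0∞) (hg : ∀ i, Measurable (g i))
    (hgS : ∀ i v, v ∉ S i → ∀ x y, g i (Function.update x v y) = g i x) (s : Finset V) :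
    ∀ x, lmarginal (fun _ => P) s (fun x => ∏ i, g i x ^ ((k : ℝ)⁻¹)) x ≤
      ∏ i, (lmarginal (fun _ => P) s (g i) x) ^ ((k : ℝ)⁻¹) := by
  have hkr : (0 : ℝ) < k := by exact_mod_cast hk
  have hp0 : (0 : ℝ) ≤ (k : ℝ)⁻¹ := by positivity
  have hkp : (k : ℝ) * (k : ℝ)⁻¹ = 1 := mul_inv_cancel₀ hkr.ne'
  generalize (k : ℝ)⁻¹ = p at hp0 hkp ⊢
  have hF : Measurable (fun x => ∏ i, g i x ^ p) :=
    Finset.measurable_fun_prod _ fun i _ => (hg i).pow_const _
  induction s using Finset.induction_on with
  | empty =>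
    intro x
    simp
  | insert v s hv ih =>
    intro x
    rw [lmarginal_insert _ hF hv]
    have h1 : ∀ i, v ∉ S i → ∀ t, lmarginal (fun _ => P) s (g i) (Function.update x v t) =
        lmarginal (fun _ => P) s (g i) x := by
      intro i hi t
      rw [lmarginal_update_of_notMem (hg i) hv]
      have h2 : (g i ∘ fun y => Function.update y v t) = g i := by
        funext y
        exact hgS i v hi y t
      rw [h2]
    have hmeas : ∀ i, Measurable fun t : Ω =>
        lmarginal (fun _ => P) s (g i) (Function.update x v t) :=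
      fun i => ((hg i).lmarginal _).comp (measurable_update _)
    have h2 : ∀ i, lmarginal (fun _ => P) (insert v s) (g i) x =
        ∫⁻ t, lmarginal (fun _ => P) s (g i) (Function.update x v t) ∂P := fun i =>
      lmarginal_insert _ (hg i) hv x
    obtain ⟨A, hA⟩ : ∃ A : Finset ι, A = Finset.univ.filter fun i => v ∈ S i := ⟨_, rfl⟩
    obtain ⟨B, hB⟩ : ∃ B : Finset ι, B = Finset.univ.filter fun i => ¬ v ∈ S i := ⟨_, rfl⟩
    have hsplit : ∀ f : ι → ℝ≥0∞, ∏ i, f i = (∏ i ∈ B, f i) * ∏ i ∈ A, f i := by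
      intro f
      rw [hA, hB, mul_comm, Finset.prod_filter_mul_prod_filter_not]
    have hBv : ∀ i ∈ B, v ∉ S i := fun i hi => by
      rw [hB] at hi
      exact (Finset.mem_filter.1 hi).2
    calc ∫⁻ t, lmarginal (fun _ => P) s (fun x => ∏ i, g i x ^ p) (Function.update x v t) ∂P
        ≤ ∫⁻ t, ∏ i, (lmarginal (fun _ => P) s (g i) (Function.update x v t)) ^ p ∂P :=
          lintegral_mono fun t => ih _
      _ = ∫⁻ t, (∏ i ∈ B, (lmarginal (fun _ => P) s (g i) x) ^ p) *
          ∏ i ∈ A, (lmarginal (fun _ => P) s (g i) (Function.update x v t)) ^ p ∂P := by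
          refine lintegral_congr fun t => ?_
          rw [hsplit]
          congr 1
          exact Finset.prod_congr rfl fun i hi => by rw [h1 i (hBv i hi) t]
      _ = (∏ i ∈ B, (lmarginal (fun _ => P) s (g i) x) ^ p) *
          ∫⁻ t, ∏ i ∈ A, (lmarginal (fun _ => P) s (g i) (Function.update x v t)) ^ p ∂P := by
          rw [lintegral_const_mul]
          exact Finset.measurable_fun_prod _ fun i _ => (hmeas i).pow_const _
      _ ≤ (∏ i ∈ B, (lmarginal (fun _ => P) s (g i) x) ^ p) *
          ∏ i ∈ A, (∫⁻ t, lmarginal (fun _ => P) s (g i) (Function.update x v t) ∂P) ^ p := by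
          gcongr
          apply ENNReal.lintegral_prod_norm_pow_le
          · intro i _
            exact (hmeas i).aemeasurable
          · rw [Finset.sum_const, hA, hS v, nsmul_eq_mul, hkp]
          · intro i _
            exact hp0
      _ = ∏ i, (lmarginal (fun _ => P) (insert v s) (g i) x) ^ p := by
          rw [hsplit]
          congr 1
          · refine Finset.prod_congr rfl fun i hi => ?_
            rw [h2, lintegral_congr fun t => h1 i (hBv i hi) t]
            simp
          · exact Finset.prod_congr rfl fun i _ => by rw [h2]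

theorem finner {V Ω ι : Type} [Fintype V] [DecidableEq V] [Fintype ι] [MeasurableSpace Ω]
    (P : Measure Ω) [IsProbabilityMeasure P] (S : ι → Finset V) (k : ℕ) (hk : 0 < k)
    (hS : ∀ v, (Finset.univ.filter fun i => v ∈ S i).card = k)
    (g : ι → (V → Ω) → ℝ≥0∞) (hg : ∀ i, Measurable (g i))
    (hgS : ∀ i v, v ∉ S i → ∀ x y, g i (Function.update x v y) = g i x) :
    ∫⁻ x, ∏ i, g i x ^ ((k : ℝ)⁻¹) ∂(Measure.pi fun _ => P) ≤
      ∏ i, (∫⁻ x, g i x ∂(Measure.pi fun _ => P)) ^ ((k : ℝ)⁻¹) := by
  have hΩ : Nonempty Ω := nonempty_of_isProbabilityMeasure P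
  obtain ⟨ω⟩ := hΩ
  have h := finner_step P S k hk hS g hg hgS Finset.univ (fun _ => ω)
  simpa only [lmarginal_univ] using h

/-- marginals of product measures -/
theorem lintegral_comp_inj {V U Ω : Type} [Fintype V] [DecidableEq V] [Fintype U]
    [DecidableEq U] [MeasurableSpace Ω] (P : Measure Ω) [IsProbabilityMeasure P] (e : U → V)
    (he : Function.Injective e) (f : (U → Ω) → ℝ≥0∞) (hf : Measurable f) :
    ∫⁻ x : V → Ω, f (fun u => x (e u)) ∂(Measure.pi fun _ => P) =
      ∫⁻ y, f y ∂(Measure.pi fun _ => P) := by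
  have hΩ : Nonempty Ω := nonempty_of_isProbabilityMeasure P
  obtain ⟨ω⟩ := hΩ
  have hF : Measurable (fun x : V → Ω => f (fun u => x (e u))) :=
    hf.comp (measurable_pi_iff.2 fun u => measurable_pi_apply (e u))
  have h1 : ∀ x : V → Ω, lmarginal (fun _ => P) (Finset.univ.image e)
      (fun x : V → Ω => f (fun u => x (e u))) x = ∫⁻ y, f y ∂(Measure.pi fun _ => P) := by
    intro x
    have h2 := lmarginal_image (μ := fun _ : V => P) he Finset.univ hf x
    rw [lmarginal_univ] at h2
    exact h2
  have h3 : (Finset.univ : Finset V) = (Finset.univ \ Finset.univ.image e) ∪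
      Finset.univ.image e := by
    rw [Finset.sdiff_union_of_subset (Finset.subset_univ _)]
  have h4 := lmarginal_union (fun _ : V => P) (fun x : V → Ω => f (fun u => x (e u))) hF
    (s := Finset.univ \ Finset.univ.image e) (t := Finset.univ.image e)
    Finset.sdiff_disjoint
  rw [← h3, lmarginal_univ] at h4
  have h5 := congrFun h4 (fun _ => ω)
  have h6 : lmarginal (fun _ : V => P) (Finset.univ.image e)
      (fun x : V → Ω => f (fun u => x (e u))) = fun _ => ∫⁻ y, f y ∂(Measure.pi fun _ => P) :=
    funext h1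
  rw [h6] at h5
  rw [h5]
  unfold lmarginal
  simp

end Pool.Agent.J6H87.DD
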