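import Pool.Agent.J6H87.DD.Upper

/-!
# Density domination exponents of trees: the number of homomorphisms of a regular graph with a
uniform cover by spanning trees
-/

set_option autoImplicit false

namespace Pool.Agent.J6H87.DD

section

variable {V X : Type} [Fintype V] [Fintype X] {G : SimpleGraph V} {W : SimpleGraph X}

theorem Kn_pos (d : ℕ) (hd : ∀ a, Nat.card {b // G.Adj a b} = d) (hd0 : 0 < d)
    (hN : 0 < (Hs G W).card) (hV : 0 < Fintype.card V)
    (φ : V → X) (hφ : φ ∈ Hs G W) (a b : V) (hab : G.Adj a b) :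
    0 < Pn G W (φ a) ∧ 0 < Kn G W d (φ a) (φ b) := by
  have hM : (0 : ℝ) < (Hs G W).card * Fintype.card V := by
    have h1 : (0 : ℝ) < (Hs G W).card := by exact_mod_cast hN
    have h2 : (0 : ℝ) < Fintype.card V := by exact_mod_cast hV
    positivity
  have hd1 : (0 : ℝ) < d := by exact_mod_cast hd0
  have h1 : 0 < Pn G W (φ a) := div_pos (nu_pos φ hφ a) hM
  refine ⟨h1, ?_⟩
  have h2 : 0 < Pn G W (φ a) * Kn G W d (φ a) (φ b) := by
    rw [Pn_Kn d hd hd0]
    exact div_pos (mu_pos φ hφ a b hab) (mul_pos hd1 hM)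
  exact pos_of_mul_pos_right h2 h1.le

open Classical in
/-- Gibbs inequality for one spanning tree -/
theorem one_tree (d : ℕ) (hd : ∀ a, Nat.card {b // G.Adj a b} = d) (hd0 : 0 < d)
    (hN : 0 < (Hs G W).card) (n : ℕ) (hn : Fintype.card V = n + 1)
    (S : SimpleGraph V) (hSG : S ≤ G) (E : TreeEnum S n) :
    (∑ φ ∈ Hs G W, ((∑ a, ∑ b, if S.Adj a b then
      (Real.log (Pn G W (φ a) * Kn G W d (φ a) (φ b)) - Real.log (Pn G W (φ a)) -
        Real.log (Pn G W (φ b))) else 0) + 2 * ∑ a, Real.log (Pn G W (φ a)))) ≤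
      -(2 * (Hs G W).card * Real.log (Hs G W).card) := by
  have hV : 0 < Fintype.card V := by omega
  have hC := chain (W := W) d hd hd0 hN hV
  have hNr : (0 : ℝ) < (Hs G W).card := by exact_mod_cast hN
  obtain ⟨φ0, hφ0⟩ := Finset.card_pos.1 hN
  have hPpos : ∀ φ ∈ Hs G W, ∀ a, 0 < Pn G W (φ a) := fun φ hφ a =>
    div_pos (nu_pos φ hφ a) (by
      have h2 : (0 : ℝ) < Fintype.card V := by exact_mod_cast hV
      positivity)
  have hKpos : ∀ φ ∈ Hs G W, ∀ i, 0 < Kn G W d (φ (E.e (E.p i))) (φ (E.e i.succ)) :=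
    fun φ hφ i => (Kn_pos d hd hd0 hN hV φ hφ _ _ (hSG (E.adj i))).2
  have hPP : ∀ φ ∈ Hs G W, 0 < PP (Pn G W) n (fun _ => Kn G W d) E.p (fun j => φ (E.e j)) := by
    intro φ hφ
    unfold PP
    exact mul_pos (hPpos φ hφ _) (Finset.prod_pos fun i _ => hKpos φ hφ i)
  have hg := gibbs (fun φ : V → X => if φ ∈ Hs G W then ((Hs G W).card : ℝ)⁻¹ else 0)
    (fun φ => PP (Pn G W) n (fun _ => Kn G W d) E.p (fun j => φ (E.e j))) (fun φ => by
      split_ifs
      · positivity
      · exact le_rfl) (fun φ => PP_nonneg hC.pi_nonneg n _ (fun _ => hC.K_nonneg) _ _) (by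
      rw [← Finset.sum_filter, Finset.filter_mem_eq_inter, Finset.univ_inter, Finset.sum_const,
        nsmul_eq_mul, mul_inv_cancel₀ hNr.ne']) (by
      rw [← (E.e.arrowCongr (Equiv.refl X)).sum_comp]
      refine le_of_eq ?_
      rw [← PP_sum ⟨hC.pi_nonneg, hC.pi_sum⟩ n _ (fun _ => hC) E.p E.hp]
      refine Finset.sum_congr rfl fun ψ _ => ?_
      congr 1
      funext j
      simp [Equiv.arrowCongr]) (fun φ h => by
      by_cases h1 : φ ∈ Hs G W
      · exact hPP φ h1
      · rw [if_neg h1] at h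
        exact absurd h (lt_irrefl _))
  have e1 : (∑ φ : V → X, (if φ ∈ Hs G W then ((Hs G W).card : ℝ)⁻¹ else 0) *
      Real.log (PP (Pn G W) n (fun _ => Kn G W d) E.p (fun j => φ (E.e j)))) =
      ((Hs G W).card : ℝ)⁻¹ * ∑ φ ∈ Hs G W,
        Real.log (PP (Pn G W) n (fun _ => Kn G W d) E.p (fun j => φ (E.e j))) := by
    rw [Finset.mul_sum, ← Finset.sum_filter_add_sum_filter_not Finset.univ (· ∈ Hs G W),
      Finset.filter_mem_eq_inter, Finset.univ_inter]
    rw [Finset.sum_eq_zero (s := Finset.univ.filter fun φ => ¬ φ ∈ Hs G W), add_zero]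
    · refine Finset.sum_congr rfl fun φ hφ => ?_
      rw [if_pos hφ]
    · intro φ hφ
      rw [if_neg (Finset.mem_filter.1 hφ).2, zero_mul]
  have e2 : (∑ φ : V → X, (if φ ∈ Hs G W then ((Hs G W).card : ℝ)⁻¹ else 0) *
      Real.log (if φ ∈ Hs G W then ((Hs G W).card : ℝ)⁻¹ else 0)) =
      -Real.log (Hs G W).card := by
    rw [← Finset.sum_filter_add_sum_filter_not Finset.univ (· ∈ Hs G W),
      Finset.filter_mem_eq_inter, Finset.univ_inter]
    rw [Finset.sum_eq_zero (s := Finset.univ.filter fun φ => ¬ φ ∈ Hs G W), add_zero]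
    · rw [Finset.sum_congr rfl fun φ hφ => by rw [if_pos hφ], Finset.sum_const, nsmul_eq_mul,
        Real.log_inv, ← mul_assoc, mul_inv_cancel₀ hNr.ne', one_mul]
    · intro φ hφ
      rw [if_neg (Finset.mem_filter.1 hφ).2, zero_mul]
  rw [e1, e2, inv_mul_le_iff₀ hNr] at hg
  have e3 : ∀ φ ∈ Hs G W, ((∑ a, ∑ b, if S.Adj a b then
      (Real.log (Pn G W (φ a) * Kn G W d (φ a) (φ b)) - Real.log (Pn G W (φ a)) -
        Real.log (Pn G W (φ b))) else 0) + 2 * ∑ a, Real.log (Pn G W (φ a))) =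
      2 * Real.log (PP (Pn G W) n (fun _ => Kn G W d) E.p (fun j => φ (E.e j))) := by
    intro φ hφ
    rw [sum_adj S n E (fun a b => Real.log (Pn G W (φ a) * Kn G W d (φ a) (φ b)) -
      Real.log (Pn G W (φ a)) - Real.log (Pn G W (φ b))) (fun a b => by
        rw [chain_symm d hd hd0]
        ring), log_PP n _ E.p _ (hPP φ hφ), ← E.e.sum_comp, Fin.sum_univ_succ]
    have e4 : ∀ i, Real.log (Pn G W (φ (E.e (E.p i))) *
        Kn G W d (φ (E.e (E.p i))) (φ (E.e i.succ))) =
        Real.log (Pn G W (φ (E.e (E.p i)))) +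
          Real.log (Kn G W d (φ (E.e (E.p i))) (φ (E.e i.succ))) := fun i =>
      Real.log_mul (hPpos φ hφ _).ne' (hKpos φ hφ i).ne'
    simp only [e4]
    rw [Finset.sum_sub_distrib, Finset.sum_sub_distrib, Finset.sum_add_distrib]
    ring
  rw [Finset.sum_congr rfl e3, ← Finset.mul_sum]
  linarith

open Classical in
theorem cover_sum {ι : Type} [Fintype ι] (S : ι → SimpleGraph V) (hSG : ∀ i, S i ≤ G) (k : ℕ)
    (hk : ∀ a b, G.Adj a b → Nat.card {i // (S i).Adj a b} = k) (D : V → V → ℝ) :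
    (∑ i, ∑ a, ∑ b, if (S i).Adj a b then D a b else 0) =
      k * ∑ a, ∑ b, if G.Adj a b then D a b else 0 := by
  rw [Finset.sum_comm, Finset.mul_sum]
  refine Finset.sum_congr rfl fun a _ => ?_
  rw [Finset.sum_comm, Finset.mul_sum]
  refine Finset.sum_congr rfl fun b _ => ?_
  rw [← Finset.sum_filter, Finset.sum_const, nsmul_eq_mul]
  by_cases h : G.Adj a b
  · rw [if_pos h, ← hk a b h, Nat.card_eq_fintype_card, Fintype.card_subtype]
  · rw [if_neg h, mul_zero, Finset.filter_false_of_mem (fun i _ h' => h (hSG i h'))]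
    simp

/-- upper bound for the number of homomorphisms of `G` -/
theorem count_G (d : ℕ) (hd : ∀ a, Nat.card {b // G.Adj a b} = d) (hd0 : 0 < d)
    (hN : 0 < (Hs G W).card) (n : ℕ) (hn : Fintype.card V = n + 1)
    {ι : Type} [Fintype ι] [Nonempty ι] (S : ι → SimpleGraph V) (hSG : ∀ i, S i ≤ G)
    (hST : ∀ i, (S i).IsTree) (k : ℕ)
    (hk : ∀ a b, G.Adj a b → Nat.card {i // (S i).Adj a b} = k) :
    ∑ x, Pn G W x * Real.log (Pn G W x) +
      n * ∑ x, ∑ y, Pn G W x * Kn G W d x y * Real.log (Kn G W d x y) ≤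
      -Real.log (Hs G W).card := by
  classical
  have hV : 0 < Fintype.card V := by omega
  have hC := chain (W := W) d hd hd0 hN hV
  have hNr : (0 : ℝ) < (Hs G W).card := by exact_mod_cast hN
  have hιr : (0 : ℝ) < Fintype.card ι := by exact_mod_cast Fintype.card_pos
  have hdr : (0 : ℝ) < d := by exact_mod_cast hd0
  have hVr : (Fintype.card V : ℝ) = n + 1 := by
    rw [hn]
    push_cast
    rfl
  have hE : ∀ i, Nonempty (TreeEnum (S i) n) := fun i => enum_tree (S i) (hST i) n hn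
  obtain ⟨E⟩ : Nonempty (∀ i, TreeEnum (S i) n) := ⟨fun i => (hE i).some⟩
  -- sum of the inequalities
  have h1 := Finset.sum_le_sum fun i (_ : i ∈ (Finset.univ : Finset ι)) =>
    one_tree (W := W) d hd hd0 hN n hn (S i) (hSG i) (E i)
  rw [Finset.sum_comm, Finset.sum_const, Finset.card_univ, nsmul_eq_mul] at h1
  have e1 : ∀ φ : V → X, (∑ i, ((∑ a, ∑ b, if (S i).Adj a b then
      (Real.log (Pn G W (φ a) * Kn G W d (φ a) (φ b)) - Real.log (Pn G W (φ a)) -
        Real.log (Pn G W (φ b))) else 0) + 2 * ∑ a, Real.log (Pn G W (φ a)))) =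
      k * (∑ a, ∑ b, if G.Adj a b then
      (Real.log (Pn G W (φ a) * Kn G W d (φ a) (φ b)) - Real.log (Pn G W (φ a)) -
        Real.log (Pn G W (φ b))) else 0) +
      2 * Fintype.card ι * ∑ a, Real.log (Pn G W (φ a)) := by
    intro φ
    rw [Finset.sum_add_distrib, cover_sum S hSG k hk, Finset.sum_const, Finset.card_univ,
      nsmul_eq_mul]
    ring
  rw [Finset.sum_congr rfl fun φ _ => e1 φ, Finset.sum_add_distrib, ← Finset.mul_sum,
    ← Finset.mul_sum, ← nu_sum G W (fun x => Real.log (Pn G W x)),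
    ← mu_sum G W (fun x y => Real.log (Pn G W x * Kn G W d x y) - Real.log (Pn G W x) -
      Real.log (Pn G W y))] at h1
  -- the number of edges
  have h2 : (Fintype.card ι : ℝ) * (2 * n) = k * ((n + 1) * d) := by
    have h3 := cover_sum S hSG k hk (fun _ _ => (1 : ℝ))
    have h4 : ∀ i, (∑ a, ∑ b, if (S i).Adj a b then (1 : ℝ) else 0) = 2 * n := by
      intro i
      rw [sum_adj (S i) n (E i) (fun _ _ => 1) (fun _ _ => rfl)]
      simp
    have h5 : (∑ a, ∑ b, if G.Adj a b then (1 : ℝ) else 0) = (n + 1) * d := by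
      have h6 : ∀ a, (∑ b, if G.Adj a b then (1 : ℝ) else 0) = d := by
        intro a
        rw [← hd a, Nat.card_eq_fintype_card, Fintype.card_subtype, Finset.sum_boole]
      simp only [h6]
      rw [Finset.sum_const, Finset.card_univ, nsmul_eq_mul, hVr]
    simp only [h4] at h3
    rw [h5, Finset.sum_const, Finset.card_univ, nsmul_eq_mul] at h3
    exact h3
  -- the two sums in terms of the chain
  obtain ⟨P, hP⟩ : ∃ P, P = ∑ x, Pn G W x * Real.log (Pn G W x) := ⟨_, rfl⟩
  obtain ⟨Q, hQ⟩ : ∃ Q, Q = ∑ x, ∑ y, Pn G W x * Kn G W d x y * Real.log (Kn G W d x y) :=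
    ⟨_, rfl⟩
  obtain ⟨N, hNN⟩ : ∃ N : ℝ, N = (Hs G W).card := ⟨_, rfl⟩
  rw [← hNN] at hNr
  have hM : (0 : ℝ) < N * (n + 1) := by positivity
  have e5 : ∑ x, nu G W x * Real.log (Pn G W x) = N * (n + 1) * P := by
    rw [hP, Finset.mul_sum]
    refine Finset.sum_congr rfl fun x _ => ?_
    have : nu G W x = N * (n + 1) * Pn G W x := by
      unfold Pn
      rw [hVr, ← hNN]
      field_simp
    rw [this]
    ring
  have e6 : ∑ x, ∑ y, mu G W x y * (Real.log (Pn G W x * Kn G W d x y) -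
      Real.log (Pn G W x) - Real.log (Pn G W y)) = d * (N * (n + 1)) * (Q - P) := by
    have e7 : ∀ x y, mu G W x y * (Real.log (Pn G W x * Kn G W d x y) -
      Real.log (Pn G W x) - Real.log (Pn G W y)) =
        d * (N * (n + 1)) * (Pn G W x * Kn G W d x y * Real.log (Kn G W d x y) -
          Pn G W x * Kn G W d x y * Real.log (Pn G W y)) := by
      intro x y
      have h3 : mu G W x y = d * (N * (n + 1)) * (Pn G W x * Kn G W d x y) := by
        rw [Pn_Kn d hd hd0, hVr, ← hNN]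
        field_simp
      rw [h3]
      rcases (mul_nonneg (hC.pi_nonneg x) (hC.K_nonneg x y)).eq_or_lt with h0 | h0
      · rw [← h0]
        simp
      · have h7 : Pn G W x ≠ 0 := by
          intro h8
          rw [h8, zero_mul] at h0
          exact lt_irrefl _ h0
        have h9 : Kn G W d x y ≠ 0 := by
          intro h8
          rw [h8, mul_zero] at h0
          exact lt_irrefl _ h0
        rw [Real.log_mul h7 h9]
        ring
    simp only [e7]
    simp_rw [← Finset.mul_sum]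
    congr 1
    simp_rw [Finset.sum_sub_distrib]
    rw [← hQ]
    congr 1
    rw [Finset.sum_comm, hP]
    refine Finset.sum_congr rfl fun y _ => ?_
    rw [← Finset.sum_mul, hC.stat]
  rw [e5, e6, ← hNN] at h1
  rw [← hP, ← hQ, ← hNN]
  have e8 : (k : ℝ) * (d * (N * (n + 1)) * (Q - P)) = (k * ((n + 1) * d)) * (N * (Q - P)) := by
    ring
  rw [e8, ← h2] at h1
  have hpos : (0 : ℝ) < 2 * Fintype.card ι * N := by positivity
  have h9 : (2 * Fintype.card ι * N) * (P + n * Q) ≤ (2 * Fintype.card ι * N) * (-Real.log N) := by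
    nlinarith [h1]
  exact le_of_mul_le_mul_left h9 hpos

end

end Pool.Agent.J6H87.DD
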