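import Mathlib

/-!
# Density domination exponents: matrix games over the rational numbers

The Farkas lemma is adapted from Pool.Agent.H249R2.PM.Farkas.
-/

set_option autoImplicit false

namespace Pool.Agent.J6H87.DD

/-- Algebraic Farkas lemma (Bartl's induction). -/
theorem farkasQ {U : Type*} [AddCommGroup U] [Module ℚ U] :
    ∀ (m : ℕ) (ℓ : Fin m → (U →ₗ[ℚ] ℚ)) (f : U →ₗ[ℚ] ℚ),
      (∀ x, (∀ i, ℓ i x ≤ 0) → f x ≤ 0) →
      ∃ w : Fin m → ℚ, (∀ i, 0 ≤ w i) ∧ ∀ x, f x = ∑ i, w i * ℓ i x := by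
  intro m
  induction m with
  | zero =>
    intro ℓ f h
    refine ⟨fun i => 0, fun i => le_refl _, fun x => ?_⟩
    have h1 := h x (fun i => i.elim0)
    have h2 := h (-x) (fun i => i.elim0)
    rw [map_neg] at h2
    simp
    linarith
  | succ m ih =>
    intro ℓ f h
    by_cases hA : ∀ x, (∀ i : Fin m, ℓ i.castSucc x ≤ 0) → f x ≤ 0
    · obtain ⟨w, hw, hf⟩ := ih (fun i => ℓ i.castSucc) f hA
      refine ⟨Fin.snoc w 0, ?_, ?_⟩
      · intro i
        refine Fin.lastCases ?_ (fun j => ?_) i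
        · simp
        · simpa using hw j
      · intro x
        rw [Fin.sum_univ_castSucc]
        simp [hf x]
    · push Not at hA
      obtain ⟨x0, hx0, hfx0⟩ := hA
      have hlast : 0 < ℓ (Fin.last m) x0 := by
        by_contra hneg
        push Not at hneg
        have : f x0 ≤ 0 := h x0 (fun i => by
          refine Fin.lastCases ?_ (fun j => ?_) i
          · exact hneg
          · exact hx0 j)
        linarith
      set t : ℚ := ℓ (Fin.last m) x0 with ht
      -- y = x - (ℓ_last x / t) x0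
      obtain ⟨w, hw, hf⟩ := ih
        (fun i => ℓ i.castSucc - (ℓ i.castSucc x0 / t) • ℓ (Fin.last m))
        (f - (f x0 / t) • ℓ (Fin.last m)) (by
          intro x hx
          have key : f (x - (ℓ (Fin.last m) x / t) • x0) ≤ 0 := by
            apply h
            intro i
            refine Fin.lastCases ?_ (fun j => ?_) i
            · rw [map_sub, map_smul, smul_eq_mul, ← ht, div_mul_cancel₀ _ hlast.ne', sub_self]
            · have := hx j
              simp only [LinearMap.sub_apply, LinearMap.smul_apply, smul_eq_mul] at this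
              rw [map_sub, map_smul, smul_eq_mul]
              have e : ℓ (Fin.last m) x / t * ℓ j.castSucc x0 =
                ℓ j.castSucc x0 / t * ℓ (Fin.last m) x := by ring
              rw [e]
              exact this
          rw [map_sub, map_smul, smul_eq_mul] at key
          simp only [LinearMap.sub_apply, LinearMap.smul_apply, smul_eq_mul]
          have e : ℓ (Fin.last m) x / t * f x0 = f x0 / t * ℓ (Fin.last m) x := by ring
          rw [e] at key
          exact key)
      refine ⟨Fin.snoc w (f x0 / t - ∑ i, w i * (ℓ i.castSucc x0 / t)), ?_, ?_⟩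
      · intro i
        refine Fin.lastCases ?_ (fun j => ?_) i
        · simp only [Fin.snoc_last]
          have h1 : 0 < f x0 / t := div_pos hfx0 hlast
          have h2 : ∑ i, w i * (ℓ i.castSucc x0 / t) ≤ 0 := by
            apply Finset.sum_nonpos
            intro i _
            apply mul_nonpos_of_nonneg_of_nonpos (hw i)
            exact div_nonpos_of_nonpos_of_nonneg (hx0 i) hlast.le
          linarith
        · simpa using hw j
      · intro x
        have hx := hf x
        simp only [LinearMap.sub_apply, LinearMap.smul_apply, smul_eq_mul] at hx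
        rw [Fin.sum_univ_castSucc]
        simp only [Fin.snoc_castSucc, Fin.snoc_last]
        have e : ∑ i, w i * (ℓ i.castSucc x - ℓ i.castSucc x0 / t * ℓ (Fin.last m) x)
            = ∑ i, w i * ℓ i.castSucc x - (∑ i, w i * (ℓ i.castSucc x0 / t)) * ℓ (Fin.last m) x := by
          rw [Finset.sum_mul, ← Finset.sum_sub_distrib]
          refine Finset.sum_congr rfl fun i _ => ?_
          ring
        rw [e] at hx
        linarith

theorem farkasQ_fin {U K : Type*} [AddCommGroup U] [Module ℚ U] [Fintype K]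
    (ℓ : K → (U →ₗ[ℚ] ℚ)) (f : U →ₗ[ℚ] ℚ)
    (h : ∀ x, (∀ i, ℓ i x ≤ 0) → f x ≤ 0) :
    ∃ w : K → ℚ, (∀ i, 0 ≤ w i) ∧ ∀ x, f x = ∑ i, w i * ℓ i x := by
  let e := Fintype.equivFin K
  obtain ⟨w, hw, hf⟩ := farkasQ (Fintype.card K) (fun i => ℓ (e.symm i)) f (fun x hx =>
    h x fun i => by simpa using hx (e i))
  refine ⟨fun i => w (e i), fun i => hw _, fun x => ?_⟩
  rw [hf x, ← e.sum_comp]
  simp

section

variable {R J : Type} [Fintype R] [Fintype J]

/-- the space of the unknowns -/
abbrev UU (R J : Type) : Type := (R → ℚ) × (J → ℚ) × ℚ × ℚ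

/-- the linear form with the given coefficients -/
def lf (a : R → ℚ) (b : J → ℚ) (c d : ℚ) : UU R J →ₗ[ℚ] ℚ where
  toFun u := ∑ f, a f * u.1 f + ∑ j, b j * u.2.1 j + c * u.2.2.1 + d * u.2.2.2
  map_add' u v := by
    simp only [Prod.fst_add, Prod.snd_add, Pi.add_apply, mul_add, Finset.sum_add_distrib]
    ring
  map_smul' r u := by
    simp only [Prod.smul_fst, Prod.smul_snd, Pi.smul_apply, smul_eq_mul, RingHom.id_apply,
      mul_add, Finset.mul_sum]
    congr 1
    · congr 1
      · congr 1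
        · exact Finset.sum_congr rfl fun f _ => by ring
        · exact Finset.sum_congr rfl fun f _ => by ring
      · ring
    · ring

theorem lf_apply (a : R → ℚ) (b : J → ℚ) (c d : ℚ) (u : UU R J) :
    lf a b c d u = ∑ f, a f * u.1 f + ∑ j, b j * u.2.1 j + c * u.2.2.1 + d * u.2.2.2 := rfl

open Classical in
/-- the constraints of the game -/
noncomputable def cons (M : R → J → ℚ) : J ⊕ R ⊕ R ⊕ J ⊕ Bool ⊕ Bool → (UU R J →ₗ[ℚ] ℚ)
  | Sum.inl j => lf (fun f => M f j) 0 (-1) 0
  | Sum.inr (Sum.inl f) => lf 0 (fun j => -M f j) 1 0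
  | Sum.inr (Sum.inr (Sum.inl f)) => lf (fun g => if g = f then -1 else 0) 0 0 0
  | Sum.inr (Sum.inr (Sum.inr (Sum.inl j))) => lf 0 (fun i => if i = j then -1 else 0) 0 0
  | Sum.inr (Sum.inr (Sum.inr (Sum.inr (Sum.inl true)))) => lf 1 0 0 (-1)
  | Sum.inr (Sum.inr (Sum.inr (Sum.inr (Sum.inl false)))) => lf (-1) 0 0 1
  | Sum.inr (Sum.inr (Sum.inr (Sum.inr (Sum.inr true)))) => lf 0 1 0 (-1)
  | Sum.inr (Sum.inr (Sum.inr (Sum.inr (Sum.inr false)))) => lf 0 (-1) 0 1

/-- every matrix game over the rational numbers has a value and optimal strategies -/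
theorem game [Nonempty R] [Nonempty J] (M : R → J → ℚ) :
    ∃ (lam : ℚ) (y : R → ℚ) (z : J → ℚ), (∀ f, 0 ≤ y f) ∧ ∑ f, y f = 1 ∧ (∀ j, 0 ≤ z j) ∧
      ∑ j, z j = 1 ∧ (∀ j, ∑ f, y f * M f j ≤ lam) ∧ ∀ f, lam ≤ ∑ j, z j * M f j := by
  classical
  by_cases hcon : ∀ u : UU R J, (∀ i, cons M i u ≤ 0) → lf (0 : R → ℚ) (0 : J → ℚ) 0 1 u ≤ 0
  · exfalso
    obtain ⟨w, hw, hid⟩ := farkasQ_fin (cons M) (lf (0 : R → ℚ) (0 : J → ℚ) 0 1) hcon
    simp only [Fintype.sum_sum_type, Fintype.sum_bool, cons, lf_apply] at hid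
    obtain ⟨α, hα⟩ : ∃ α : J → ℚ, α = fun j => w (Sum.inl j) := ⟨_, rfl⟩
    obtain ⟨β, hβ⟩ : ∃ β : R → ℚ, β = fun f => w (Sum.inr (Sum.inl f)) := ⟨_, rfl⟩
    obtain ⟨γ, hγ⟩ : ∃ γ : R → ℚ, γ = fun f => w (Sum.inr (Sum.inr (Sum.inl f))) := ⟨_, rfl⟩
    obtain ⟨δ, hδ⟩ : ∃ δ : J → ℚ, δ = fun j =>
      w (Sum.inr (Sum.inr (Sum.inr (Sum.inl j)))) := ⟨_, rfl⟩
    obtain ⟨s, hs⟩ : ∃ s : ℚ, s = w (Sum.inr (Sum.inr (Sum.inr (Sum.inr (Sum.inl true))))) -
      w (Sum.inr (Sum.inr (Sum.inr (Sum.inr (Sum.inl false))))) := ⟨_, rfl⟩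
    obtain ⟨t, ht⟩ : ∃ t : ℚ, t = w (Sum.inr (Sum.inr (Sum.inr (Sum.inr (Sum.inr true))))) -
      w (Sum.inr (Sum.inr (Sum.inr (Sum.inr (Sum.inr false))))) := ⟨_, rfl⟩
    have hα0 : ∀ j, 0 ≤ α j := fun j => by rw [hα]; exact hw _
    have hβ0 : ∀ j, 0 ≤ β j := fun j => by rw [hβ]; exact hw _
    have hγ0 : ∀ j, 0 ≤ γ j := fun j => by rw [hγ]; exact hw _
    have hδ0 : ∀ j, 0 ≤ δ j := fun j => by rw [hδ]; exact hw _
    have key : ∀ (y : R → ℚ) (z : J → ℚ) (l τ : ℚ), τ =
        ∑ j, α j * (∑ f, M f j * y f - l) + ∑ f, β f * (l - ∑ j, M f j * z j) -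
          ∑ f, γ f * y f - ∑ j, δ j * z j + s * (∑ f, y f - τ) + t * (∑ j, z j - τ) := by
      intro y z l τ
      have h := hid (y, z, l, τ)
      simp only [Pi.zero_apply, zero_mul, Finset.sum_const_zero, zero_add, add_zero, one_mul,
        Pi.one_apply, Pi.neg_apply, neg_mul, Finset.sum_neg_distrib] at h
      rw [hα, hβ, hγ, hδ, hs, ht]
      have g1 : ∀ f : R, (∑ g, (if g = f then (-1 : ℚ) else 0) * y g) = -y f := by
        intro f
        rw [Finset.sum_eq_single f]
        · simp
        · intro g _ hg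
          simp [hg]
        · intro h
          exact absurd (Finset.mem_univ _) h
      have g2 : ∀ f : J, (∑ g, (if g = f then (-1 : ℚ) else 0) * z g) = -z f := by
        intro f
        rw [Finset.sum_eq_single f]
        · simp
        · intro g _ hg
          simp [hg]
        · intro h
          exact absurd (Finset.mem_univ _) h
      simp only [g1, g2] at h
      have e1 : ∑ x, w (Sum.inl x) * (∑ f, M f x * y f + -l) =
          ∑ x, w (Sum.inl x) * (∑ f, M f x * y f - l) :=
        Finset.sum_congr rfl fun x _ => by ring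
      have e2 : ∑ x, w (Sum.inr (Sum.inl x)) * (-∑ j, M x j * z j + l) =
          ∑ x, w (Sum.inr (Sum.inl x)) * (l - ∑ j, M x j * z j) :=
        Finset.sum_congr rfl fun x _ => by ring
      rw [e1, e2] at h
      simp only [mul_neg, Finset.sum_neg_distrib] at h
      linear_combination h
    have k1 := key β α 0 0
    have k2 := key 0 0 1 0
    have k3 := key 0 0 0 1
    have sw : ∑ j, α j * ∑ f, M f j * β f = ∑ f, β f * ∑ j, M f j * α j := by
      simp_rw [Finset.mul_sum]
      rw [Finset.sum_comm]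
      exact Finset.sum_congr rfl fun f _ => Finset.sum_congr rfl fun j _ => by ring
    simp only [Pi.zero_apply, mul_zero, Finset.sum_const_zero, sub_zero, zero_sub, mul_neg,
      mul_one, Finset.sum_neg_distrib, add_zero, zero_add, neg_zero] at k1 k2 k3
    rw [sw] at k1
    have n1 : 0 ≤ ∑ f, γ f * β f := Finset.sum_nonneg fun f _ => mul_nonneg (hγ0 f) (hβ0 f)
    have n2 : 0 ≤ ∑ f, δ f * α f := Finset.sum_nonneg fun f _ => mul_nonneg (hδ0 f) (hα0 f)
    have n3 : 0 ≤ ∑ f, α f := Finset.sum_nonneg fun f _ => hα0 f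
    have hS : ∑ f, β f = ∑ j, α j := by linarith
    rw [hS] at k1
    have hst : s + t = -1 := by linarith
    have hS0 : ∑ j, α j = 0 := by
      have : (s + t) * ∑ j, α j = ∑ f, γ f * β f + ∑ f, δ f * α f := by linarith
      rw [hst] at this
      linarith
    have hα00 : ∀ j, α j = 0 := fun j =>
      (Finset.sum_eq_zero_iff_of_nonneg fun j _ => hα0 j).1 hS0 j (Finset.mem_univ _)
    have hβ00 : ∀ j, β j = 0 := fun j =>
      (Finset.sum_eq_zero_iff_of_nonneg fun j _ => hβ0 j).1 (hS.trans hS0) j (Finset.mem_univ _)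
    obtain ⟨f0⟩ := ‹Nonempty R›
    obtain ⟨j0⟩ := ‹Nonempty J›
    have k4 := key (fun f => if f = f0 then 1 else 0) 0 0 0
    have k5 := key 0 (fun j => if j = j0 then 1 else 0) 0 0
    simp [hα00, hβ00] at k4 k5
    have := hγ0 f0
    have := hδ0 j0
    linarith
  · push Not at hcon
    obtain ⟨u, hu, hτ⟩ := hcon
    obtain ⟨y, z, l, τ⟩ := u
    rw [lf_apply] at hτ
    simp only [Pi.zero_apply, zero_mul, Finset.sum_const_zero, zero_add, one_mul] at hτ
    have u1 : ∀ j, ∑ f, M f j * y f ≤ l := by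
      intro j
      have h := hu (Sum.inl j)
      simp only [cons, lf_apply, Pi.zero_apply, zero_mul, Finset.sum_const_zero, add_zero] at h
      linarith
    have u2 : ∀ f, l ≤ ∑ j, M f j * z j := by
      intro f
      have h := hu (Sum.inr (Sum.inl f))
      simp only [cons, lf_apply, Pi.zero_apply, zero_mul, Finset.sum_const_zero, add_zero,
        zero_add, neg_mul, Finset.sum_neg_distrib] at h
      linarith
    have u3 : ∀ f, 0 ≤ y f := by
      intro f
      have h := hu (Sum.inr (Sum.inr (Sum.inl f)))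
      simp only [cons, lf_apply, Pi.zero_apply, zero_mul, Finset.sum_const_zero, add_zero,
        ite_mul, neg_mul, one_mul, Finset.sum_ite_eq', Finset.mem_univ, if_true] at h
      linarith
    have u4 : ∀ j, 0 ≤ z j := by
      intro f
      have h := hu (Sum.inr (Sum.inr (Sum.inr (Sum.inl f))))
      simp only [cons, lf_apply, Pi.zero_apply, zero_mul, Finset.sum_const_zero, add_zero,
        zero_add, ite_mul, neg_mul, one_mul, Finset.sum_ite_eq', Finset.mem_univ, if_true] at h
      linarith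
    have u5 : ∑ f, y f = τ := by
      have h1 := hu (Sum.inr (Sum.inr (Sum.inr (Sum.inr (Sum.inl true)))))
      have h2 := hu (Sum.inr (Sum.inr (Sum.inr (Sum.inr (Sum.inl false)))))
      simp only [cons, lf_apply, Pi.zero_apply, zero_mul, Finset.sum_const_zero, add_zero,
        zero_add, neg_mul, one_mul, Pi.one_apply, Pi.neg_apply, Finset.sum_neg_distrib] at h1 h2
      linarith
    have u6 : ∑ f, z f = τ := by
      have h1 := hu (Sum.inr (Sum.inr (Sum.inr (Sum.inr (Sum.inr true)))))
      have h2 := hu (Sum.inr (Sum.inr (Sum.inr (Sum.inr (Sum.inr false)))))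
      simp only [cons, lf_apply, Pi.zero_apply, zero_mul, Finset.sum_const_zero, add_zero,
        zero_add, neg_mul, one_mul, Pi.one_apply, Pi.neg_apply, Finset.sum_neg_distrib] at h1 h2
      linarith
    refine ⟨l / τ, fun f => y f / τ, fun j => z j / τ, fun f => div_nonneg (u3 f) hτ.le, ?_,
      fun j => div_nonneg (u4 j) hτ.le, ?_, fun j => ?_, fun f => ?_⟩
    · rw [← Finset.sum_div, u5, div_self hτ.ne']
    · rw [← Finset.sum_div, u6, div_self hτ.ne']
    · have : ∑ f, y f / τ * M f j = (∑ f, M f j * y f) / τ := by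
        rw [Finset.sum_div]
        exact Finset.sum_congr rfl fun f _ => by ring
      rw [this]
      exact div_le_div_of_nonneg_right (u1 j) hτ.le
    · have : ∑ j, z j / τ * M f j = (∑ j, M f j * z j) / τ := by
        rw [Finset.sum_div]
        exact Finset.sum_congr rfl fun f _ => by ring
      rw [this]
      exact div_le_div_of_nonneg_right (u2 f) hτ.le

end

end Pool.Agent.J6H87.DD
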