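import Pool.Agent.J6H87.DD.Gside
import Pool.Agent.J6H87.DD.Def

/-!
# Density domination exponents of forests: main theorem
-/

set_option autoImplicit false

open Filter
open scoped Topology

namespace Pool.Agent.J6H87.DD

/-- a forest with an enumeration of a tree that contains it -/
theorem forest_enum {U : Type} [Fintype U] [Nonempty U] (F : SimpleGraph U) (hF : F.IsAcyclic)
    (N : ℕ) (hN : Fintype.card U = N + 1) :
    ∃ (S : SimpleGraph U) (_ : TreeEnum S N), F ≤ S := by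
  obtain ⟨S, hFS, -, hS⟩ := SimpleGraph.connected_top.exists_isTree_le_of_le_of_isAcyclic
    (le_top : F ≤ ⊤) hF
  obtain ⟨E⟩ := enum_tree S hS N hN
  exact ⟨S, E, hFS⟩

theorem card_edges {U : Type} [Fintype U] (F S : SimpleGraph U) (N : ℕ) (E : TreeEnum S N)
    (hFS : F ≤ S) :
    Nat.card {i // F.Adj (E.e (E.p i)) (E.e i.succ)} = Nat.card F.edgeSet := by
  classical
  refine Nat.card_congr (Equiv.ofBijective (fun i => ⟨s(E.e (E.p i.1), E.e i.1.succ),
    (SimpleGraph.mem_edgeSet F).2 i.2⟩) ⟨?_, ?_⟩)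
  · rintro ⟨i, hi⟩ ⟨j, hj⟩ hij
    have h0 : s(E.e (E.p i), E.e i.succ) = s(E.e (E.p j), E.e j.succ) :=
      congrArg Subtype.val hij
    simp only [Sym2.eq_iff, EmbeddingLike.apply_eq_iff_eq] at h0
    apply Subtype.ext
    rcases h0 with ⟨-, h⟩ | ⟨h1, h2⟩
    · exact Fin.succ_injective _ h
    · have h3 := E.hp i
      have h4 := E.hp j
      rw [h1, Fin.val_succ] at h3
      rw [← h2, Fin.val_succ] at h4
      omega
  · rintro ⟨z, hz⟩
    induction z using Sym2.ind with
    | _ a b =>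
      have hab : F.Adj a b := (SimpleGraph.mem_edgeSet F).1 hz
      obtain ⟨i, ⟨rfl, rfl⟩ | ⟨rfl, rfl⟩⟩ := E.all a b (hFS hab)
      · exact ⟨⟨i, hab⟩, rfl⟩
      · exact ⟨⟨i, hab.symm⟩, Subtype.ext Sym2.eq_swap⟩

/-- the lower bound for the number of homomorphisms of a forest -/
theorem forest_side {U X : Type} [Fintype U] [Fintype X] [Nonempty U] (F : SimpleGraph U)
    (hF : F.IsAcyclic) (W : SimpleGraph X) {π : X → ℝ} {K : X → X → ℝ}
    (hC : Chain π K) (hA : ∀ x y, 0 < π x → 0 < K x y → W.Adj x y) :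
    0 < Nat.card (F →g W) ∧
      -(((Fintype.card U : ℝ) - Nat.card F.edgeSet) * ∑ x, π x * Real.log (π x) +
        Nat.card F.edgeSet * ∑ x, ∑ y, π x * K x y * Real.log (K x y)) ≤
      Real.log (Nat.card (F →g W)) := by
  classical
  obtain ⟨N, hN⟩ : ∃ N, Fintype.card U = N + 1 := ⟨Fintype.card U - 1, by
    have := Fintype.card_pos (α := U)
    omega⟩
  obtain ⟨S, E, hFS⟩ := forest_enum F hF N hN
  have hL : Law π := ⟨hC.pi_nonneg, hC.pi_sum⟩
  have hI : Chain π (fun _ y => π y) := ⟨hC.pi_nonneg, hC.pi_sum, fun _ y => hC.pi_nonneg y,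
    fun _ => hC.pi_sum, fun y => by rw [← Finset.sum_mul, hC.pi_sum, one_mul]⟩
  have hcard := card_edges F S N E hFS
  obtain ⟨h1, h2⟩ := count_tree hL W.Adj N
    (fun i => if F.Adj (E.e (E.p i)) (E.e i.succ) then K else fun _ y => π y) (fun i => by
      split_ifs
      · exact hC
      · exact hI) (fun i => F.Adj (E.e (E.p i)) (E.e i.succ)) (fun i hi x y hx hxy => by
      rw [if_pos hi] at hxy
      exact hA x y hx hxy) E.p E.hp (Nat.card (F →g W)) (Nat.card_congr
    { toFun := fun f => ⟨fun j => f (E.e j), fun i hi => f.map_adj hi⟩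
      invFun := fun ψ => ⟨fun u => ψ.1 (E.e.symm u), fun {a b} h => by
        obtain ⟨i, ⟨rfl, rfl⟩ | ⟨rfl, rfl⟩⟩ := E.all a b (hFS h)
        · simpa using ψ.2 i h
        · simpa using (ψ.2 i h.symm).symm⟩
      left_inv := fun f => by
        ext u
        simp
      right_inv := fun ψ => by
        ext j
        simp })
  refine ⟨h1, le_trans (le_of_eq ?_) h2⟩
  congr 1
  obtain ⟨P, hP⟩ : ∃ P, P = ∑ x, π x * Real.log (π x) := ⟨_, rfl⟩
  obtain ⟨Q, hQ⟩ : ∃ Q, Q = ∑ x, ∑ y, π x * K x y * Real.log (K x y) := ⟨_, rfl⟩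
  have h3 : ∀ i : Fin N, (∑ x, ∑ y, π x *
      (if F.Adj (E.e (E.p i)) (E.e i.succ) then K else fun _ y => π y) x y *
      Real.log ((if F.Adj (E.e (E.p i)) (E.e i.succ) then K else fun _ y => π y) x y)) =
      if F.Adj (E.e (E.p i)) (E.e i.succ) then Q else P := by
    intro i
    by_cases h : F.Adj (E.e (E.p i)) (E.e i.succ)
    · simp only [if_pos h]
      rw [hQ]
    · simp only [if_neg h]
      rw [Finset.sum_comm, hP]
      refine Finset.sum_congr rfl fun y _ => ?_
      rw [← Finset.sum_mul, ← Finset.sum_mul, hC.pi_sum, one_mul]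
  rw [Finset.sum_congr rfl fun i _ => h3 i, ← hP, ← hQ, Finset.sum_ite, Finset.sum_const,
    Finset.sum_const, nsmul_eq_mul, nsmul_eq_mul]
  have h4 : ((Finset.univ.filter fun i : Fin N => F.Adj (E.e (E.p i)) (E.e i.succ)).card : ℝ) =
      Nat.card F.edgeSet := by
    rw [← hcard, Nat.card_eq_fintype_card, Fintype.card_subtype]
  have h5 : ((Finset.univ.filter fun i : Fin N => ¬ F.Adj (E.e (E.p i)) (E.e i.succ)).card : ℝ) =
      N - Nat.card F.edgeSet := by
    have h6 := Finset.card_filter_add_card_filter_not (s := (Finset.univ : Finset (Fin N)))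
      (fun i : Fin N => F.Adj (E.e (E.p i)) (E.e i.succ))
    rw [Finset.card_univ, Fintype.card_fin] at h6
    have h7 : ((Finset.univ.filter fun i : Fin N => F.Adj (E.e (E.p i)) (E.e i.succ)).card : ℝ) +
      ((Finset.univ.filter fun i : Fin N => ¬ F.Adj (E.e (E.p i)) (E.e i.succ)).card : ℝ) = N := by
      exact_mod_cast h6
    rw [h4] at h7
    linarith
  rw [h4, h5, hN]
  push_cast
  ring

theorem main_upper {V U : Type} [Fintype V] [Fintype U] [Nonempty U] (G : SimpleGraph V) (d : ℕ)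
    (hd : Reg G d) (hd0 : 0 < d) (hcov : Cover G) (F : SimpleGraph U) (hF : F.IsAcyclic) (n : ℕ)
    (hn : Fintype.card V = n + 1) (c : ℝ)
    (hc1 : (Nat.card F.edgeSet : ℝ) ≤ c * n) (hc2 : (Fintype.card U : ℝ) ≤ c * (n + 1))
    (X : Type) [Finite X] [Nonempty X] (W : SimpleGraph X) : dens G W ^ c ≤ dens F W := by
  classical
  have := Fintype.ofFinite X
  have hc0 : 0 < c := by
    by_contra h
    have h1 := mul_nonpos_of_nonpos_of_nonneg (not_lt.1 h) (by positivity : (0 : ℝ) ≤ n + 1)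
    have h2 : (0 : ℝ) < Fintype.card U := by exact_mod_cast Fintype.card_pos
    linarith
  have hX : (0 : ℝ) < Fintype.card X := by exact_mod_cast Fintype.card_pos
  unfold dens
  rw [Nat.card_eq_fintype_card (α := X), Nat.card_eq_fintype_card (α := V),
    Nat.card_eq_fintype_card (α := U), card_Hs G W, hn]
  rcases Nat.eq_zero_or_pos (Hs G W).card with hN | hN
  · rw [hN]
    simp only [Nat.cast_zero, zero_div]
    rw [Real.zero_rpow hc0.ne']
    positivity
  · obtain ⟨ι, S, k, hι1, hι2, hS, hk⟩ := hcov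
    have := Fintype.ofFinite ι
    have hV : 0 < Fintype.card V := by omega
    have hC := chain (W := W) d hd hd0 hN hV
    have hG := count_G (W := W) d hd hd0 hN n hn S (fun i => (hS i).1) (fun i => (hS i).2) k hk
    obtain ⟨hM, hT1⟩ := forest_side F hF W hC (chain_adj d hd hd0)
    obtain ⟨h1, h2⟩ := chain_ineq hC (chain_symm d hd hd0)
    obtain ⟨P, hP⟩ : ∃ P, P = ∑ x, Pn G W x * Real.log (Pn G W x) := ⟨_, rfl⟩
    obtain ⟨Q, hQ⟩ : ∃ Q, Q = ∑ x, ∑ y, Pn G W x * Kn G W d x y * Real.log (Kn G W d x y) :=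
      ⟨_, rfl⟩
    rw [← hP, ← hQ] at hG hT1
    rw [← hP] at h1
    rw [← hP, ← hQ] at h2
    have hNr : (0 : ℝ) < (Hs G W).card := by exact_mod_cast hN
    have hMr : (0 : ℝ) < Nat.card (F →g W) := by exact_mod_cast hM
    have hA : (0 : ℝ) < ((Hs G W).card : ℝ) / (Fintype.card X : ℝ) ^ (n + 1) := by positivity
    have hB : (0 : ℝ) < (Nat.card (F →g W) : ℝ) / (Fintype.card X : ℝ) ^ (Fintype.card U) := by
      positivity
    rw [← Real.log_le_log_iff (Real.rpow_pos_of_pos hA c) hB, Real.log_rpow hA,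
      Real.log_div hNr.ne' (pow_pos hX _).ne', Real.log_div hMr.ne' (pow_pos hX _).ne',
      Real.log_pow, Real.log_pow]
    obtain ⟨L, hL⟩ : ∃ L, L = Real.log (Fintype.card X) := ⟨_, rfl⟩
    rw [← hL] at h1 ⊢
    obtain ⟨u, hu⟩ : ∃ u : ℝ, u = Fintype.card U := ⟨_, rfl⟩
    obtain ⟨e, he⟩ : ∃ e : ℝ, e = Nat.card F.edgeSet := ⟨_, rfl⟩
    rw [← hu, ← he] at hT1
    rw [← he] at hc1
    rw [← hu] at hc2
    rw [← hu]
    push_cast
    have f1 : Real.log (Hs G W).card - (n + 1) * L ≤ (-P - L) + n * (-Q - L) := by linarith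
    have f2 : (u - e) * (-P - L) + e * (-Q - L) ≤ Real.log (Nat.card (F →g W)) - u * L := by
      linarith
    have f3 : c * ((-P - L) + n * (-Q - L)) ≤ (u - e) * (-P - L) + e * (-Q - L) := by
      have g1 : (c * n - e) * (-Q - L) ≤ (c * n - e) * (-P - L) :=
        mul_le_mul_of_nonneg_left (by linarith) (by linarith)
      have g2 : (c * (n + 1) - u) * (-P - L) ≤ 0 :=
        mul_nonpos_of_nonneg_of_nonpos (by linarith) (by linarith)
      nlinarith
    exact (mul_le_mul_of_nonneg_left f1 hc0.le).trans (f3.trans f2)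

/-! ### the test graphs -/

/-- a complete graph on half of the vertices -/
def W1 (r : ℕ) : SimpleGraph (Bool × Fin r) where
  Adj x y := x.1 = true ∧ y.1 = true ∧ x.2 ≠ y.2
  symm := ⟨fun _ _ h => ⟨h.2.1, h.1, h.2.2.symm⟩⟩
  loopless := ⟨fun _ h => h.2.2 rfl⟩

/-- two disjoint complete graphs -/
def W2 (r : ℕ) : SimpleGraph (Bool × Fin r) where
  Adj x y := x.1 = y.1 ∧ x.2 ≠ y.2
  symm := ⟨fun _ _ h => ⟨h.1.symm, h.2.symm⟩⟩
  loopless := ⟨fun _ h => h.2 rfl⟩

theorem W1_G {V : Type} [Fintype V] (G : SimpleGraph V) (r : ℕ) :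
    r.descFactorial (Fintype.card V) ≤ Nat.card (G →g W1 r) := by
  classical
  have h : Nat.card (V ↪ Fin r) = r.descFactorial (Fintype.card V) := by
    rw [Nat.card_eq_fintype_card, Fintype.card_embedding_eq, Fintype.card_fin]
  rw [← h]
  refine Nat.card_le_card_of_injective
    (fun f : V ↪ Fin r => (⟨fun v => (true, f v), fun {a b} hab => ⟨rfl, rfl, fun e =>
      hab.ne (f.injective e)⟩⟩ : G →g W1 r)) ?_
  intro f g hfg
  ext v
  have h1 := congrArg (fun F : G →g W1 r => F v) hfg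
  have h2 : ((true, f v) : Bool × Fin r) = (true, g v) := h1
  rw [(Prod.mk.inj h2).2]

theorem W2_G {V : Type} [Fintype V] [Nonempty V] (G : SimpleGraph V) (r : ℕ) :
    2 * r.descFactorial (Fintype.card V) ≤ Nat.card (G →g W2 r) := by
  classical
  have h : Nat.card (Bool × (V ↪ Fin r)) = 2 * r.descFactorial (Fintype.card V) := by
    rw [Nat.card_prod, Nat.card_eq_fintype_card (α := V ↪ Fin r), Fintype.card_embedding_eq,
      Fintype.card_fin]
    simp
  rw [← h]
  refine Nat.card_le_card_of_injective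
    (fun q : Bool × (V ↪ Fin r) => (⟨fun v => (q.1, q.2 v), fun {a b} hab => ⟨rfl, fun e =>
      hab.ne (q.2.injective e)⟩⟩ : G →g W2 r)) ?_
  rintro ⟨x, f⟩ ⟨y, g⟩ hfg
  have h1 : ∀ v, ((x, f v) : Bool × Fin r) = (y, g v) := fun v =>
    congrArg (fun F : G →g W2 r => F v) hfg
  obtain ⟨v0⟩ := ‹Nonempty V›
  have h2 := (Prod.mk.inj (h1 v0)).1
  have h3 : f = g := by
    ext v
    rw [(Prod.mk.inj (h1 v)).2]
  rw [h2, h3]

theorem W1_T {U : Type} [Fintype U] (T : SimpleGraph U) (hT : ∀ u, ∃ w, T.Adj u w) (r : ℕ) :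
    Nat.card (T →g W1 r) ≤ r ^ Fintype.card U := by
  classical
  have h : Nat.card (U → Fin r) = r ^ Fintype.card U := by
    rw [Nat.card_eq_fintype_card, Fintype.card_fun, Fintype.card_fin]
  rw [← h]
  refine Nat.card_le_card_of_injective (fun (φ : T →g W1 r) u => (φ u).2) ?_
  intro φ ψ hφψ
  ext u : 1
  obtain ⟨w, hw⟩ := hT u
  have h1 : (φ u).1 = true := (φ.map_adj hw).1
  have h2 : (ψ u).1 = true := (ψ.map_adj hw).1
  exact Prod.ext (h1.trans h2.symm) (congrFun hφψ u)

theorem W2_T {U : Type} [Fintype U] [Nonempty U] (F : SimpleGraph U) (hF : F.IsAcyclic)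
    (r : ℕ) : ∃ q : ℕ, q + Nat.card F.edgeSet = Fintype.card U ∧
      Nat.card (F →g W2 r) ≤ 2 ^ q * r ^ Fintype.card U := by
  classical
  obtain ⟨N, hN⟩ : ∃ N, Fintype.card U = N + 1 := ⟨Fintype.card U - 1, by
    have := Fintype.card_pos (α := U)
    omega⟩
  obtain ⟨S, E, hFS⟩ := forest_enum F hF N hN
  have hcard := card_edges F S N E hFS
  have h6 := Finset.card_filter_add_card_filter_not (s := (Finset.univ : Finset (Fin N)))
      (fun i : Fin N => F.Adj (E.e (E.p i)) (E.e i.succ))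
  rw [Finset.card_univ, Fintype.card_fin] at h6
  rw [Nat.card_eq_fintype_card, Fintype.card_subtype] at hcard
  refine ⟨1 + (Finset.univ.filter fun i : Fin N => ¬ F.Adj (E.e (E.p i)) (E.e i.succ)).card,
    by omega, ?_⟩
  have h : Nat.card ((Bool × ({i : Fin N // ¬ F.Adj (E.e (E.p i)) (E.e i.succ)} → Bool)) ×
      (U → Fin r)) = 2 ^ (1 + (Finset.univ.filter fun i : Fin N =>
        ¬ F.Adj (E.e (E.p i)) (E.e i.succ)).card) * r ^ Fintype.card U := by
    rw [Nat.card_eq_fintype_card, Fintype.card_prod, Fintype.card_prod, Fintype.card_fun,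
      Fintype.card_fun, Fintype.card_fin, Fintype.card_bool, Fintype.card_subtype, pow_add,
      pow_one]
  rw [← h]
  refine Nat.card_le_card_of_injective
    (fun (φ : F →g W2 r) => (((φ (E.e 0)).1, fun i => (φ (E.e i.1.succ)).1),
      fun u => (φ u).2)) ?_
  intro φ ψ hφψ
  have h1 := (Prod.mk.inj (Prod.mk.inj hφψ).1).1
  have h2 := (Prod.mk.inj (Prod.mk.inj hφψ).1).2
  have h3 := (Prod.mk.inj hφψ).2
  have key : ∀ m : ℕ, ∀ j : Fin (N + 1), (j : ℕ) ≤ m → (φ (E.e j)).1 = (ψ (E.e j)).1 := by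
    intro m
    induction m with
    | zero =>
      intro j hj
      have : j = 0 := by
        ext
        simp only [Fin.val_zero]
        omega
      rw [this]
      exact h1
    | succ m ih =>
      intro j hj
      rcases Fin.eq_zero_or_eq_succ j with rfl | ⟨i, rfl⟩
      · exact h1
      · by_cases hi : F.Adj (E.e (E.p i)) (E.e i.succ)
        · have h4 := ih (E.p i) ((E.hp i).trans (by
            simp only [Fin.val_succ] at hj
            omega))
          have h5 : (φ (E.e (E.p i))).1 = (φ (E.e i.succ)).1 := (φ.map_adj hi).1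
          have h6 : (ψ (E.e (E.p i))).1 = (ψ (E.e i.succ)).1 := (ψ.map_adj hi).1
          rw [← h5, ← h6]
          exact h4
        · exact congrFun h2 ⟨i, hi⟩
  ext u : 1
  have h4 := key _ (E.e.symm u) le_rfl
  rw [Equiv.apply_symm_apply] at h4
  exact Prod.ext h4 (congrFun h3 u)

theorem card_X (r : ℕ) : Nat.card (Bool × Fin r) = 2 * r := by
  rw [Nat.card_eq_fintype_card, Fintype.card_prod, Fintype.card_bool, Fintype.card_fin]

theorem desc_bound (n r : ℕ) (hr : n + 1 ≤ r) :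
    (((r : ℝ) - n) / (2 * r)) ^ (n + 1) ≤
      (r.descFactorial (n + 1) : ℝ) / ((2 * r : ℕ) : ℝ) ^ (n + 1) := by
  have h1 := Nat.pow_sub_le_descFactorial r (n + 1)
  have h2 : r + 1 - (n + 1) = r - n := by omega
  rw [h2] at h1
  have h3 : (((r - n : ℕ) : ℝ)) ^ (n + 1) ≤ (r.descFactorial (n + 1) : ℝ) := by exact_mod_cast h1
  rw [Nat.cast_sub (by omega)] at h3
  rw [div_pow]
  push_cast
  exact div_le_div_of_nonneg_right h3 (by positivity)

theorem tendsto_half (n : ℕ) :
    Tendsto (fun r : ℕ => ((r : ℝ) - n) / (2 * r)) atTop (𝓝 (1 / 2)) := by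
  have h1 : Tendsto (fun r : ℕ => (1 - (n : ℝ) / r) / 2) atTop (𝓝 ((1 - 0) / 2)) :=
    (tendsto_const_nhds.sub (tendsto_const_div_atTop_nhds_zero_nat (n : ℝ))).div_const 2
  rw [sub_zero] at h1
  refine h1.congr' ?_
  filter_upwards [eventually_gt_atTop 0] with r hr
  have : (r : ℝ) ≠ 0 := by
    have : r ≠ 0 := by omega
    exact_mod_cast this
  field_simp

theorem limit_ineq (A B c : ℝ) (hA : 0 < A) (n : ℕ)
    (h : ∀ r : ℕ, n + 1 ≤ r → (A * (((r : ℝ) - n) / (2 * r)) ^ (n + 1)) ^ c ≤ B) :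
    (A * (1 / 2) ^ (n + 1)) ^ c ≤ B := by
  have h1 : Tendsto (fun r : ℕ => (A * (((r : ℝ) - n) / (2 * r)) ^ (n + 1)) ^ c) atTop
      (𝓝 ((A * (1 / 2) ^ (n + 1)) ^ c)) := by
    have h2 : Tendsto (fun r : ℕ => A * (((r : ℝ) - n) / (2 * r)) ^ (n + 1)) atTop
      (𝓝 (A * (1 / 2) ^ (n + 1))) := ((tendsto_half n).pow (n + 1)).const_mul A
    exact h2.rpow_const (Or.inl (by positivity))
  refine le_of_tendsto h1 ?_
  filter_upwards [eventually_ge_atTop (n + 1)] with r hr
  exact h r hr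

theorem pow_half (a b : ℕ) (c : ℝ) (h : ((1 / 2 : ℝ) ^ a) ^ c ≤ (1 / 2) ^ b) :
    (b : ℝ) ≤ c * a := by
  have h1 : ((1 / 2 : ℝ) ^ a) ^ c = (1 / 2 : ℝ) ^ (c * a) := by
    rw [← Real.rpow_natCast (1 / 2 : ℝ) a, ← Real.rpow_mul (by norm_num), mul_comm]
  rw [h1, ← Real.rpow_natCast (1 / 2 : ℝ) b] at h
  exact (Real.rpow_le_rpow_left_iff_of_base_lt_one (by norm_num) (by norm_num)).1 h

theorem lower1 {V U : Type} [Fintype V] [Fintype U] (G : SimpleGraph V)
    (F : SimpleGraph U) (hadj : ∀ u, ∃ w, F.Adj u w) (n : ℕ)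
    (hn : Fintype.card V = n + 1) (c : ℝ)
    (hc : c ∈ Exps G F) : (Fintype.card U : ℝ) ≤ c * (n + 1) := by
  classical
  obtain ⟨hc0, hc⟩ := hc
  have key1 : ∀ r : ℕ, n + 1 ≤ r →
      ((1 : ℝ) * (((r : ℝ) - n) / (2 * r)) ^ (n + 1)) ^ c ≤ (1 / 2) ^ (Fintype.card U) := by
    intro r hr
    have hr0 : (0 : ℝ) < r := by
      have : 0 < r := by omega
      exact_mod_cast this
    have : Nonempty (Fin r) := ⟨⟨0, by omega⟩⟩
    have h1 := hc (Bool × Fin r) (W1 r)
    have h2 : (1 : ℝ) * (((r : ℝ) - n) / (2 * r)) ^ (n + 1) ≤ dens G (W1 r) := by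
      rw [one_mul]
      refine (desc_bound n r hr).trans ?_
      unfold dens
      have h3 := W1_G G r
      rw [hn] at h3
      rw [Nat.card_eq_fintype_card (α := V), hn, card_X]
      refine div_le_div_of_nonneg_right ?_ (by positivity)
      exact_mod_cast h3
    have h4 : dens F (W1 r) ≤ (1 / 2) ^ (Fintype.card U) := by
      unfold dens
      have h3 := W1_T F hadj r
      have hr2 : (0 : ℝ) < ((2 * r : ℕ) : ℝ) := by
        push_cast
        positivity
      rw [Nat.card_eq_fintype_card (α := U), card_X, div_le_iff₀ (pow_pos hr2 _)]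
      push_cast
      rw [← mul_pow]
      have e : (1 / 2 : ℝ) * (2 * r) = r := by ring
      rw [e]
      exact_mod_cast h3
    have h5 : (0 : ℝ) ≤ (1 : ℝ) * (((r : ℝ) - n) / (2 * r)) ^ (n + 1) := by
      have : (n : ℝ) + 1 ≤ r := by exact_mod_cast hr
      have h6 : (0 : ℝ) ≤ ((r : ℝ) - n) / (2 * r) := div_nonneg (by linarith) (by positivity)
      positivity
    exact (Real.rpow_le_rpow h5 h2 hc0).trans (h1.trans h4)
  have h1 := limit_ineq 1 _ c (by norm_num) n key1
  rw [one_mul] at h1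
  have := pow_half (n + 1) _ c h1
  push_cast at this
  exact this

theorem main_lower {V U : Type} [Fintype V] [Fintype U] [Nonempty U] (G : SimpleGraph V)
    (F : SimpleGraph U) (hF : F.IsAcyclic) (hadj : ∀ u, ∃ w, F.Adj u w) (n : ℕ)
    (hn : Fintype.card V = n + 1) (c : ℝ)
    (hc : c ∈ Exps G F) :
    (Nat.card F.edgeSet : ℝ) ≤ c * n ∧ (Fintype.card U : ℝ) ≤ c * (n + 1) := by
  classical
  have hlow := lower1 G F hadj n hn c hc
  obtain ⟨hc0, hc⟩ := hc
  have hne : Nonempty V := Fintype.card_pos_iff.1 (by omega)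
  have key2 : ∀ r : ℕ, n + 1 ≤ r →
      ((2 : ℝ) * (((r : ℝ) - n) / (2 * r)) ^ (n + 1)) ^ c ≤ (1 / 2) ^ Nat.card F.edgeSet := by
    intro r hr
    have hr0 : (0 : ℝ) < r := by
      have : 0 < r := by omega
      exact_mod_cast this
    have : Nonempty (Fin r) := ⟨⟨0, by omega⟩⟩
    have h1 := hc (Bool × Fin r) (W2 r)
    have h2 : (2 : ℝ) * (((r : ℝ) - n) / (2 * r)) ^ (n + 1) ≤ dens G (W2 r) := by
      refine (mul_le_mul_of_nonneg_left (desc_bound n r hr) (by norm_num)).trans ?_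
      unfold dens
      have h3 := W2_G G r
      rw [hn] at h3
      rw [Nat.card_eq_fintype_card (α := V), hn, card_X, ← mul_div_assoc]
      refine div_le_div_of_nonneg_right ?_ (by positivity)
      exact_mod_cast h3
    have h4 : dens F (W2 r) ≤ (1 / 2) ^ Nat.card F.edgeSet := by
      unfold dens
      obtain ⟨q, hq, h3⟩ := W2_T F hF r
      have hr2 : (0 : ℝ) < ((2 * r : ℕ) : ℝ) := by
        push_cast
        positivity
      rw [Nat.card_eq_fintype_card (α := U), card_X, div_le_iff₀ (pow_pos hr2 _)]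
      push_cast
      have e : (1 / 2 : ℝ) ^ Nat.card F.edgeSet * (2 * r) ^ Fintype.card U =
          2 ^ q * (r : ℝ) ^ Fintype.card U := by
        rw [mul_pow, ← hq, pow_add, pow_add]
        have e : (1 / 2 : ℝ) ^ Nat.card F.edgeSet * 2 ^ Nat.card F.edgeSet = 1 := by
          rw [← mul_pow]
          norm_num
        calc (1 / 2 : ℝ) ^ Nat.card F.edgeSet * (2 ^ q * 2 ^ Nat.card F.edgeSet *
              ((r : ℝ) ^ q * (r : ℝ) ^ Nat.card F.edgeSet)) =
            ((1 / 2 : ℝ) ^ Nat.card F.edgeSet * 2 ^ Nat.card F.edgeSet) *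
              (2 ^ q * ((r : ℝ) ^ q * (r : ℝ) ^ Nat.card F.edgeSet)) := by ring
          _ = _ := by rw [e, one_mul]
      rw [e]
      exact_mod_cast h3
    have h5 : (0 : ℝ) ≤ (2 : ℝ) * (((r : ℝ) - n) / (2 * r)) ^ (n + 1) := by
      have : (n : ℝ) + 1 ≤ r := by exact_mod_cast hr
      have h6 : (0 : ℝ) ≤ ((r : ℝ) - n) / (2 * r) := div_nonneg (by linarith) (by positivity)
      positivity
    exact (Real.rpow_le_rpow h5 h2 hc0).trans (h1.trans h4)
  constructor
  · have h1 := limit_ineq 2 _ c (by norm_num) n key2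
    have e : (2 : ℝ) * (1 / 2) ^ (n + 1) = (1 / 2) ^ n := by
      rw [pow_succ]
      ring
    rw [e] at h1
    exact pow_half n _ c h1
  · exact hlow

/-- edge-transitive connected graphs have a uniform cover by spanning trees -/
theorem cover_of_edgeTransitive {V : Type} [Finite V] (G : SimpleGraph V) (hG : G.Connected)
    (hE : EdgeTransitive G) : Cover G := by
  classical
  obtain ⟨S, hSG, hS⟩ := hG.exists_isTree_le
  have hfin : Finite (G ≃g G) := by
    refine Finite.of_injective (fun τ : G ≃g G => (τ : V → V)) ?_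
    intro τ τ' h
    exact DFunLike.coe_injective h
  by_cases hedge : ∃ a b, G.Adj a b
  · obtain ⟨a0, b0, h0⟩ := hedge
    refine ⟨G ≃g G, fun σ => S.comap σ, Nat.card {σ : G ≃g G // (S.comap σ).Adj a0 b0}, hfin,
      ⟨RelIso.refl _⟩, fun σ => ⟨?_, ?_⟩, ?_⟩
    · intro a b h
      have h1 : S.Adj (σ a) (σ b) := h
      exact σ.map_adj_iff.1 (hSG h1)
    · exact (SimpleGraph.Iso.comap σ.toEquiv S).isTree_iff.2 hS
    · intro a b hab
      obtain ⟨τ, hτ⟩ := hE a0 b0 a b h0 hab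
      refine Nat.card_congr ?_
      refine
        { toFun := fun σ => ⟨τ.trans σ.1, ?_⟩
          invFun := fun σ => ⟨τ.symm.trans σ.1, ?_⟩
          left_inv := fun σ => ?_
          right_inv := fun σ => ?_ }
      · have h1 : S.Adj (σ.1 a) (σ.1 b) := σ.2
        show S.Adj (σ.1 (τ a0)) (σ.1 (τ b0))
        rcases hτ with ⟨e1, e2⟩ | ⟨e1, e2⟩
        · rw [e1, e2]
          exact h1
        · rw [e1, e2]
          exact h1.symm
      · have h1 : S.Adj (σ.1 a0) (σ.1 b0) := σ.2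
        show S.Adj (σ.1 (τ.symm a)) (σ.1 (τ.symm b))
        rcases hτ with ⟨e1, e2⟩ | ⟨e1, e2⟩
        · rw [← e1, ← e2]
          simpa using h1
        · rw [← e1, ← e2]
          simpa using h1.symm
      · apply Subtype.ext
        ext v
        simp
      · apply Subtype.ext
        ext v
        simp
  · refine ⟨Unit, fun _ => S, 0, inferInstance, inferInstance, fun _ => ⟨hSG, hS⟩, ?_⟩
    intro a b hab
    exact absurd ⟨a, b, hab⟩ hedge

/-- the main theorem -/
theorem main {V U : Type} [Finite V] [Finite U] [Nonempty U] (G : SimpleGraph V) (d : ℕ)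
    (hd : Reg G d) (hd0 : 0 < d) (hcov : Cover G)
    (F : SimpleGraph U) (hF : F.IsAcyclic) (hadj : ∀ u, ∃ w, F.Adj u w) :
    IsLeast (Exps G F) (max ((Nat.card F.edgeSet : ℝ) / ((Nat.card V : ℝ) - 1))
      ((Nat.card U : ℝ) / Nat.card V)) := by
  classical
  have := Fintype.ofFinite V
  have := Fintype.ofFinite U
  obtain ⟨ι, S, k, hι1, hι2, hS, hk⟩ := id hcov
  obtain ⟨i0⟩ := hι2
  obtain ⟨v0⟩ := (hS i0).2.1.nonempty
  have h1 : 2 ≤ Fintype.card V := by
    have h2 : Nonempty {b // G.Adj v0 b} := by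
      by_contra h
      rw [not_nonempty_iff] at h
      have h3 := hd v0
      rw [Nat.card_of_isEmpty] at h3
      omega
    obtain ⟨b, hb⟩ := h2
    exact Fintype.one_lt_card_iff.2 ⟨v0, b, hb.ne⟩
  rw [Nat.card_eq_fintype_card (α := V), Nat.card_eq_fintype_card (α := U)]
  obtain ⟨n, hn⟩ : ∃ n, Fintype.card V = n + 1 := ⟨Fintype.card V - 1, by omega⟩
  have hn0 : (0 : ℝ) < n := by
    have : 0 < n := by omega
    exact_mod_cast this
  rw [hn]
  push_cast
  rw [add_sub_cancel_right]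
  have hn1 : (0 : ℝ) < (n : ℝ) + 1 := by positivity
  constructor
  · refine ⟨le_max_of_le_left (by positivity), fun X _ _ W => ?_⟩
    refine main_upper G d hd hd0 hcov F hF n hn _ ?_ ?_ X W
    · rw [← div_le_iff₀ hn0]
      exact le_max_left _ _
    · rw [← div_le_iff₀ hn1]
      exact le_max_right _ _
  · intro c hc
    obtain ⟨h2, h3⟩ := main_lower G F hF hadj n hn c hc
    refine max_le ?_ ?_
    · rw [div_le_iff₀ hn0]
      exact h2
    · rw [div_le_iff₀ hn1]
      exact h3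

end Pool.Agent.J6H87.DD
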