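import Pool.Agent.J6H87.DD.PartC

/-!
# Density domination exponents: the exponent of the paths with five and three edges
-/

set_option autoImplicit false

open Filter
open scoped Topology

namespace Pool.Agent.J6H87.DD.V

/-- the enumeration of a path -/
def pathEnum (n : ℕ) : TreeEnum (SimpleGraph.pathGraph (n + 1)) n where
  e := Equiv.refl _
  p := fun i => i.castSucc
  hp := fun i => le_of_eq (by simp)
  adj := fun i => by
    rw [SimpleGraph.pathGraph_adj]
    left
    simp
  all := fun a b h => by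
    rw [SimpleGraph.pathGraph_adj] at h
    rcases h with h | h
    · refine ⟨⟨a.val, by omega⟩, Or.inl ⟨?_, ?_⟩⟩
      · exact Fin.ext (by simp)
      · exact Fin.ext (by simp [h])
    · refine ⟨⟨b.val, by omega⟩, Or.inr ⟨?_, ?_⟩⟩
      · exact Fin.ext (by simp)
      · exact Fin.ext (by simp [h])

/-- the weights of the six walks, times ten -/
def wt (i : Fin 6) : ℕ := if i.val < 2 then 3 else 1

/-- six walks with three edges in the path with five edges -/
def wk (i : Fin 6) (u : Fin 4) : Fin 6 :=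
  (![![0, 1, 2, 3], ![5, 4, 3, 2], ![0, 1, 2, 1], ![5, 4, 3, 4], ![0, 1, 0, 1],
    ![5, 4, 5, 4]] : Fin 6 → Fin 4 → Fin 6) i u

set_option maxRecDepth 100000 in
theorem load1 : ∀ v : Fin 6, ∑ i, wt i * (Finset.univ.filter fun u => wk i u = v).card ≤ 7 := by
  decide

set_option maxRecDepth 100000 in
theorem load2 : ∀ v v' : Fin 6, (v.val + 1 = v'.val ∨ v'.val + 1 = v.val) →
    ∑ i, wt i * ((Finset.univ : Finset (Fin 4 × Fin 4)).filter fun z =>
      (z.1.val + 1 = z.2.val ∨ z.2.val + 1 = z.1.val) ∧ wk i z.1 = v ∧ wk i z.2 = v').card ≤ 7 := by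
  decide

theorem wk_adj : ∀ (i : Fin 6) (a b : Fin 4), (a.val + 1 = b.val ∨ b.val + 1 = a.val) →
    ((wk i a).val + 1 = (wk i b).val ∨ (wk i b).val + 1 = (wk i a).val) := by
  decide

theorem wt_sum : ∑ i, wt i = 10 := by decide

theorem upper53 (X : Type) [Finite X] [Nonempty X] (W : SimpleGraph X) :
    dens (SimpleGraph.pathGraph 6) W ^ ((7 : ℝ) / 10) ≤ dens (SimpleGraph.pathGraph 4) W := by
  classical
  refine loads (SimpleGraph.pathGraph 6) (SimpleGraph.pathGraph 4) 5 3 (pathEnum 5) (pathEnum 3)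
    (fun i : Fin 6 => (wt i : ℝ) / 10) (fun i => by positivity) ?_ wk (fun i a b h => ?_)
    (7 / 10) (by norm_num) (fun v => ?_) (fun v v' hvv => ?_) X W
  · rw [← Finset.sum_div]
    have := wt_sum
    have h : ((∑ i, wt i : ℕ) : ℝ) = 10 := by exact_mod_cast this
    push_cast at h
    rw [h]
    norm_num
  · rw [SimpleGraph.pathGraph_adj] at h ⊢
    exact wk_adj i a b h
  · have h := load1 v
    have h2 : ((∑ i, wt i * (Finset.univ.filter fun u => wk i u = v).card : ℕ) : ℝ) ≤ 7 := by
      exact_mod_cast h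
    push_cast at h2
    have e : ∑ i : Fin 6, (wt i : ℝ) / 10 *
        ((Finset.univ.filter fun u => wk i u = v).card : ℝ) =
        (∑ i : Fin 6, (wt i : ℝ) * ((Finset.univ.filter fun u => wk i u = v).card : ℝ)) / 10 := by
      rw [Finset.sum_div]
      exact Finset.sum_congr rfl fun i _ => by ring
    have h3 : ∑ i : Fin 6, (wt i : ℝ) / 10 *
        ((Finset.univ.filter fun u => wk i u = v).card : ℝ) ≤ 7 / 10 := by
      rw [e]
      exact div_le_div_of_nonneg_right h2 (by norm_num)
    convert h3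
  · rw [SimpleGraph.pathGraph_adj] at hvv
    have h := load2 v v' hvv
    have h2 : ((∑ i, wt i * ((Finset.univ : Finset (Fin 4 × Fin 4)).filter fun z =>
      (z.1.val + 1 = z.2.val ∨ z.2.val + 1 = z.1.val) ∧ wk i z.1 = v ∧
        wk i z.2 = v').card : ℕ) : ℝ) ≤ 7 := by
      exact_mod_cast h
    push_cast at h2
    have e : ∑ i : Fin 6, (wt i : ℝ) / 10 * (((Finset.univ : Finset (Fin 4 × Fin 4)).filter fun z =>
      (z.1.val + 1 = z.2.val ∨ z.2.val + 1 = z.1.val) ∧ wk i z.1 = v ∧
        wk i z.2 = v').card : ℝ) =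
        (∑ i : Fin 6, (wt i : ℝ) * (((Finset.univ : Finset (Fin 4 × Fin 4)).filter fun z =>
      (z.1.val + 1 = z.2.val ∨ z.2.val + 1 = z.1.val) ∧ wk i z.1 = v ∧
        wk i z.2 = v').card : ℝ)) / 10 := by
      rw [Finset.sum_div]
      exact Finset.sum_congr rfl fun i _ => by ring
    have h3 : ∑ i : Fin 6, (wt i : ℝ) / 10 *
        (((Finset.univ : Finset (Fin 4 × Fin 4)).filter fun z =>
      (z.1.val + 1 = z.2.val ∨ z.2.val + 1 = z.1.val) ∧ wk i z.1 = v ∧
        wk i z.2 = v').card : ℝ) ≤ 7 / 10 := by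
      rw [e]
      exact div_le_div_of_nonneg_right h2 (by norm_num)
    convert h3 using 7
    rw [SimpleGraph.pathGraph_adj]

/-! ### the test graphs -/

/-- `q` stars with `q ^ 2` leaves whose centres are joined to all vertices of a complete bipartite
graph with parts of size `q` -/
abbrev Y (q : ℕ) : Type := (Fin q × Fin (q * q)) ⊕ (Fin q ⊕ (Fin q × Bool))

/-- adjacency -/
def adjY (q : ℕ) : Y q → Y q → Prop
  | Sum.inl x, Sum.inr (Sum.inl j) => x.1 = j
  | Sum.inr (Sum.inl j), Sum.inl x => x.1 = j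
  | Sum.inr (Sum.inl _), Sum.inr (Sum.inr _) => True
  | Sum.inr (Sum.inr _), Sum.inr (Sum.inl _) => True
  | Sum.inr (Sum.inr k), Sum.inr (Sum.inr l) => k.2 ≠ l.2
  | Sum.inl _, Sum.inl _ => False
  | Sum.inl _, Sum.inr (Sum.inr _) => False
  | Sum.inr (Sum.inr _), Sum.inl _ => False
  | Sum.inr (Sum.inl _), Sum.inr (Sum.inl _) => False

theorem adjY_symm (q : ℕ) (x y : Y q) (h : adjY q x y) : adjY q y x := by
  rcases x with x | x | x <;> rcases y with y | y | y
  · exact h
  · exact h
  · exact h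
  · exact h
  · exact h
  · exact h
  · exact h
  · exact h
  · exact Ne.symm h

/-- the test graph -/
def WY (q : ℕ) : SimpleGraph (Y q) where
  Adj := adjY q
  symm := ⟨fun x y h => adjY_symm q x y h⟩
  loopless := ⟨fun x h => by
    rcases x with x | x | x
    · exact h
    · exact h
    · exact h rfl⟩

theorem card_Y (q : ℕ) : Fintype.card (Y q) = q * (q * q) + (q + q * 2) := by
  simp [Y]

/-- the number of homomorphisms of the path with five edges -/
theorem P5_lower (q : ℕ) : q ^ 8 ≤ Nat.card (SimpleGraph.pathGraph 6 →g WY q) := by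
  classical
  have h : Nat.card ((Fin q × Fin (q * q)) × (Fin q × Fin q) × (Fin q × Fin (q * q))) = q ^ 8 := by
    rw [Nat.card_eq_fintype_card]
    simp only [Fintype.card_prod, Fintype.card_fin]
    ring
  rw [← h]
  let F : (Fin q × Fin (q * q)) × (Fin q × Fin q) × (Fin q × Fin (q * q)) → Fin 6 → Y q :=
    fun z => ![Sum.inl z.1, Sum.inr (Sum.inl z.1.1), Sum.inr (Sum.inr (z.2.1.1, true)),
      Sum.inr (Sum.inr (z.2.1.2, false)), Sum.inr (Sum.inl z.2.2.1), Sum.inl z.2.2]
  have hF : ∀ z a b, (SimpleGraph.pathGraph 6).Adj a b → (WY q).Adj (F z a) (F z b) := by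
    intro z a b hab
    rw [SimpleGraph.pathGraph_adj] at hab
    have key : ∀ i : Fin 5, (WY q).Adj (F z i.castSucc) (F z i.succ) := by
      intro i
      fin_cases i
      · show z.1.1 = z.1.1
        rfl
      · show True
        trivial
      · show (true : Bool) ≠ false
        decide
      · show True
        trivial
      · show z.2.2.1 = z.2.2.1
        rfl
    rcases hab with h | h
    · have := key ⟨a.val, by omega⟩
      have e1 : (⟨a.val, by omega⟩ : Fin 5).castSucc = a := Fin.ext rfl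
      have e2 : (⟨a.val, by omega⟩ : Fin 5).succ = b := Fin.ext h
      rwa [e1, e2] at this
    · have := key ⟨b.val, by omega⟩
      have e1 : (⟨b.val, by omega⟩ : Fin 5).castSucc = b := Fin.ext rfl
      have e2 : (⟨b.val, by omega⟩ : Fin 5).succ = a := Fin.ext h
      rw [e1, e2] at this
      exact this.symm
  refine Nat.card_le_card_of_injective
    (fun z => (⟨F z, fun {a b} h => hF z a b h⟩ : SimpleGraph.pathGraph 6 →g WY q)) ?_
  intro z z' hz
  have h1 : ∀ a, F z a = F z' a := fun a =>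
    congrArg (fun f : SimpleGraph.pathGraph 6 →g WY q => f a) hz
  have e0 : (Sum.inl z.1 : Y q) = Sum.inl z'.1 := h1 0
  have e2 : (Sum.inr (Sum.inr (z.2.1.1, true)) : Y q) = Sum.inr (Sum.inr (z'.2.1.1, true)) := h1 2
  have e3 : (Sum.inr (Sum.inr (z.2.1.2, false)) : Y q) =
    Sum.inr (Sum.inr (z'.2.1.2, false)) := h1 3
  have e5 : (Sum.inl z.2.2 : Y q) = Sum.inl z'.2.2 := h1 5
  have f0 := Sum.inl_injective e0
  have f2 := (Prod.mk.inj (Sum.inr_injective (Sum.inr_injective e2))).1
  have f3 := (Prod.mk.inj (Sum.inr_injective (Sum.inr_injective e3))).1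
  have f5 := Sum.inl_injective e5
  exact Prod.ext f0 (Prod.ext (Prod.ext f2 f3) f5)

end Pool.Agent.J6H87.DD.V
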