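import Pool.Agent.J6H87.DD.P53

/-!
# Density domination exponents: the exponent of the paths with five and three edges, lower bound
-/

set_option autoImplicit false

open Filter
open scoped Topology

namespace Pool.Agent.J6H87.DD.V

open Classical in
/-- the number of walks with three edges in terms of the degrees -/
theorem hom3 {X : Type} [Fintype X] (W : SimpleGraph X) :
    Nat.card (SimpleGraph.pathGraph 4 →g W) ≤ ∑ x, ∑ y, if W.Adj x y then
      (Finset.univ.filter fun u => W.Adj x u).card *
        (Finset.univ.filter fun u => W.Adj y u).card else 0 := by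
  have h1 : Nat.card (SimpleGraph.pathGraph 4 →g W) ≤
      Nat.card {z : (X × X) × (X × X) // W.Adj z.1.1 z.1.2 ∧ W.Adj z.1.1 z.2.1 ∧
        W.Adj z.1.2 z.2.2} := by
    refine Nat.card_le_card_of_injective (fun φ => ⟨((φ 1, φ 2), (φ 0, φ 3)), ?_, ?_, ?_⟩) ?_
    · exact φ.map_adj (by rw [SimpleGraph.pathGraph_adj]; decide)
    · exact φ.map_adj (by rw [SimpleGraph.pathGraph_adj]; decide)
    · exact φ.map_adj (by rw [SimpleGraph.pathGraph_adj]; decide)
    · intro φ ψ h
      have h2 := congrArg Subtype.val h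
      have h3 := Prod.mk.inj h2
      have h4 := Prod.mk.inj h3.1
      have h5 := Prod.mk.inj h3.2
      ext i : 1
      fin_cases i
      · exact h5.1
      · exact h4.1
      · exact h4.2
      · exact h5.2
  refine h1.trans (le_of_eq ?_)
  rw [Nat.card_eq_fintype_card, Fintype.card_subtype, Finset.card_filter,
    Fintype.sum_prod_type, Fintype.sum_prod_type]
  refine Finset.sum_congr rfl fun x _ => Finset.sum_congr rfl fun y _ => ?_
  by_cases h : W.Adj x y
  · rw [if_pos h, ← Finset.card_product, Finset.card_eq_sum_ones, Finset.sum_product,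
      Fintype.sum_prod_type, Finset.sum_filter]
    refine Finset.sum_congr rfl fun u _ => ?_
    by_cases h2 : W.Adj x u
    · rw [if_pos h2, Finset.sum_filter]
      refine Finset.sum_congr rfl fun w _ => ?_
      simp [h, h2]
    · rw [if_neg h2]
      refine Finset.sum_eq_zero fun w _ => ?_
      simp [h2]
  · rw [if_neg h]
    refine Finset.sum_eq_zero fun r _ => ?_
    simp [h]

/-- a bound for the degrees -/
def Dg (q : ℕ) : Y q → ℕ
  | Sum.inl _ => 1
  | Sum.inr (Sum.inl _) => q * q + q * 2
  | Sum.inr (Sum.inr _) => q + q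

open Classical in
theorem deg_le (q : ℕ) (v : Y q) :
    (Finset.univ.filter fun u => (WY q).Adj v u).card ≤ Dg q v := by
  rcases v with x | j | k
  · have h : (Finset.univ.filter fun u => (WY q).Adj (Sum.inl x) u) ⊆
        {Sum.inr (Sum.inl x.1)} := by
      intro u hu
      have h2 : adjY q (Sum.inl x) u := (Finset.mem_filter.1 hu).2
      rcases u with u | u | u
      · exact absurd h2 id
      · have h3 : x.1 = u := h2
        rw [h3]
        exact Finset.mem_singleton_self _
      · exact absurd h2 id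
    exact (Finset.card_le_card h).trans (le_of_eq (Finset.card_singleton _))
  · have h : (Finset.univ.filter fun u => (WY q).Adj (Sum.inr (Sum.inl j)) u) ⊆
        (Finset.univ.image fun a : Fin (q * q) => (Sum.inl (j, a) : Y q)) ∪
        (Finset.univ.image fun a : Fin q × Bool => (Sum.inr (Sum.inr a) : Y q)) := by
      intro u hu
      have h2 : adjY q (Sum.inr (Sum.inl j)) u := (Finset.mem_filter.1 hu).2
      rw [Finset.mem_union, Finset.mem_image, Finset.mem_image]
      rcases u with u | u | u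
      · have h3 : u.1 = j := h2
        exact Or.inl ⟨u.2, Finset.mem_univ _, by rw [← h3]⟩
      · exact absurd h2 id
      · exact Or.inr ⟨u, Finset.mem_univ _, rfl⟩
    refine (Finset.card_le_card h).trans ((Finset.card_union_le _ _).trans ?_)
    refine (add_le_add Finset.card_image_le Finset.card_image_le).trans (le_of_eq ?_)
    simp [Dg]
  · have h : (Finset.univ.filter fun u => (WY q).Adj (Sum.inr (Sum.inr k)) u) ⊆
        (Finset.univ.image fun a : Fin q => (Sum.inr (Sum.inl a) : Y q)) ∪
        (Finset.univ.image fun a : Fin q => (Sum.inr (Sum.inr (a, !k.2)) : Y q)) := by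
      intro u hu
      have h2 : adjY q (Sum.inr (Sum.inr k)) u := (Finset.mem_filter.1 hu).2
      rw [Finset.mem_union, Finset.mem_image, Finset.mem_image]
      rcases u with u | u | u
      · exact absurd h2 id
      · exact Or.inl ⟨u, Finset.mem_univ _, rfl⟩
      · have h3 : k.2 ≠ u.2 := h2
        refine Or.inr ⟨u.1, Finset.mem_univ _, ?_⟩
        have h4 : (!k.2) = u.2 := by
          rcases hk : k.2 with _ | _ <;> rcases hu : u.2 with _ | _ <;> simp_all
        rw [h4]
    refine (Finset.card_le_card h).trans ((Finset.card_union_le _ _).trans ?_)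
    refine (add_le_add Finset.card_image_le Finset.card_image_le).trans (le_of_eq ?_)
    simp [Dg]

theorem P3_upper (q : ℕ) : Nat.card (SimpleGraph.pathGraph 4 →g WY q) ≤
    10 * q ^ 5 + 36 * q ^ 4 := by
  classical
  refine (hom3 (WY q)).trans ?_
  have h1 : ∀ x y, (if (WY q).Adj x y then (Finset.univ.filter fun u => (WY q).Adj x u).card *
        (Finset.univ.filter fun u => (WY q).Adj y u).card else 0) ≤
      if (WY q).Adj x y then Dg q x * Dg q y else 0 := by
    intro x y
    split_ifs
    · have h2 := deg_le q x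
      have h3 := deg_le q y
      exact Nat.mul_le_mul (by convert h2) (by convert h3)
    · exact le_rfl
  have h2 : (∑ x, ∑ y, if (WY q).Adj x y then
      (Finset.univ.filter fun u => (WY q).Adj x u).card *
        (Finset.univ.filter fun u => (WY q).Adj y u).card else 0) ≤
      ∑ x, ∑ y, if (WY q).Adj x y then Dg q x * Dg q y else 0 :=
    Finset.sum_le_sum fun x _ => Finset.sum_le_sum fun y _ => h1 x y
  refine le_trans (le_trans (le_of_eq ?_) h2) ?_
  · refine Finset.sum_congr rfl fun x _ => Finset.sum_congr rfl fun y _ => ?_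
    congr
  have a1 : ∀ x : Fin q × Fin (q * q), (∑ y, if (WY q).Adj (Sum.inl x) y then
      Dg q (Sum.inl x) * Dg q y else 0) ≤ q * q + q * 2 := by
    intro x
    rw [← Finset.sum_filter]
    have h : ∀ y ∈ (Finset.univ.filter fun y => (WY q).Adj (Sum.inl x) y),
        Dg q (Sum.inl x) * Dg q y ≤ q * q + q * 2 := by
      intro y hy
      have h2 : adjY q (Sum.inl x) y := (Finset.mem_filter.1 hy).2
      rcases y with y | y | y
      · exact absurd h2 id
      · simp [Dg]
      · exact absurd h2 id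
    refine (Finset.sum_le_card_nsmul _ _ _ h).trans ?_
    have h3 := deg_le q (Sum.inl x)
    rw [smul_eq_mul]
    have h5 : Dg q (Sum.inl x) = 1 := rfl
    rw [h5] at h3
    have h4 : (Finset.univ.filter fun y => (WY q).Adj (Sum.inl x) y).card ≤ 1 := by convert h3
    nlinarith
  have a2 : ∀ j : Fin q, (∑ y, if (WY q).Adj (Sum.inr (Sum.inl j)) y then
      Dg q (Sum.inr (Sum.inl j)) * Dg q y else 0) ≤
        (q * q + q * 2) * (q * q + q * 2 * (q + q)) := by
    intro j
    rw [Fintype.sum_sum_type, Fintype.sum_sum_type]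
    have b1 : (∑ x : Fin q × Fin (q * q), if (WY q).Adj (Sum.inr (Sum.inl j)) (Sum.inl x) then
        Dg q (Sum.inr (Sum.inl j)) * Dg q (Sum.inl x) else 0) ≤ (q * q + q * 2) * (q * q) := by
      rw [Fintype.sum_prod_type, Finset.sum_eq_single j]
      · refine (Finset.sum_le_sum (g := fun _ => q * q + q * 2) fun a _ => ?_).trans ?_
        · split_ifs
          · simp [Dg]
          · exact Nat.zero_le _
        · rw [Finset.sum_const, Finset.card_univ, Fintype.card_fin, smul_eq_mul, mul_comm]
      · intro i _ hi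
        refine Finset.sum_eq_zero fun a _ => ?_
        rw [if_neg]
        intro h
        have h3 : i = j := h
        exact hi h3
      · intro h
        exact absurd (Finset.mem_univ _) h
    have b2 : (∑ x : Fin q, if (WY q).Adj (Sum.inr (Sum.inl j)) (Sum.inr (Sum.inl x)) then
        Dg q (Sum.inr (Sum.inl j)) * Dg q (Sum.inr (Sum.inl x)) else 0) = 0 := by
      refine Finset.sum_eq_zero fun a _ => ?_
      rw [if_neg]
      intro h
      exact h
    have b3 : (∑ x : Fin q × Bool, if (WY q).Adj (Sum.inr (Sum.inl j)) (Sum.inr (Sum.inr x)) then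
        Dg q (Sum.inr (Sum.inl j)) * Dg q (Sum.inr (Sum.inr x)) else 0) ≤
          (q * q + q * 2) * (q * 2 * (q + q)) := by
      refine (Finset.sum_le_sum (g := fun _ => (q * q + q * 2) * (q + q)) fun a _ => ?_).trans ?_
      · split_ifs
        · simp [Dg]
        · exact Nat.zero_le _
      · rw [Finset.sum_const, Finset.card_univ, Fintype.card_prod, Fintype.card_fin,
          Fintype.card_bool, smul_eq_mul]
        exact le_of_eq (by ring)
    rw [b2]
    nlinarith
  have a3 : ∀ k : Fin q × Bool, (∑ y, if (WY q).Adj (Sum.inr (Sum.inr k)) y then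
      Dg q (Sum.inr (Sum.inr k)) * Dg q y else 0) ≤
        (q + q) * (q * (q * q + q * 2) + q * 2 * (q + q)) := by
    intro k
    rw [Fintype.sum_sum_type, Fintype.sum_sum_type]
    have b1 : (∑ x : Fin q × Fin (q * q), if (WY q).Adj (Sum.inr (Sum.inr k)) (Sum.inl x) then
        Dg q (Sum.inr (Sum.inr k)) * Dg q (Sum.inl x) else 0) = 0 := by
      refine Finset.sum_eq_zero fun a _ => ?_
      rw [if_neg]
      intro h
      exact h
    have b2 : (∑ x : Fin q, if (WY q).Adj (Sum.inr (Sum.inr k)) (Sum.inr (Sum.inl x)) then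
        Dg q (Sum.inr (Sum.inr k)) * Dg q (Sum.inr (Sum.inl x)) else 0) ≤
          (q + q) * (q * (q * q + q * 2)) := by
      refine (Finset.sum_le_sum (g := fun _ => (q + q) * (q * q + q * 2)) fun a _ => ?_).trans ?_
      · split_ifs
        · simp [Dg]
        · exact Nat.zero_le _
      · rw [Finset.sum_const, Finset.card_univ, Fintype.card_fin, smul_eq_mul]
        exact le_of_eq (by ring)
    have b3 : (∑ x : Fin q × Bool, if (WY q).Adj (Sum.inr (Sum.inr k)) (Sum.inr (Sum.inr x)) then
        Dg q (Sum.inr (Sum.inr k)) * Dg q (Sum.inr (Sum.inr x)) else 0) ≤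
          (q + q) * (q * 2 * (q + q)) := by
      refine (Finset.sum_le_sum (g := fun _ => (q + q) * (q + q)) fun a _ => ?_).trans ?_
      · split_ifs
        · simp [Dg]
        · exact Nat.zero_le _
      · rw [Finset.sum_const, Finset.card_univ, Fintype.card_prod, Fintype.card_fin,
          Fintype.card_bool, smul_eq_mul]
        exact le_of_eq (by ring)
    rw [b1]
    nlinarith
  rw [Fintype.sum_sum_type, Fintype.sum_sum_type]
  have c1 := Finset.sum_le_card_nsmul (Finset.univ : Finset (Fin q × Fin (q * q))) _ _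
    (fun x _ => a1 x)
  have c2 := Finset.sum_le_card_nsmul (Finset.univ : Finset (Fin q)) _ _ (fun x _ => a2 x)
  have c3 := Finset.sum_le_card_nsmul (Finset.univ : Finset (Fin q × Bool)) _ _
    (fun x _ => a3 x)
  rw [Finset.card_univ, Fintype.card_prod, Fintype.card_fin, Fintype.card_fin,
    smul_eq_mul] at c1
  rw [Finset.card_univ, Fintype.card_fin, smul_eq_mul] at c2
  rw [Finset.card_univ, Fintype.card_prod, Fintype.card_fin, Fintype.card_bool,
    smul_eq_mul] at c3
  have e : q * (q * q) * (q * q + q * 2) + (q * ((q * q + q * 2) * (q * q + q * 2 * (q + q))) +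
      q * 2 * ((q + q) * (q * (q * q + q * 2) + q * 2 * (q + q)))) ≤
        10 * q ^ 5 + 36 * q ^ 4 := by
    ring_nf
    nlinarith
  exact (add_le_add c1 (add_le_add c2 c3)).trans e

theorem lower53 (c : ℝ) (hc : c ∈ Exps (SimpleGraph.pathGraph 6) (SimpleGraph.pathGraph 4)) :
    7 / 10 ≤ c := by
  obtain ⟨hc0, hc⟩ := hc
  by_contra hcon
  rw [not_le] at hcon
  have key : ∀ q : ℕ, 1 ≤ q → (q : ℝ) ^ (7 - 10 * c) ≤ 46 * (4096 : ℝ) ^ c := by
    intro q hq
    have hq0 : (0 : ℝ) < q := by
      have : 0 < q := hq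
      exact_mod_cast this
    have hq1 : (1 : ℝ) ≤ q := by exact_mod_cast hq
    have : Nonempty (Y q) := ⟨Sum.inr (Sum.inl ⟨0, hq⟩)⟩
    have h1 := hc (Y q) (WY q)
    have hcard : (Nat.card (Y q) : ℝ) = q * (q * q) + (q + q * 2) := by
      rw [Nat.card_eq_fintype_card, card_Y]
      push_cast
      ring
    have hn1 : (q : ℝ) ^ 3 ≤ Nat.card (Y q) := by
      rw [hcard]
      nlinarith [pow_pos hq0 3]
    have hn2 : (Nat.card (Y q) : ℝ) ≤ 4 * q ^ 3 := by
      rw [hcard]
      nlinarith [mul_le_mul_of_nonneg_left hq1 hq0.le, mul_pos hq0 hq0,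
        mul_le_mul_of_nonneg_left hq1 (mul_pos hq0 hq0).le]
    have hn0 : (0 : ℝ) < Nat.card (Y q) := lt_of_lt_of_le (pow_pos hq0 3) hn1
    have h2 : ((q : ℝ) ^ 10)⁻¹ / 4096 ≤ dens (SimpleGraph.pathGraph 6) (WY q) := by
      unfold dens
      have h3 := P5_lower q
      have h4 : ((q : ℝ)) ^ 8 ≤ Nat.card (SimpleGraph.pathGraph 6 →g WY q) := by
        exact_mod_cast h3
      rw [Nat.card_eq_fintype_card (α := Fin 6), Fintype.card_fin,
        le_div_iff₀ (pow_pos hn0 6)]
      refine le_trans ?_ h4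
      have h5 : (Nat.card (Y q) : ℝ) ^ 6 ≤ (4 * (q : ℝ) ^ 3) ^ 6 :=
        pow_le_pow_left₀ hn0.le hn2 6
      have h6 := mul_le_mul_of_nonneg_left h5 (by positivity :
        (0 : ℝ) ≤ ((q : ℝ) ^ 10)⁻¹ / 4096)
      refine h6.trans (le_of_eq ?_)
      field_simp
      ring
    have h3 : dens (SimpleGraph.pathGraph 4) (WY q) ≤ 46 * ((q : ℝ) ^ 7)⁻¹ := by
      unfold dens
      have h3 := P3_upper q
      have h4 : (Nat.card (SimpleGraph.pathGraph 4 →g WY q) : ℝ) ≤
          10 * (q : ℝ) ^ 5 + 36 * (q : ℝ) ^ 4 := by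
        exact_mod_cast h3
      rw [Nat.card_eq_fintype_card (α := Fin 4), Fintype.card_fin,
        div_le_iff₀ (pow_pos hn0 4)]
      have h5 : ((q : ℝ) ^ 3) ^ 4 ≤ (Nat.card (Y q) : ℝ) ^ 4 :=
        pow_le_pow_left₀ (by positivity) hn1 4
      have h6 := mul_le_mul_of_nonneg_left h5 (by positivity :
        (0 : ℝ) ≤ 46 * ((q : ℝ) ^ 7)⁻¹)
      refine le_trans (h4.trans ?_) h6
      have e : 46 * ((q : ℝ) ^ 7)⁻¹ * ((q : ℝ) ^ 3) ^ 4 = 46 * (q : ℝ) ^ 5 := by
        field_simp
      rw [e]
      have h7 : (q : ℝ) ^ 4 ≤ (q : ℝ) ^ 5 := pow_le_pow_right₀ hq1 (by norm_num)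
      linarith
    have h4 : (((q : ℝ) ^ 10)⁻¹ / 4096) ^ c ≤ 46 * ((q : ℝ) ^ 7)⁻¹ :=
      (Real.rpow_le_rpow (by positivity) h2 hc0).trans (h1.trans h3)
    rw [Real.div_rpow (by positivity) (by norm_num), Real.inv_rpow (by positivity),
      ← Real.rpow_natCast (q : ℝ) 10, ← Real.rpow_mul hq0.le,
      div_le_iff₀ (Real.rpow_pos_of_pos (by norm_num) c)] at h4
    have h5 : (q : ℝ) ^ (7 - 10 * c) = (q : ℝ) ^ 7 * ((q : ℝ) ^ (((10 : ℕ) : ℝ) * c))⁻¹ := by
      rw [Real.rpow_sub hq0, div_eq_mul_inv]
      norm_num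
    rw [h5]
    have h6 := mul_le_mul_of_nonneg_left h4 (pow_pos hq0 7).le
    refine h6.trans (le_of_eq ?_)
    field_simp
  have ht : Tendsto (fun q : ℕ => (q : ℝ) ^ (7 - 10 * c)) atTop atTop :=
    (tendsto_rpow_atTop (by linarith)).comp tendsto_natCast_atTop_atTop
  obtain ⟨q, hq1, hq2⟩ := ((ht.eventually_gt_atTop (46 * (4096 : ℝ) ^ c)).and
    (eventually_ge_atTop 1)).exists
  exact absurd (key q hq2) (not_le.2 hq1)

/-- the exponent of the path with five edges and the path with three edges -/
theorem main53 : IsLeast (Exps (SimpleGraph.pathGraph 6) (SimpleGraph.pathGraph 4))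
    ((7 : ℝ) / 10) :=
  ⟨⟨by norm_num, fun X _ _ W => upper53 X W⟩, fun c hc => lower53 c hc⟩

end Pool.Agent.J6H87.DD.V
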