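import Pool.Agent.J6H87.DD.Main
import Pool.Agent.J6H87.DD.Finner

/-!
# Density domination exponents: graphs with a uniform cover by copies of `H`
-/

set_option autoImplicit false

open MeasureTheory
open scoped ENNReal

namespace Pool.Agent.J6H87.DD

open Classical in
/-- indicator of the homomorphisms -/
noncomputable def ind {V X : Type} (F : SimpleGraph V) (W : SimpleGraph X) (x : V → X) : ℝ≥0∞ :=
  if ∀ a b, F.Adj a b → W.Adj (x a) (x b) then 1 else 0

theorem dens_lintegral {V X : Type} [Fintype V] [Fintype X] [Nonempty X] [MeasurableSpace X]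
    [MeasurableSingletonClass X] (P : Measure X) [IsProbabilityMeasure P]
    (hP : ∀ x, P {x} = ((Fintype.card X : ℝ≥0∞))⁻¹) (F : SimpleGraph V) (W : SimpleGraph X) :
    ∫⁻ x, ind F W x ∂(Measure.pi fun _ : V => P) = ENNReal.ofReal (dens F W) := by
  classical
  have hX : (0 : ℝ) < Fintype.card X := by exact_mod_cast Fintype.card_pos
  rw [lintegral_fintype]
  have h1 : ∀ x : V → X, (Measure.pi fun _ : V => P) {x} =
      ((Fintype.card X : ℝ≥0∞)⁻¹) ^ Fintype.card V := by
    intro x
    rw [Measure.pi_singleton]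
    simp only [hP, Finset.prod_const, Finset.card_univ]
  simp only [h1]
  rw [← Finset.sum_mul]
  have h2 : ∑ x : V → X, ind F W x = ((Hs F W).card : ℝ≥0∞) := by
    unfold ind Hs
    rw [Finset.card_filter, Nat.cast_sum]
    refine Finset.sum_congr rfl fun x _ => ?_
    split_ifs
    · simp
    · simp
  rw [h2]
  unfold dens
  rw [card_Hs, Nat.card_eq_fintype_card, Nat.card_eq_fintype_card, div_eq_mul_inv,
    ENNReal.ofReal_mul (by positivity), ENNReal.ofReal_natCast, ← inv_pow,
    ENNReal.ofReal_pow (by positivity), ENNReal.ofReal_inv_of_pos hX, ENNReal.ofReal_natCast]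

theorem tiling_upper {V U ι X : Type} [Fintype V] [Fintype U] [Fintype ι] [Fintype X]
    [Nonempty X] [Nonempty V] [Nonempty U] (G : SimpleGraph V) (H : SimpleGraph U)
    (f : ι → U → V) (k : ℕ) (hk : 0 < k) (hf : ∀ i, Function.Injective (f i))
    (hf2 : ∀ i a b, H.Adj a b → G.Adj (f i a) (f i b))
    (hcov : ∀ v, Nat.card {i // ∃ u, f i u = v} = k) (W : SimpleGraph X) :
    dens G W ^ ((Fintype.card U : ℝ) / Fintype.card V) ≤ dens H W := by
  classical
  let mX : MeasurableSpace X := ⊤
  have hms : MeasurableSingletonClass X := ⟨fun _ => trivial⟩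
  have hX0 : (Fintype.card X : ℝ≥0∞) ≠ 0 := by
    have : Fintype.card X ≠ 0 := Fintype.card_ne_zero
    exact_mod_cast this
  have hX1 : (Fintype.card X : ℝ≥0∞) ≠ ⊤ := ENNReal.natCast_ne_top _
  let P : Measure X := ((Fintype.card X : ℝ≥0∞))⁻¹ • Measure.count
  have hP : ∀ x, P {x} = ((Fintype.card X : ℝ≥0∞))⁻¹ := by
    intro x
    show ((Fintype.card X : ℝ≥0∞))⁻¹ * Measure.count {x} = _
    rw [Measure.count_singleton, mul_one]
  have hPP : IsProbabilityMeasure P := by
    refine ⟨?_⟩
    show ((Fintype.card X : ℝ≥0∞))⁻¹ * Measure.count Set.univ = 1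
    have : (Measure.count (Set.univ : Set X)) = (Fintype.card X : ℝ≥0∞) := by
      rw [← Finset.coe_univ, Measure.count_apply_finset, Finset.card_univ]
    rw [this, ENNReal.inv_mul_cancel hX0 hX1]
  have hfin : Finite (V → X) := inferInstance
  have hmeasV : ∀ g : (V → X) → ℝ≥0∞, Measurable g := fun g => measurable_of_finite g
  have hmeasU : ∀ g : (U → X) → ℝ≥0∞, Measurable g := fun g => measurable_of_finite g
  have h1 := finner P (fun i => Finset.univ.image (f i)) k hk (fun v => by
      rw [← hcov v, Nat.card_eq_fintype_card, Fintype.card_subtype]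
      congr 1
      ext i
      simp) (fun i x => ind H W (fun u => x (f i u))) (fun i => hmeasV _) (fun i v hv x y => by
      congr 1
      funext u
      rw [Function.update_of_ne]
      rintro rfl
      exact hv (Finset.mem_image_of_mem _ (Finset.mem_univ u)))
  have h2 : ∫⁻ x, ind G W x ∂(Measure.pi fun _ : V => P) ≤
      ∫⁻ x, ∏ i, ind H W (fun u => x (f i u)) ^ ((k : ℝ)⁻¹) ∂(Measure.pi fun _ : V => P) := by
    refine lintegral_mono fun x => ?_
    by_cases hx : ∀ a b, G.Adj a b → W.Adj (x a) (x b)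
    · have h3 : ∀ i, ind H W (fun u => x (f i u)) = 1 := fun i => by
        unfold ind
        rw [if_pos]
        exact fun a b hab => hx _ _ (hf2 i a b hab)
      simp only [h3, ENNReal.one_rpow, Finset.prod_const_one]
      unfold ind
      split_ifs <;> simp
    · unfold ind
      rw [if_neg hx]
      exact zero_le
  have h3 : ∀ i, ∫⁻ x : V → X, ind H W (fun u => x (f i u)) ∂(Measure.pi fun _ : V => P) =
      ENNReal.ofReal (dens H W) := by
    intro i
    rw [lintegral_comp_inj P (f i) (hf i) (ind H W) (hmeasU _), dens_lintegral P hP]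
  have h4 := h2.trans h1
  simp only [h3] at h4
  rw [dens_lintegral P hP, Finset.prod_const, Finset.card_univ, ← ENNReal.rpow_natCast,
    ← ENNReal.rpow_mul] at h4
  have hG0 : 0 ≤ dens G W := by
    unfold dens
    positivity
  have hH0 : 0 ≤ dens H W := by
    unfold dens
    positivity
  have hexp : 0 ≤ (k : ℝ)⁻¹ * (Fintype.card ι : ℝ) := by positivity
  rw [ENNReal.ofReal_rpow_of_nonneg hH0 hexp,
    ENNReal.ofReal_le_ofReal_iff (Real.rpow_nonneg hH0 _)] at h4
  have hVr : (0 : ℝ) < Fintype.card V := by exact_mod_cast Fintype.card_pos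
  have hUr : (0 : ℝ) < Fintype.card U := by exact_mod_cast Fintype.card_pos
  have hkr : (0 : ℝ) < k := by exact_mod_cast hk
  -- double counting
  have h5 : (Fintype.card ι : ℝ) * Fintype.card U = k * Fintype.card V := by
    have e1 : ∑ v : V, (Finset.univ.filter fun i => ∃ u, f i u = v).card =
        ∑ i : ι, (Finset.univ.filter fun v => ∃ u, f i u = v).card := by
      simp only [Finset.card_filter]
      rw [Finset.sum_comm]
    have e2 : ∀ v : V, (Finset.univ.filter fun i => ∃ u, f i u = v).card = k := by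
      intro v
      rw [← hcov v, Nat.card_eq_fintype_card, Fintype.card_subtype]
    have e3 : ∀ i : ι, (Finset.univ.filter fun v => ∃ u, f i u = v).card = Fintype.card U := by
      intro i
      rw [← Finset.card_univ, ← Finset.card_image_of_injective Finset.univ (hf i)]
      congr 1
      ext v
      simp
    rw [Finset.sum_congr rfl fun v _ => e2 v, Finset.sum_congr rfl fun i _ => e3 i,
      Finset.sum_const, Finset.sum_const, Finset.card_univ, Finset.card_univ, smul_eq_mul,
      smul_eq_mul] at e1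
    have e4 : ((Fintype.card V * k : ℕ) : ℝ) = ((Fintype.card ι * Fintype.card U : ℕ) : ℝ) := by
      rw [e1]
    push_cast at e4
    linarith
  have h6 : ((k : ℝ)⁻¹ * (Fintype.card ι : ℝ)) * ((Fintype.card U : ℝ) / Fintype.card V) = 1 := by
    rw [mul_div_assoc', mul_assoc, h5]
    field_simp
  have h7 := Real.rpow_le_rpow hG0 h4 (by positivity :
    (0 : ℝ) ≤ (Fintype.card U : ℝ) / Fintype.card V)
  rwa [← Real.rpow_mul hH0, h6, Real.rpow_one] at h7

/-- the exponent of a graph with a uniform cover by copies of `H` -/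
theorem mainB {V U : Type} [Finite V] [Finite U] [Nonempty V] [Nonempty U] (G : SimpleGraph V)
    (H : SimpleGraph U) (hT : Tiling G H) (hadj : ∀ u, ∃ w, H.Adj u w) :
    IsLeast (Exps G H) ((Nat.card U : ℝ) / Nat.card V) := by
  classical
  have := Fintype.ofFinite V
  have := Fintype.ofFinite U
  obtain ⟨ι, f, k, hι, hk, hf, hcov⟩ := hT
  have := Fintype.ofFinite ι
  rw [Nat.card_eq_fintype_card, Nat.card_eq_fintype_card]
  refine ⟨⟨by positivity, fun X _ _ W => ?_⟩, fun c hc => ?_⟩
  · have := Fintype.ofFinite X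
    exact tiling_upper G H f k hk (fun i => (hf i).1) (fun i => (hf i).2) hcov W
  · obtain ⟨n, hn⟩ : ∃ n, Fintype.card V = n + 1 := ⟨Fintype.card V - 1, by
      have := Fintype.card_pos (α := V)
      omega⟩
    have h1 := lower1 G H hadj n hn c hc
    rw [hn]
    push_cast
    rwa [div_le_iff₀ (by positivity)]

/-- vertex-transitive graphs are uniformly covered by the copies of each subgraph -/
theorem tiling_of_vertexTransitive {V U : Type} [Finite V] [Nonempty U] (G : SimpleGraph V)
    (hG : VertexTransitive G) (H : SimpleGraph U) (f : U → V) (hf : Function.Injective f)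
    (hf2 : ∀ a b, H.Adj a b → G.Adj (f a) (f b)) : Tiling G H := by
  classical
  have hfin : Finite (G ≃g G) := by
    refine Finite.of_injective (fun τ : G ≃g G => (τ : V → V)) ?_
    intro τ τ' h
    exact DFunLike.coe_injective h
  obtain ⟨u0⟩ := ‹Nonempty U›
  refine ⟨G ≃g G, fun σ u => σ (f u), Nat.card {σ : G ≃g G // ∃ u, σ (f u) = f u0}, hfin, ?_,
    fun σ => ⟨σ.injective.comp hf, fun a b h => σ.map_adj_iff.2 (hf2 a b h)⟩, ?_⟩
  · have : Nonempty {σ : G ≃g G // ∃ u, σ (f u) = f u0} := ⟨⟨RelIso.refl _, u0, rfl⟩⟩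
    exact Nat.card_pos
  · intro v
    obtain ⟨τ, hτ⟩ := hG v (f u0)
    refine Nat.card_congr
      { toFun := fun σ => ⟨σ.1.trans τ, ?_⟩
        invFun := fun σ => ⟨σ.1.trans τ.symm, ?_⟩
        left_inv := fun σ => ?_
        right_inv := fun σ => ?_ }
    · obtain ⟨u, hu⟩ := σ.2
      have hu' : σ.1 (f u) = v := hu
      refine ⟨u, ?_⟩
      show τ (σ.1 (f u)) = f u0
      rw [hu', hτ]
    · obtain ⟨u, hu⟩ := σ.2
      have hu' : σ.1 (f u) = f u0 := hu
      refine ⟨u, ?_⟩
      show τ.symm (σ.1 (f u)) = v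
      rw [hu', ← hτ]
      simp
    · apply Subtype.ext
      ext v
      simp
    · apply Subtype.ext
      ext v
      simp

end Pool.Agent.J6H87.DD
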