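import Pool.Agent.J6H87.DD.Chain
import Pool.Agent.J6H87.DD.Enum

/-!
# Density domination exponents of trees: the averaged chain of a regular graph
-/

set_option autoImplicit false

namespace Pool.Agent.J6H87.DD

open Classical in
/-- the homomorphisms as a finset of maps -/
noncomputable def Hs {V X : Type} [Fintype V] [Fintype X] (G : SimpleGraph V)
    (W : SimpleGraph X) : Finset (V → X) :=
  Finset.univ.filter fun φ => ∀ a b, G.Adj a b → W.Adj (φ a) (φ b)

theorem card_Hs {V X : Type} [Fintype V] [Fintype X] (G : SimpleGraph V) (W : SimpleGraph X) :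
    Nat.card (G →g W) = (Hs G W).card := by
  classical
  have e : (G →g W) ≃ {φ : V → X // ∀ a b, G.Adj a b → W.Adj (φ a) (φ b)} :=
    { toFun := fun f => ⟨f, fun a b h => f.map_adj h⟩
      invFun := fun φ => ⟨φ.1, fun {a b} h => φ.2 a b h⟩
      left_inv := fun f => rfl
      right_inv := fun φ => rfl }
  rw [Nat.card_congr e, Nat.card_eq_fintype_card, Fintype.card_subtype]
  unfold Hs
  congr

section

variable {V X : Type} [Fintype V] [Fintype X] (G : SimpleGraph V) (W : SimpleGraph X)

open Classical in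
/-- the averaged law of the image of an arc, without normalisation -/
noncomputable def mu (x y : X) : ℝ :=
  ∑ φ ∈ Hs G W, ∑ a, ∑ b, if G.Adj a b then (if φ a = x ∧ φ b = y then 1 else 0) else 0

open Classical in
/-- the averaged law of the image of a vertex, without normalisation -/
noncomputable def nu (x : X) : ℝ :=
  ∑ φ ∈ Hs G W, ∑ a, if φ a = x then 1 else 0

theorem mu_nonneg (x y : X) : 0 ≤ mu G W x y := by
  classical
  unfold mu
  refine Finset.sum_nonneg fun φ _ => Finset.sum_nonneg fun a _ => Finset.sum_nonneg fun b _ => ?_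
  split_ifs <;> norm_num

theorem nu_nonneg (x : X) : 0 ≤ nu G W x := by
  classical
  unfold nu
  refine Finset.sum_nonneg fun φ _ => Finset.sum_nonneg fun a _ => ?_
  split_ifs <;> norm_num

theorem mu_symm (x y : X) : mu G W x y = mu G W y x := by
  classical
  unfold mu
  refine Finset.sum_congr rfl fun φ _ => ?_
  rw [Finset.sum_comm]
  refine Finset.sum_congr rfl fun a _ => Finset.sum_congr rfl fun b _ => ?_
  by_cases h : G.Adj b a
  · rw [if_pos h, if_pos h.symm]
    simp only [and_comm]
  · rw [if_neg h, if_neg fun h' => h h'.symm]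

theorem mu_sum (f : X → X → ℝ) : ∑ x, ∑ y, mu G W x y * f x y =
    ∑ φ ∈ Hs G W, ∑ a, ∑ b, open Classical in if G.Adj a b then f (φ a) (φ b) else 0 := by
  classical
  unfold mu
  simp_rw [Finset.sum_mul]
  have e1 : ∀ x, (∑ y, ∑ φ ∈ Hs G W, ∑ a, ∑ b,
      (if G.Adj a b then (if φ a = x ∧ φ b = y then (1 : ℝ) else 0) else 0) * f x y) =
      ∑ φ ∈ Hs G W, ∑ y, ∑ a, ∑ b,
      (if G.Adj a b then (if φ a = x ∧ φ b = y then (1 : ℝ) else 0) else 0) * f x y := fun x =>
    Finset.sum_comm
  simp_rw [e1]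
  rw [Finset.sum_comm]
  refine Finset.sum_congr rfl fun φ _ => ?_
  have e2 : ∀ x, (∑ y, ∑ a, ∑ b,
      (if G.Adj a b then (if φ a = x ∧ φ b = y then (1 : ℝ) else 0) else 0) * f x y) =
      ∑ a, ∑ y, ∑ b,
      (if G.Adj a b then (if φ a = x ∧ φ b = y then (1 : ℝ) else 0) else 0) * f x y := fun x =>
    Finset.sum_comm
  simp_rw [e2]
  rw [Finset.sum_comm]
  refine Finset.sum_congr rfl fun a _ => ?_
  have e3 : ∀ x, (∑ y, ∑ b,
      (if G.Adj a b then (if φ a = x ∧ φ b = y then (1 : ℝ) else 0) else 0) * f x y) =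
      ∑ b, ∑ y,
      (if G.Adj a b then (if φ a = x ∧ φ b = y then (1 : ℝ) else 0) else 0) * f x y := fun x =>
    Finset.sum_comm
  simp_rw [e3]
  rw [Finset.sum_comm]
  refine Finset.sum_congr rfl fun b _ => ?_
  by_cases h : G.Adj a b
  · simp only [if_pos h]
    rw [Finset.sum_eq_single (φ a), Finset.sum_eq_single (φ b)]
    · simp
    · intro y _ hy
      rw [if_neg (fun h => hy h.2.symm), zero_mul]
    · intro h
      exact absurd (Finset.mem_univ _) h
    · intro x _ hx
      refine Finset.sum_eq_zero fun y _ => ?_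
      rw [if_neg (fun h => hx h.1.symm), zero_mul]
    · intro h
      exact absurd (Finset.mem_univ _) h
  · simp only [if_neg h, zero_mul, Finset.sum_const_zero]

theorem nu_sum (f : X → ℝ) : ∑ x, nu G W x * f x = ∑ φ ∈ Hs G W, ∑ a, f (φ a) := by
  classical
  unfold nu
  simp_rw [Finset.sum_mul]
  rw [Finset.sum_comm]
  refine Finset.sum_congr rfl fun φ _ => ?_
  rw [Finset.sum_comm]
  refine Finset.sum_congr rfl fun a _ => ?_
  rw [Finset.sum_eq_single (φ a)]
  · simp
  · intro x _ hx
    rw [if_neg (fun h => hx h.symm), zero_mul]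
  · intro h
    exact absurd (Finset.mem_univ _) h

theorem mu_marg (d : ℕ) (hd : ∀ a, Nat.card {b // G.Adj a b} = d) (x : X) :
    ∑ y, mu G W x y = d * nu G W x := by
  classical
  have h1 := mu_sum G W (fun x' _ => if x' = x then 1 else 0)
  have h2 : ∑ x', ∑ y, mu G W x' y * (if x' = x then (1 : ℝ) else 0) = ∑ y, mu G W x y := by
    rw [Finset.sum_eq_single x]
    · simp
    · intro b _ hb
      simp [hb]
    · intro h
      exact absurd (Finset.mem_univ _) h
  rw [← h2, h1]
  unfold nu
  rw [Finset.mul_sum]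
  refine Finset.sum_congr rfl fun φ _ => ?_
  rw [Finset.mul_sum]
  refine Finset.sum_congr rfl fun a _ => ?_
  have h3 : ∀ s : Finset V, (∀ b, b ∈ s ↔ G.Adj a b) → (s.card : ℝ) = d := by
    intro s hs
    rw [← hd a, Nat.card_eq_fintype_card, Fintype.card_of_subtype s hs]
  rw [← Finset.sum_filter, Finset.sum_const, nsmul_eq_mul, h3 _ (fun b => by simp)]

/-- total mass -/
theorem nu_total : ∑ x, nu G W x = (Hs G W).card * Fintype.card V := by
  have := nu_sum G W (fun _ => 1)
  simpa using this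

/-- the kernel of the averaged chain -/
noncomputable def Kn (d : ℕ) (x y : X) : ℝ :=
  open Classical in
  if nu G W x = 0 then nu G W y / ((Hs G W).card * Fintype.card V)
  else mu G W x y / (d * nu G W x)

/-- the stationary law of the averaged chain -/
noncomputable def Pn (x : X) : ℝ := nu G W x / ((Hs G W).card * Fintype.card V)

variable {G W}

theorem mu_zero (d : ℕ) (hd : ∀ a, Nat.card {b // G.Adj a b} = d) (x : X) (h : nu G W x = 0)
    (y : X) : mu G W x y = 0 := by
  have h1 := mu_marg G W d hd x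
  rw [h, mul_zero] at h1
  exact (Finset.sum_eq_zero_iff_of_nonneg fun y _ => mu_nonneg G W x y).1 h1 y (Finset.mem_univ _)

theorem Pn_Kn (d : ℕ) (hd : ∀ a, Nat.card {b // G.Adj a b} = d) (hd0 : 0 < d) (x y : X) :
    Pn G W x * Kn G W d x y = mu G W x y / (d * ((Hs G W).card * Fintype.card V)) := by
  classical
  unfold Pn Kn
  by_cases h : nu G W x = 0
  · rw [if_pos h, h, mu_zero d hd x h y]
    simp
  · rw [if_neg h]
    have hd1 : (d : ℝ) ≠ 0 := by
      have : d ≠ 0 := by omega
      exact_mod_cast this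
    by_cases h2 : ((Hs G W).card * Fintype.card V : ℝ) = 0
    · rw [h2]
      simp
    · field_simp

theorem chain (d : ℕ) (hd : ∀ a, Nat.card {b // G.Adj a b} = d) (hd0 : 0 < d)
    (hN : 0 < (Hs G W).card) (hV : 0 < Fintype.card V) : Chain (Pn G W) (Kn G W d) := by
  classical
  have hM : (0 : ℝ) < (Hs G W).card * Fintype.card V := by
    have h1 : (0 : ℝ) < (Hs G W).card := by exact_mod_cast hN
    have h2 : (0 : ℝ) < Fintype.card V := by exact_mod_cast hV
    positivity
  have hd1 : (0 : ℝ) < d := by exact_mod_cast hd0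
  refine ⟨fun x => div_nonneg (nu_nonneg G W x) hM.le, ?_, ?_, ?_, ?_⟩
  · unfold Pn
    rw [← Finset.sum_div, nu_total, div_self hM.ne']
  · intro x y
    unfold Kn
    split_ifs
    · exact div_nonneg (nu_nonneg G W y) hM.le
    · exact div_nonneg (mu_nonneg G W x y) (mul_nonneg hd1.le (nu_nonneg G W x))
  · intro x
    unfold Kn
    by_cases h : nu G W x = 0
    · simp only [if_pos h]
      rw [← Finset.sum_div, nu_total, div_self hM.ne']
    · simp only [if_neg h]
      rw [← Finset.sum_div, mu_marg G W d hd x, div_self (mul_ne_zero hd1.ne' h)]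
  · intro y
    simp_rw [Pn_Kn d hd hd0]
    rw [← Finset.sum_div]
    simp_rw [fun x => mu_symm G W x y]
    rw [mu_marg G W d hd y]
    unfold Pn
    rw [mul_div_mul_left _ _ hd1.ne']

theorem chain_symm (d : ℕ) (hd : ∀ a, Nat.card {b // G.Adj a b} = d) (hd0 : 0 < d) (x y : X) :
    Pn G W x * Kn G W d x y = Pn G W y * Kn G W d y x := by
  rw [Pn_Kn d hd hd0, Pn_Kn d hd hd0, mu_symm]

theorem chain_adj (d : ℕ) (hd : ∀ a, Nat.card {b // G.Adj a b} = d) (hd0 : 0 < d) (x y : X)
    (h1 : 0 < Pn G W x) (h2 : 0 < Kn G W d x y) : W.Adj x y := by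
  classical
  have h3 := mul_pos h1 h2
  rw [Pn_Kn d hd hd0] at h3
  by_contra hcon
  have h4 : mu G W x y = 0 := by
    unfold mu
    refine Finset.sum_eq_zero fun φ hφ => Finset.sum_eq_zero fun a _ =>
      Finset.sum_eq_zero fun b _ => ?_
    by_cases h : G.Adj a b
    · rw [if_pos h]
      refine if_neg ?_
      rintro ⟨rfl, rfl⟩
      exact hcon ((Finset.mem_filter.1 hφ).2 a b h)
    · rw [if_neg h]
  rw [h4, zero_div] at h3
  exact lt_irrefl _ h3

theorem nu_pos (φ : V → X) (hφ : φ ∈ Hs G W) (a : V) : 0 < nu G W (φ a) := by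
  classical
  unfold nu
  have h1 : (0 : ℝ) < ∑ b, if φ b = φ a then (1 : ℝ) else 0 := by
    refine lt_of_lt_of_le one_pos ?_
    refine le_trans (le_of_eq ?_) (Finset.single_le_sum
      (f := fun b => if φ b = φ a then (1 : ℝ) else 0) (fun b _ => ?_) (Finset.mem_univ a))
    · simp
    · split_ifs <;> norm_num
  refine lt_of_lt_of_le h1 ?_
  refine Finset.single_le_sum (f := fun ψ : V → X => ∑ b, if ψ b = φ a then (1 : ℝ) else 0)
    (fun ψ _ => Finset.sum_nonneg fun b _ => ?_) hφ
  split_ifs <;> norm_num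

theorem mu_pos (φ : V → X) (hφ : φ ∈ Hs G W) (a b : V) (hab : G.Adj a b) :
    0 < mu G W (φ a) (φ b) := by
  classical
  unfold mu
  have h1 : (0 : ℝ) < ∑ a', ∑ b', if G.Adj a' b' then
      (if φ a' = φ a ∧ φ b' = φ b then (1 : ℝ) else 0) else 0 := by
    refine lt_of_lt_of_le one_pos ?_
    refine le_trans ?_ (Finset.single_le_sum
      (f := fun a' => ∑ b', if G.Adj a' b' then
      (if φ a' = φ a ∧ φ b' = φ b then (1 : ℝ) else 0) else 0) (fun b _ => ?_)
        (Finset.mem_univ a))
    · refine le_trans (le_of_eq ?_) (Finset.single_le_sum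
        (f := fun b' => if G.Adj a b' then
        (if φ a = φ a ∧ φ b' = φ b then (1 : ℝ) else 0) else 0) (fun b _ => ?_)
          (Finset.mem_univ b))
      · simp [hab]
      · split_ifs <;> norm_num
    · refine Finset.sum_nonneg fun _ _ => ?_
      split_ifs <;> norm_num
  refine lt_of_lt_of_le h1 ?_
  refine Finset.single_le_sum (f := fun ψ : V → X => ∑ a', ∑ b', if G.Adj a' b' then
      (if ψ a' = φ a ∧ ψ b' = φ b then (1 : ℝ) else 0) else 0)
    (fun ψ _ => Finset.sum_nonneg fun _ _ => Finset.sum_nonneg fun _ _ => ?_) hφ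
  split_ifs <;> norm_num

end

end Pool.Agent.J6H87.DD
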