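import Pool.Agent.J6H87.DD.ChainV
import Pool.Agent.J6H87.DD.Upper
import Pool.Agent.J6H87.DD.Def

/-!
# Density domination exponents: fractional loads of trees
-/

set_option autoImplicit false

namespace Pool.Agent.J6H87.DD.V

section

variable {V X : Type} [Fintype V] [Fintype X] (G : SimpleGraph V) (W : SimpleGraph X)

open Classical in
/-- the law of the image of a vertex -/
noncomputable def Pv (a : V) (x : X) : ℝ :=
  (∑ φ ∈ Hs G W, if φ a = x then (1 : ℝ) else 0) / (Hs G W).card

open Classical in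
/-- the law of the images of two vertices -/
noncomputable def Jv (a b : V) (x y : X) : ℝ :=
  (∑ φ ∈ Hs G W, if φ a = x ∧ φ b = y then (1 : ℝ) else 0) / (Hs G W).card

open Classical in
/-- the conditional law -/
noncomputable def Kv (a b : V) (x y : X) : ℝ :=
  if Pv G W a x = 0 then Pv G W b y else Jv G W a b x y / Pv G W a x

/-- minus the entropy of the image of a vertex -/
noncomputable def hv (a : V) : ℝ := ∑ x, Pv G W a x * Real.log (Pv G W a x)

/-- the mutual information of the images of two vertices -/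
noncomputable def bv (a b : V) : ℝ :=
  ∑ x, ∑ y, Jv G W a b x y * Real.log (Jv G W a b x y) - hv G W a - hv G W b

theorem Pv_nonneg (a : V) (x : X) : 0 ≤ Pv G W a x := by
  classical
  unfold Pv
  refine div_nonneg (Finset.sum_nonneg fun φ _ => ?_) (Nat.cast_nonneg _)
  split_ifs <;> norm_num

theorem Jv_nonneg (a b : V) (x y : X) : 0 ≤ Jv G W a b x y := by
  classical
  unfold Jv
  refine div_nonneg (Finset.sum_nonneg fun φ _ => ?_) (Nat.cast_nonneg _)
  split_ifs <;> norm_num

theorem Jv_symm (a b : V) (x y : X) : Jv G W a b x y = Jv G W b a y x := by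
  classical
  unfold Jv
  simp only [and_comm]

theorem Pv_sum (a : V) (f : X → ℝ) :
    ∑ x, Pv G W a x * f x = (∑ φ ∈ Hs G W, f (φ a)) / (Hs G W).card := by
  classical
  unfold Pv
  simp_rw [div_mul_eq_mul_div, ← Finset.sum_div, Finset.sum_mul]
  rw [Finset.sum_comm]
  congr 1
  refine Finset.sum_congr rfl fun φ _ => ?_
  rw [Finset.sum_eq_single (φ a)]
  · simp
  · intro x _ hx
    rw [if_neg (fun h => hx h.symm), zero_mul]
  · intro h
    exact absurd (Finset.mem_univ _) h

theorem Jv_sum (a b : V) (f : X → X → ℝ) :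
    ∑ x, ∑ y, Jv G W a b x y * f x y = (∑ φ ∈ Hs G W, f (φ a) (φ b)) / (Hs G W).card := by
  classical
  unfold Jv
  simp_rw [div_mul_eq_mul_div, ← Finset.sum_div, Finset.sum_mul]
  have e1 : ∀ x, (∑ y, ∑ φ ∈ Hs G W, (if φ a = x ∧ φ b = y then (1 : ℝ) else 0) * f x y) =
      ∑ φ ∈ Hs G W, ∑ y, (if φ a = x ∧ φ b = y then (1 : ℝ) else 0) * f x y := fun x =>
    Finset.sum_comm
  simp_rw [e1]
  rw [Finset.sum_comm]
  congr 1
  refine Finset.sum_congr rfl fun φ _ => ?_
  rw [Finset.sum_eq_single (φ a), Finset.sum_eq_single (φ b)]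
  · simp
  · intro y _ hy
    rw [if_neg (fun h => hy h.2.symm), zero_mul]
  · intro h
    exact absurd (Finset.mem_univ _) h
  · intro x _ hx
    refine Finset.sum_eq_zero fun y _ => ?_
    rw [if_neg (fun h => hx h.1.symm), zero_mul]
  · intro h
    exact absurd (Finset.mem_univ _) h

theorem Jv_marg (a b : V) (x : X) : ∑ y, Jv G W a b x y = Pv G W a x := by
  classical
  have h1 := Jv_sum G W a b (fun x' _ => if x' = x then 1 else 0)
  have h2 : ∑ x', ∑ y, Jv G W a b x' y * (if x' = x then (1 : ℝ) else 0) =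
      ∑ y, Jv G W a b x y := by
    rw [Finset.sum_eq_single x]
    · simp
    · intro z _ hz
      simp [hz]
    · intro h
      exact absurd (Finset.mem_univ _) h
  rw [← h2, h1]
  rfl

theorem Pv_total (hN : 0 < (Hs G W).card) (a : V) : ∑ x, Pv G W a x = 1 := by
  have h := Pv_sum G W a (fun _ => 1)
  have hNr : ((Hs G W).card : ℝ) ≠ 0 := by
    have : (Hs G W).card ≠ 0 := by omega
    exact_mod_cast this
  simpa [hNr] using h

theorem Jv_zero (a b : V) (x : X) (h : Pv G W a x = 0) (y : X) : Jv G W a b x y = 0 := by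
  have h1 := Jv_marg G W a b x
  rw [h] at h1
  exact (Finset.sum_eq_zero_iff_of_nonneg fun y _ => Jv_nonneg G W a b x y).1 h1 y
    (Finset.mem_univ _)

theorem Pv_Kv (a b : V) (x y : X) : Pv G W a x * Kv G W a b x y = Jv G W a b x y := by
  classical
  unfold Kv
  by_cases h : Pv G W a x = 0
  · rw [if_pos h, h, Jv_zero G W a b x h y, zero_mul]
  · rw [if_neg h, mul_div_cancel₀ _ h]

theorem ker (hN : 0 < (Hs G W).card) (a b : V) :
    Ker (Pv G W a) (Pv G W b) (Kv G W a b) := by
  classical
  refine ⟨fun x y => ?_, fun x => ?_, fun y => ?_⟩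
  · unfold Kv
    split_ifs
    · exact Pv_nonneg G W b y
    · exact div_nonneg (Jv_nonneg G W a b x y) (Pv_nonneg G W a x)
  · unfold Kv
    by_cases h : Pv G W a x = 0
    · simp only [if_pos h]
      exact Pv_total G W hN b
    · simp only [if_neg h]
      rw [← Finset.sum_div, Jv_marg, div_self h]
  · simp_rw [Pv_Kv]
    simp_rw [fun x => Jv_symm G W a b x y]
    exact Jv_marg G W b a y

theorem ker_adj (a b : V) (hab : G.Adj a b) (x y : X) (h1 : 0 < Pv G W a x)
    (h2 : 0 < Kv G W a b x y) : W.Adj x y := by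
  classical
  have h3 := mul_pos h1 h2
  rw [Pv_Kv] at h3
  by_contra hcon
  have h4 : Jv G W a b x y = 0 := by
    unfold Jv
    rw [Finset.sum_eq_zero, zero_div]
    intro φ hφ
    refine if_neg ?_
    rintro ⟨rfl, rfl⟩
    exact hcon ((Finset.mem_filter.1 hφ).2 a b hab)
  rw [h4] at h3
  exact lt_irrefl _ h3

theorem Pv_pos (φ : V → X) (hφ : φ ∈ Hs G W) (a : V) : 0 < Pv G W a (φ a) := by
  classical
  have hN : (0 : ℝ) < (Hs G W).card := by exact_mod_cast Finset.card_pos.2 ⟨φ, hφ⟩
  unfold Pv
  refine div_pos (lt_of_lt_of_le one_pos ?_) hN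
  refine le_trans (le_of_eq ?_) (Finset.single_le_sum
    (f := fun ψ : V → X => if ψ a = φ a then (1 : ℝ) else 0) (fun ψ _ => ?_) hφ)
  · simp
  · split_ifs <;> norm_num

theorem Jv_pos (φ : V → X) (hφ : φ ∈ Hs G W) (a b : V) : 0 < Jv G W a b (φ a) (φ b) := by
  classical
  have hN : (0 : ℝ) < (Hs G W).card := by exact_mod_cast Finset.card_pos.2 ⟨φ, hφ⟩
  unfold Jv
  refine div_pos (lt_of_lt_of_le one_pos ?_) hN
  refine le_trans (le_of_eq ?_) (Finset.single_le_sum
    (f := fun ψ : V → X => if ψ a = φ a ∧ ψ b = φ b then (1 : ℝ) else 0) (fun ψ _ => ?_) hφ)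
  · simp
  · split_ifs <;> norm_num

theorem Kv_pos (φ : V → X) (hφ : φ ∈ Hs G W) (a b : V) : 0 < Kv G W a b (φ a) (φ b) := by
  have h := Jv_pos G W φ hφ a b
  rw [← Pv_Kv] at h
  exact pos_of_mul_pos_right h (Pv_nonneg G W a _)

/-- the conditional entropy in terms of the mutual information -/
theorem cond_eq (a b : V) :
    ∑ x, ∑ y, Pv G W a x * Kv G W a b x y * Real.log (Kv G W a b x y) =
      bv G W a b + hv G W b := by
  have e : ∀ x y, Pv G W a x * Kv G W a b x y * Real.log (Kv G W a b x y) =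
      Jv G W a b x y * Real.log (Jv G W a b x y) - Jv G W a b x y * Real.log (Pv G W a x) := by
    intro x y
    rw [Pv_Kv]
    rcases (Jv_nonneg G W a b x y).eq_or_lt with h0 | h0
    · rw [← h0]
      simp
    · have h1 : Pv G W a x ≠ 0 := fun h => h0.ne' (Jv_zero G W a b x h y)
      have h2 : Kv G W a b x y = Jv G W a b x y / Pv G W a x := by
        rw [← Pv_Kv, mul_div_cancel_left₀ _ h1]
      rw [h2, Real.log_div h0.ne' h1]
      ring
  simp_rw [e, Finset.sum_sub_distrib, ← Finset.sum_mul, Jv_marg]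
  unfold bv hv
  ring

theorem bv_symm (a b : V) : bv G W a b = bv G W b a := by
  unfold bv
  rw [Finset.sum_comm]
  simp_rw [fun x y => Jv_symm G W a b x y]
  ring

theorem bv_nonneg (hN : 0 < (Hs G W).card) (a b : V) : 0 ≤ bv G W a b := by
  have hab : ∀ x y, 0 < Jv G W a b x y → 0 < Pv G W a x ∧ 0 < Pv G W b y := by
    intro x y h
    refine ⟨lt_of_le_of_ne (Pv_nonneg G W a x) fun h0 =>
      h.ne' (Jv_zero G W a b x h0.symm y), lt_of_le_of_ne (Pv_nonneg G W b y) fun h0 => ?_⟩
    rw [Jv_symm] at h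
    exact h.ne' (Jv_zero G W b a y h0.symm x)
  have h1 := gibbs (fun z : X × X => Jv G W a b z.1 z.2)
    (fun z : X × X => Pv G W a z.1 * Pv G W b z.2)
    (fun z => Jv_nonneg G W a b _ _)
    (fun z => mul_nonneg (Pv_nonneg G W a _) (Pv_nonneg G W b _)) (by
      rw [Fintype.sum_prod_type]
      simp_rw [Jv_marg]
      exact Pv_total G W hN a) (by
      rw [Fintype.sum_prod_type]
      simp_rw [← Finset.mul_sum, Pv_total G W hN b, mul_one]
      exact (Pv_total G W hN a).le) (fun z h => mul_pos (hab _ _ h).1 (hab _ _ h).2)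
  rw [Fintype.sum_prod_type, Fintype.sum_prod_type] at h1
  have e : ∀ x y, Jv G W a b x y * Real.log (Pv G W a x * Pv G W b y) =
      Jv G W a b x y * Real.log (Pv G W a x) + Jv G W a b x y * Real.log (Pv G W b y) := by
    intro x y
    rcases (Jv_nonneg G W a b x y).eq_or_lt with h0 | h0
    · rw [← h0]
      simp
    · rw [Real.log_mul (hab _ _ h0).1.ne' (hab _ _ h0).2.ne']
      ring
  simp only [e, Finset.sum_add_distrib] at h1
  have e2 : ∑ x, ∑ y, Jv G W a b x y * Real.log (Pv G W a x) = hv G W a := by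
    simp_rw [← Finset.sum_mul, Jv_marg]
    rfl
  have e3 : ∑ x, ∑ y, Jv G W a b x y * Real.log (Pv G W b y) = hv G W b := by
    rw [Finset.sum_comm]
    simp_rw [← Finset.sum_mul]
    unfold hv
    refine Finset.sum_congr rfl fun y _ => ?_
    simp_rw [fun x => Jv_symm G W a b x y]
    rw [Jv_marg]
  rw [e2, e3] at h1
  unfold bv
  linarith

theorem av_nonneg (hN : 0 < (Hs G W).card) (a : V) :
    0 ≤ Real.log (Fintype.card X) + hv G W a := by
  have hne : Nonempty X := by
    by_contra h
    rw [not_nonempty_iff] at h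
    have := Pv_total G W hN a
    simp at this
  have hn : (0 : ℝ) < Fintype.card X := by exact_mod_cast Fintype.card_pos
  have h1 := gibbs (Pv G W a) (fun _ => ((Fintype.card X : ℝ))⁻¹) (Pv_nonneg G W a)
    (fun _ => by positivity)
    (Pv_total G W hN a) (by
      rw [Finset.sum_const, Finset.card_univ, nsmul_eq_mul, mul_inv_cancel₀ hn.ne'])
    (fun _ _ => by positivity)
  rw [← Finset.sum_mul, Pv_total G W hN a, one_mul, Real.log_inv] at h1
  unfold hv
  linarith

/-- upper bound for the number of homomorphisms of a tree -/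
theorem G_tree (hN : 0 < (Hs G W).card) (n : ℕ) (E : TreeEnum G n) :
    ∑ v, hv G W v + ∑ i : Fin n, bv G W (E.e (E.p i)) (E.e i.succ) ≤
      -Real.log (Hs G W).card := by
  classical
  have hNr : (0 : ℝ) < (Hs G W).card := by exact_mod_cast hN
  have hP1 : ∀ (j : Fin (n + 1)) (x : X), 0 ≤ Pv G W (E.e j) x := fun j x => Pv_nonneg G W _ _
  have hPP : ∀ φ ∈ Hs G W, 0 < PP n (fun j => Pv G W (E.e j))
      (fun i => Kv G W (E.e (E.p i)) (E.e i.succ)) E.p (fun j => φ (E.e j)) := by
    intro φ hφ
    unfold PP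
    exact mul_pos (Pv_pos G W φ hφ _) (Finset.prod_pos fun i _ => Kv_pos G W φ hφ _ _)
  have hg := gibbs (fun φ : V → X => if φ ∈ Hs G W then ((Hs G W).card : ℝ)⁻¹ else 0)
    (fun φ => PP n (fun j => Pv G W (E.e j))
      (fun i => Kv G W (E.e (E.p i)) (E.e i.succ)) E.p (fun j => φ (E.e j))) (fun φ => by
      split_ifs
      · positivity
      · exact le_rfl) (fun φ => PP_nonneg n _ hP1 _ (fun i => (ker G W hN _ _).K_nonneg) _ _) (by
      rw [← Finset.sum_filter, Finset.filter_mem_eq_inter, Finset.univ_inter, Finset.sum_const,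
        nsmul_eq_mul, mul_inv_cancel₀ hNr.ne']) (by
      rw [← (E.e.arrowCongr (Equiv.refl X)).sum_comp]
      refine le_of_eq ?_
      rw [← PP_sum n (fun j => Pv G W (E.e j)) (Pv_total G W hN _)
        (fun i => Kv G W (E.e (E.p i)) (E.e i.succ)) E.p E.hp (fun i => ker G W hN _ _)]
      refine Finset.sum_congr rfl fun ψ _ => ?_
      congr 1
      funext j
      simp [Equiv.arrowCongr]) (fun φ h => by
      by_cases h1 : φ ∈ Hs G W
      · exact hPP φ h1
      · rw [if_neg h1] at h
        exact absurd h (lt_irrefl _))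
  have e2 : (∑ φ : V → X, (if φ ∈ Hs G W then ((Hs G W).card : ℝ)⁻¹ else 0) *
      Real.log (if φ ∈ Hs G W then ((Hs G W).card : ℝ)⁻¹ else 0)) =
      -Real.log (Hs G W).card := by
    rw [← Finset.sum_filter_add_sum_filter_not Finset.univ (· ∈ Hs G W),
      Finset.filter_mem_eq_inter, Finset.univ_inter]
    rw [Finset.sum_eq_zero (s := Finset.univ.filter fun φ => ¬ φ ∈ Hs G W), add_zero]
    · rw [Finset.sum_congr rfl fun φ hφ => by rw [if_pos hφ], Finset.sum_const, nsmul_eq_mul,
        Real.log_inv, ← mul_assoc, mul_inv_cancel₀ hNr.ne', one_mul]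
    · intro φ hφ
      rw [if_neg (Finset.mem_filter.1 hφ).2, zero_mul]
  have e1 : (∑ φ : V → X, (if φ ∈ Hs G W then ((Hs G W).card : ℝ)⁻¹ else 0) *
      Real.log (PP n (fun j => Pv G W (E.e j))
      (fun i => Kv G W (E.e (E.p i)) (E.e i.succ)) E.p (fun j => φ (E.e j)))) =
      hv G W (E.e 0) + ∑ i : Fin n, (bv G W (E.e (E.p i)) (E.e i.succ) +
        hv G W (E.e i.succ)) := by
    rw [← Finset.sum_filter_add_sum_filter_not Finset.univ (· ∈ Hs G W),
      Finset.filter_mem_eq_inter, Finset.univ_inter]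
    rw [Finset.sum_eq_zero (s := Finset.univ.filter fun φ => ¬ φ ∈ Hs G W), add_zero]
    · have e4 : ∀ φ ∈ Hs G W, (if φ ∈ Hs G W then ((Hs G W).card : ℝ)⁻¹ else 0) *
          Real.log (PP n (fun j => Pv G W (E.e j))
          (fun i => Kv G W (E.e (E.p i)) (E.e i.succ)) E.p (fun j => φ (E.e j))) =
          ((Hs G W).card : ℝ)⁻¹ * Real.log (Pv G W (E.e 0) (φ (E.e 0))) +
          ∑ i : Fin n, ((Hs G W).card : ℝ)⁻¹ *
            Real.log (Kv G W (E.e (E.p i)) (E.e i.succ) (φ (E.e (E.p i))) (φ (E.e i.succ))) := by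
        intro φ hφ
        rw [if_pos hφ, log_PP n _ _ E.p _ (hPP φ hφ), mul_add, Finset.mul_sum]
      rw [Finset.sum_congr rfl e4, Finset.sum_add_distrib, Finset.sum_comm]
      congr 1
      · rw [← Finset.mul_sum, inv_mul_eq_div,
          ← Pv_sum G W (E.e 0) (fun x => Real.log (Pv G W (E.e 0) x))]
        rfl
      · refine Finset.sum_congr rfl fun i _ => ?_
        rw [← Finset.mul_sum, inv_mul_eq_div, ← Jv_sum G W (E.e (E.p i)) (E.e i.succ)
          (fun x y => Real.log (Kv G W (E.e (E.p i)) (E.e i.succ) x y)), ← cond_eq]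
        simp_rw [Pv_Kv]
    · intro φ hφ
      rw [if_neg (Finset.mem_filter.1 hφ).2, zero_mul]
  rw [e1, e2] at hg
  rw [← E.e.sum_comp, Fin.sum_univ_succ]
  rw [Finset.sum_add_distrib] at hg
  linarith

/-- lower bound for the number of homomorphisms of a tree mapped to `G` -/
theorem H_tree {U : Type} [Fintype U] (H : SimpleGraph U) (hN : 0 < (Hs G W).card) (m : ℕ)
    (E : TreeEnum H m) (f : U → V) (hf : ∀ a b, H.Adj a b → G.Adj (f a) (f b)) :
    0 < Nat.card (H →g W) ∧
      -(∑ u, hv G W (f u) + ∑ i : Fin m, bv G W (f (E.e (E.p i))) (f (E.e i.succ))) ≤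
      Real.log (Nat.card (H →g W)) := by
  classical
  have h := count_tree m (fun j => Pv G W (f (E.e j))) (fun j x => Pv_nonneg G W _ _)
    (Pv_total G W hN _) W.Adj (fun i => Kv G W (f (E.e (E.p i))) (f (E.e i.succ))) E.p E.hp
    (fun i => ker G W hN _ _) (fun i x y hx hy => ker_adj G W _ _ (hf _ _ (E.adj i)) x y hx hy)
    (Nat.card (H →g W)) (Nat.card_congr
    { toFun := fun f => ⟨fun j => f (E.e j), fun i => f.map_adj (E.adj i)⟩
      invFun := fun ψ => ⟨fun u => ψ.1 (E.e.symm u), fun {a b} h => by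
        obtain ⟨i, ⟨rfl, rfl⟩ | ⟨rfl, rfl⟩⟩ := E.all a b h
        · simpa using ψ.2 i
        · simpa using (ψ.2 i).symm⟩
      left_inv := fun f => by
        ext u
        simp
      right_inv := fun ψ => by
        ext j
        simp })
  refine ⟨h.1, le_trans (le_of_eq ?_) h.2⟩
  congr 1
  simp_rw [cond_eq]
  rw [← E.e.sum_comp, Fin.sum_univ_succ, Finset.sum_add_distrib]
  unfold hv
  ring

end

open Classical in
/-- the theorem on fractional loads -/
theorem loads {V U : Type} [Fintype V] [Fintype U] (G : SimpleGraph V) (H : SimpleGraph U)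
    (n m : ℕ) (EG : TreeEnum G n) (EH : TreeEnum H m) {ι : Type} [Fintype ι] (y : ι → ℝ)
    (hy : ∀ i, 0 ≤ y i) (hy1 : ∑ i, y i = 1) (f : ι → U → V)
    (hf : ∀ i a b, H.Adj a b → G.Adj (f i a) (f i b)) (c : ℝ) (hc : 0 < c)
    (h1 : ∀ v, ∑ i, y i * (Finset.univ.filter fun u => f i u = v).card ≤ c)
    (h2 : ∀ v v', G.Adj v v' → ∑ i, y i *
      ((Finset.univ : Finset (U × U)).filter fun z =>
        H.Adj z.1 z.2 ∧ f i z.1 = v ∧ f i z.2 = v').card ≤ c)
    (X : Type) [Finite X] [Nonempty X] (W : SimpleGraph X) : dens G W ^ c ≤ dens H W := by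
  have := Fintype.ofFinite X
  have hX : (0 : ℝ) < Fintype.card X := by exact_mod_cast Fintype.card_pos
  have hcV : Fintype.card V = n + 1 := by
    rw [← Fintype.card_congr EG.e, Fintype.card_fin]
  have hcU : Fintype.card U = m + 1 := by
    rw [← Fintype.card_congr EH.e, Fintype.card_fin]
  unfold dens
  rw [Nat.card_eq_fintype_card (α := X), Nat.card_eq_fintype_card (α := V),
    Nat.card_eq_fintype_card (α := U), card_Hs G W]
  rcases Nat.eq_zero_or_pos (Hs G W).card with hN | hN
  · rw [hN]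
    simp only [Nat.cast_zero, zero_div]
    rw [Real.zero_rpow hc.ne']
    positivity
  · have hG := G_tree G W hN n EG
    have hH := fun i => H_tree G W H hN m EH (f i) (hf i)
    have hne : Nonempty ι := by
      by_contra h
      rw [not_nonempty_iff] at h
      simp at hy1
    obtain ⟨i0⟩ := hne
    have hM := (hH i0).1
    have hNr : (0 : ℝ) < (Hs G W).card := by exact_mod_cast hN
    have hMr : (0 : ℝ) < Nat.card (H →g W) := by exact_mod_cast hM
    have hA : (0 : ℝ) < ((Hs G W).card : ℝ) / (Fintype.card X : ℝ) ^ (Fintype.card V) := by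
      positivity
    have hB : (0 : ℝ) < (Nat.card (H →g W) : ℝ) / (Fintype.card X : ℝ) ^ (Fintype.card U) := by
      positivity
    rw [← Real.log_le_log_iff (Real.rpow_pos_of_pos hA c) hB, Real.log_rpow hA,
      Real.log_div hNr.ne' (pow_pos hX _).ne', Real.log_div hMr.ne' (pow_pos hX _).ne',
      Real.log_pow, Real.log_pow]
    obtain ⟨L, hL⟩ : ∃ L, L = Real.log (Fintype.card X) := ⟨_, rfl⟩
    have hav : ∀ v, 0 ≤ L + hv G W v := fun v => by
      rw [hL]
      exact av_nonneg G W hN v
    have hbv : ∀ v v', 0 ≤ bv G W v v' := bv_nonneg G W hN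
    rw [← hL]
    -- G-side
    have g1 : 2 * ∑ i : Fin n, bv G W (EG.e (EG.p i)) (EG.e i.succ) =
        ∑ v, ∑ v', if G.Adj v v' then bv G W v v' else 0 :=
      (sum_adj G n EG (fun v v' => bv G W v v') (fun a b => bv_symm G W a b)).symm
    have g2 : ∑ v, (L + hv G W v) = Fintype.card V * L + ∑ v, hv G W v := by
      rw [Finset.sum_add_distrib, Finset.sum_const, Finset.card_univ, nsmul_eq_mul]
    -- H-side
    have k1 : ∀ i, 2 * ∑ j : Fin m, bv G W (f i (EH.e (EH.p j))) (f i (EH.e j.succ)) =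
        ∑ u, ∑ u', if H.Adj u u' then bv G W (f i u) (f i u') else 0 := fun i =>
      (sum_adj H m EH (fun u u' => bv G W (f i u) (f i u')) (fun a b => bv_symm G W _ _)).symm
    have k2 : ∀ i, ∑ u, (L + hv G W (f i u)) =
        Fintype.card U * L + ∑ u, hv G W (f i u) := fun i => by
      rw [Finset.sum_add_distrib, Finset.sum_const, Finset.card_univ, nsmul_eq_mul]
    have k3 : ∀ i, Fintype.card U * L - Real.log (Nat.card (H →g W)) ≤
        ∑ u, (L + hv G W (f i u)) +
          (∑ u, ∑ u', if H.Adj u u' then bv G W (f i u) (f i u') else 0) / 2 := by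
      intro i
      have := (hH i).2
      have e := k1 i
      have e2 := k2 i
      linarith
    -- averages
    have k4 : Fintype.card U * L - Real.log (Nat.card (H →g W)) ≤
        ∑ i, y i * (∑ u, (L + hv G W (f i u))) + (∑ i, y i *
          (∑ u, ∑ u', if H.Adj u u' then bv G W (f i u) (f i u') else 0)) / 2 := by
      have h3 := Finset.sum_le_sum fun i (_ : i ∈ (Finset.univ : Finset ι)) =>
        mul_le_mul_of_nonneg_left (k3 i) (hy i)
      rw [← Finset.sum_mul, hy1, one_mul] at h3
      refine h3.trans (le_of_eq ?_)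
      rw [Finset.sum_div, ← Finset.sum_add_distrib]
      exact Finset.sum_congr rfl fun i _ => by ring
    have k5 : ∑ i, y i * (∑ u, (L + hv G W (f i u))) ≤ c * ∑ v, (L + hv G W v) := by
      have e : ∀ i, ∑ u, (L + hv G W (f i u)) = ∑ v, (Finset.univ.filter fun u =>
          f i u = v).card * (L + hv G W v) := by
        intro i
        rw [← Finset.sum_fiberwise_of_maps_to (s := Finset.univ) (t := Finset.univ)
          (g := f i) (fun u _ => Finset.mem_univ _)]
        refine Finset.sum_congr rfl fun v _ => ?_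
        rw [Finset.sum_congr rfl fun u hu => by rw [(Finset.mem_filter.1 hu).2],
          Finset.sum_const, nsmul_eq_mul]
      simp_rw [e, Finset.mul_sum]
      rw [Finset.sum_comm]
      refine Finset.sum_le_sum fun v _ => ?_
      simp_rw [← mul_assoc]
      rw [← Finset.sum_mul]
      exact mul_le_mul_of_nonneg_right (h1 v) (hav v)
    have k6 : (∑ i, y i * (∑ u, ∑ u', if H.Adj u u' then bv G W (f i u) (f i u') else 0)) ≤
        c * ∑ v, ∑ v', if G.Adj v v' then bv G W v v' else 0 := by
      have e : ∀ i, (∑ u, ∑ u', if H.Adj u u' then bv G W (f i u) (f i u') else 0) =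
          ∑ v, ∑ v', ((Finset.univ : Finset (U × U)).filter fun z =>
            H.Adj z.1 z.2 ∧ f i z.1 = v ∧ f i z.2 = v').card *
              (if G.Adj v v' then bv G W v v' else 0) := by
        intro i
        rw [← Fintype.sum_prod_type', ← Fintype.sum_prod_type', ← Finset.sum_filter,
          ← Finset.sum_fiberwise_of_maps_to
          (s := (Finset.univ : Finset (U × U)).filter fun z => H.Adj z.1 z.2)
          (t := (Finset.univ : Finset (V × V)))
          (g := fun z => (f i z.1, f i z.2)) (fun u _ => Finset.mem_univ _)]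
        refine Finset.sum_congr rfl fun w _ => ?_
        have e2 : (((Finset.univ : Finset (U × U)).filter fun z => H.Adj z.1 z.2).filter
            fun z => (f i z.1, f i z.2) = w) =
            (Finset.univ : Finset (U × U)).filter fun z =>
            H.Adj z.1 z.2 ∧ f i z.1 = w.1 ∧ f i z.2 = w.2 := by
          ext z
          simp only [Finset.mem_filter, Finset.mem_univ, true_and, Prod.ext_iff]
        rw [e2, Finset.sum_congr rfl (g := fun _ => if G.Adj w.1 w.2 then bv G W w.1 w.2 else 0),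
          Finset.sum_const, nsmul_eq_mul]
        intro z hz
        obtain ⟨-, h3, h4, h5⟩ := Finset.mem_filter.1 hz
        have h6 := hf i _ _ h3
        rw [h4, h5] at h6
        rw [h4, h5, if_pos h6]
      simp_rw [e, Finset.mul_sum]
      rw [Finset.sum_comm]
      refine Finset.sum_le_sum fun v _ => ?_
      rw [Finset.sum_comm]
      refine Finset.sum_le_sum fun v' _ => ?_
      simp_rw [← mul_assoc]
      rw [← Finset.sum_mul]
      by_cases h : G.Adj v v'
      · rw [if_pos h]
        exact mul_le_mul_of_nonneg_right (h2 v v' h) (hbv v v')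
      · rw [if_neg h, mul_zero, mul_zero]
    have k7 : c * (Real.log (Hs G W).card - Fintype.card V * L) ≤
        -(c * ∑ v, (L + hv G W v) +
          (c * ∑ v, ∑ v', if G.Adj v v' then bv G W v v' else 0) / 2) := by
      have h3 : Real.log (Hs G W).card - Fintype.card V * L ≤
        -(∑ v, (L + hv G W v) + (∑ v, ∑ v', if G.Adj v v' then bv G W v v' else 0) / 2) := by
        linarith
      have h4 := mul_le_mul_of_nonneg_left h3 hc.le
      linarith
    linarith

end Pool.Agent.J6H87.DD.V
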