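import Pool.Agent.J6H87.DD.Block
import Pool.Agent.J6H87.DD.LP
import Pool.Agent.J6H87.DD.Def2

/-!
# Density domination exponents of trees: the linear programme
-/

set_option autoImplicit false

open Filter
open scoped Topology

namespace Pool.Agent.J6H87.DD.V

theorem two_col : ∀ (m : ℕ) (p : Fin m → Fin (m + 1)) (_ : ∀ i, (p i : ℕ) ≤ i),
    ∃ ψ : Fin (m + 1) → Bool, ∀ i, ψ (p i) ≠ ψ i.succ := by
  intro m
  induction m with
  | zero =>
    intro p hp
    exact ⟨fun _ => true, fun i => i.elim0⟩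
  | succ m ih =>
    intro p hp
    obtain ⟨ψ, hψ⟩ := ih (pr p hp) (pr_le p hp)
    refine ⟨Fin.snoc ψ (!ψ (pl p hp)), fun i => ?_⟩
    rcases Fin.eq_castSucc_or_eq_last i with ⟨i', rfl⟩ | rfl
    · have h1 : p i'.castSucc = (pr p hp i').castSucc := by
        unfold pr
        rw [Fin.castSucc_castLT]
      rw [h1, Fin.succ_castSucc, Fin.snoc_castSucc, Fin.snoc_castSucc]
      exact hψ i'
    · have h1 : p (Fin.last m) = (pl p hp).castSucc := by
        unfold pl
        rw [Fin.castSucc_castLT]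
      rw [h1, Fin.succ_last, Fin.snoc_last, Fin.snoc_castSucc]
      simp

section

variable {V U : Type} [Fintype V] [Fintype U] {G : SimpleGraph V} {H : SimpleGraph U} {n m : ℕ}

/-- the homomorphisms as maps -/
abbrev RR (G : SimpleGraph V) (H : SimpleGraph U) : Type :=
  {f : U → V // ∀ a b, H.Adj a b → G.Adj (f a) (f b)}

theorem RR_nonempty (EG : TreeEnum G n) (hn : 0 < n) (EH : TreeEnum H m) :
    Nonempty (RR G H) := by
  obtain ⟨ψ, hψ⟩ := two_col m EH.p EH.hp
  have h0 := EG.adj ⟨0, hn⟩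
  refine ⟨⟨fun u => if ψ (EH.e.symm u) = true then EG.e (EG.p ⟨0, hn⟩) else
    EG.e (Fin.succ ⟨0, hn⟩), ?_⟩⟩
  intro a b hab
  obtain ⟨i, ⟨rfl, rfl⟩ | ⟨rfl, rfl⟩⟩ := EH.all a b hab
  · have h1 := hψ i
    simp only [Equiv.symm_apply_apply]
    rcases h2 : ψ (EH.p i) with _ | _ <;> rcases h3 : ψ i.succ with _ | _
    · exact absurd (h2.trans h3.symm) h1
    · simpa using h0.symm
    · simpa using h0
    · exact absurd (h2.trans h3.symm) h1
  · have h1 := hψ i
    simp only [Equiv.symm_apply_apply]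
    rcases h2 : ψ (EH.p i) with _ | _ <;> rcases h3 : ψ i.succ with _ | _
    · exact absurd (h2.trans h3.symm) h1
    · simpa using h0
    · simpa using h0.symm
    · exact absurd (h2.trans h3.symm) h1

open Classical in
/-- the load of a map at a vertex -/
noncomputable def lv (f : U → V) (v : V) : ℕ := (Finset.univ.filter fun u => f u = v).card

open Classical in
/-- the load of a map at an arc -/
noncomputable def la (H : SimpleGraph U) (f : U → V) (v w : V) : ℕ :=
  ((Finset.univ : Finset (U × U)).filter fun z => H.Adj z.1 z.2 ∧ f z.1 = v ∧ f z.2 = w).card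

theorem la_symm (f : U → V) (v w : V) : la H f v w = la H f w v := by
  classical
  unfold la
  refine Finset.card_bij (fun z _ => (z.2, z.1)) ?_ ?_ ?_
  · intro z hz
    obtain ⟨-, h1, h2, h3⟩ := Finset.mem_filter.1 hz
    exact Finset.mem_filter.2 ⟨Finset.mem_univ _, h1.symm, h3, h2⟩
  · intro z _ z' _ h
    obtain ⟨h1, h2⟩ := Prod.mk.inj h
    exact Prod.ext h2 h1
  · intro z hz
    obtain ⟨-, h1, h2, h3⟩ := Finset.mem_filter.1 hz
    exact ⟨(z.2, z.1), Finset.mem_filter.2 ⟨Finset.mem_univ _, h1.symm, h3, h2⟩, rfl⟩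

theorem sum_lv (f : U → V) (A : V → ℕ) : ∑ u, A (f u) = ∑ v, A v * lv f v := by
  classical
  rw [← Finset.sum_fiberwise_of_maps_to (s := Finset.univ) (t := Finset.univ)
    (g := f) (fun u _ => Finset.mem_univ _)]
  refine Finset.sum_congr rfl fun v _ => ?_
  rw [Finset.sum_congr rfl fun u hu => by rw [(Finset.mem_filter.1 hu).2],
    Finset.sum_const, smul_eq_mul, mul_comm]
  unfold lv
  congr

/-- the number of edges mapped to a given edge -/
theorem la_eq (EG : TreeEnum G n) (EH : TreeEnum H m) (f : U → V) (idx : Fin m → Fin n)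
    (hidx : ∀ i, (f (EH.e (EH.p i)) = EG.e (EG.p (idx i)) ∧
      f (EH.e i.succ) = EG.e (idx i).succ) ∨ (f (EH.e i.succ) = EG.e (EG.p (idx i)) ∧
        f (EH.e (EH.p i)) = EG.e (idx i).succ)) (j : Fin n) :
    (la H f (EG.e (EG.p j)) (EG.e j.succ) : ℝ) = ∑ i, if idx i = j then (1 : ℝ) else 0 := by
  classical
  obtain ⟨x, hx⟩ : ∃ x, x = EG.e (EG.p j) := ⟨_, rfl⟩
  obtain ⟨y, hy⟩ : ∃ y, y = EG.e j.succ := ⟨_, rfl⟩
  have hxy : x ≠ y := by
    rw [hx, hy]
    exact (EG.adj j).ne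
  rw [← hx, ← hy]
  have h1 := sum_adj H m EH (fun a b => (if f a = x ∧ f b = y then (1 : ℝ) else 0) +
    (if f b = x ∧ f a = y then (1 : ℝ) else 0)) (fun a b => by ring)
  have h2 : ∀ v w, (la H f v w : ℝ) = ∑ a, ∑ b, if H.Adj a b then
      (if f a = v ∧ f b = w then (1 : ℝ) else 0) else 0 := by
    intro v w
    unfold la
    rw [Finset.card_filter, Fintype.sum_prod_type]
    push_cast
    refine Finset.sum_congr rfl fun a _ => Finset.sum_congr rfl fun b _ => ?_
    by_cases h : H.Adj a b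
    · simp [h]
    · simp [h]
  have h3 : (∑ a, ∑ b, if H.Adj a b then ((if f a = x ∧ f b = y then (1 : ℝ) else 0) +
    (if f b = x ∧ f a = y then (1 : ℝ) else 0)) else 0) = la H f x y + la H f y x := by
    rw [h2, h2, ← Finset.sum_add_distrib]
    refine Finset.sum_congr rfl fun a _ => ?_
    rw [← Finset.sum_add_distrib]
    refine Finset.sum_congr rfl fun b _ => ?_
    by_cases h : H.Adj a b
    · simp only [if_pos h, and_comm]
    · simp [h]
  rw [h3, la_symm (H := H) f y x] at h1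
  have h4 : ∀ i : Fin m, (if f (EH.e (EH.p i)) = x ∧ f (EH.e i.succ) = y then (1 : ℝ) else 0) +
      (if f (EH.e i.succ) = x ∧ f (EH.e (EH.p i)) = y then (1 : ℝ) else 0) =
      if idx i = j then (1 : ℝ) else 0 := by
    intro i
    by_cases h : idx i = j
    · rw [if_pos h]
      have h5 := hidx i
      rw [h, ← hx, ← hy] at h5
      rcases h5 with ⟨h6, h7⟩ | ⟨h6, h7⟩
      · rw [if_pos ⟨h6, h7⟩, if_neg, add_zero]
        rintro ⟨h8, -⟩
        exact hxy (h8.symm.trans h7)
      · have h8 : ¬ (f (EH.e (EH.p i)) = x ∧ f (EH.e i.succ) = y) := by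
          rintro ⟨h8, -⟩
          exact hxy (h8.symm.trans h7)
        rw [if_neg h8, if_pos ⟨h6, h7⟩, zero_add]
    · rw [if_neg h, if_neg, if_neg, add_zero]
      · rintro ⟨h8, h9⟩
        exact h (edge_inj EG (idx i) j _ _ (hidx i) (Or.inr ⟨by rw [h8, hx], by rw [h9, hy]⟩))
      · rintro ⟨h8, h9⟩
        exact h (edge_inj EG (idx i) j _ _ (hidx i) (Or.inl ⟨by rw [h8, hx], by rw [h9, hy]⟩))
  simp only [h4] at h1
  linarith

theorem homs_eq {X : Type} [Fintype X] (W : SimpleGraph X) (E : TreeEnum H m) :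
    Nat.card (H →g W) = Nat.card {ψ : Fin (m + 1) → X // ∀ i, W.Adj (ψ (E.p i)) (ψ i.succ)} := by
  refine Nat.card_congr
    { toFun := fun f => ⟨fun j => f (E.e j), fun i => f.map_adj (E.adj i)⟩
      invFun := fun ψ => ⟨fun u => ψ.1 (E.e.symm u), fun {a b} h => by
        obtain ⟨i, ⟨rfl, rfl⟩ | ⟨rfl, rfl⟩⟩ := E.all a b h
        · simpa using ψ.2 i
        · simpa using (ψ.2 i).symm⟩
      left_inv := fun f => by
        ext u
        simp
      right_inv := fun ψ => by
        ext j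
        simp }

theorem card_X' (q M : ℕ) (b : Fin n → ℕ) (hV : Fintype.card V = n + 1) :
    (Fintype.card (Bk V n q M b) : ℝ) = (n + 1) * (q : ℝ) ^ (∑ j, b j + M) := by
  rw [Fintype.card_prod, Fintype.card_prod, Fintype.card_pi, hV]
  simp only [Fintype.card_fin]
  rw [Finset.prod_pow_eq_pow_sum, pow_add]
  push_cast
  ring

/-- the lower bound for the density of `G` -/
theorem dens_G (EG : TreeEnum G n) (hn : 0 < n) (q M : ℕ) (hq : 1 ≤ q) (A : V → ℕ)
    (hA : ∀ v, A v ≤ M) (b : Fin n → ℕ) :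
    (((n : ℝ) + 1) ^ (n + 1))⁻¹ * ((q : ℝ) ^ (∑ v, A v + ∑ j, b j))⁻¹ ≤
      dens G (WB EG q M A b) := by
  classical
  have hV : Fintype.card V = n + 1 := by
    rw [← Fintype.card_congr EG.e, Fintype.card_fin]
  have hq0 : (0 : ℝ) < q := by
    have : 0 < q := hq
    exact_mod_cast this
  have h1 := count_over EG q M hq A hA b EG.p EG.hp (fun j => EG.e j) id
    (fun i => Or.inl ⟨rfl, rfl⟩) hn
  have h2 : ((Finset.univ.filter fun ψ : Fin (n + 1) → Bk V n q M b => (∀ j, (ψ j).1 = EG.e j) ∧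
      ∀ i, adjB EG q M A b (ψ (EG.p i)) (ψ i.succ)).card : ℝ) ≤
        Nat.card (G →g WB EG q M A b) := by
    rw [homs_eq (WB EG q M A b) EG, Nat.card_eq_fintype_card, Fintype.card_subtype]
    have h3 : (Finset.univ.filter fun ψ : Fin (n + 1) → Bk V n q M b =>
        (∀ j, (ψ j).1 = EG.e j) ∧ ∀ i, adjB EG q M A b (ψ (EG.p i)) (ψ i.succ)).card ≤
      (Finset.univ.filter fun ψ : Fin (n + 1) → Bk V n q M b =>
        ∀ i, (WB EG q M A b).Adj (ψ (EG.p i)) (ψ i.succ)).card :=
      Finset.card_le_card fun ψ hψ =>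
        Finset.mem_filter.2 ⟨Finset.mem_univ _, (Finset.mem_filter.1 hψ).2.2⟩
    exact_mod_cast h3
  unfold dens
  rw [Nat.card_eq_fintype_card (α := Bk V n q M b), Nat.card_eq_fintype_card (α := V),
    card_X' q M b hV, hV, le_div_iff₀ (by positivity)]
  refine le_trans (le_of_eq ?_) h2
  have h4 : ∑ j, A (EG.e j) = ∑ v, A v := EG.e.sum_comp A
  rw [h1, h4, mul_pow]
  simp only [id]
  field_simp

/-- the upper bound for the density of `H` -/
theorem dens_H (EG : TreeEnum G n) (EH : TreeEnum H m) (hm : 0 < m) (q M : ℕ) (hq : 1 ≤ q)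
    (A : V → ℕ) (hA : ∀ v, A v ≤ M) (b : Fin n → ℕ) (κ : ℝ)
    (hκ : ∀ f : RR G H, κ ≤ ∑ v, (A v : ℝ) * lv f.1 v +
      ∑ j, (b j : ℝ) * la H f.1 (EG.e (EG.p j)) (EG.e j.succ)) :
    dens H (WB EG q M A b) ≤ (q : ℝ) ^ (-κ) := by
  classical
  have hV : Fintype.card V = n + 1 := by
    rw [← Fintype.card_congr EG.e, Fintype.card_fin]
  have hU : Fintype.card U = m + 1 := by
    rw [← Fintype.card_congr EH.e, Fintype.card_fin]
  have hq0 : (0 : ℝ) < q := by
    have : 0 < q := hq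
    exact_mod_cast this
  have hq1 : (1 : ℝ) ≤ q := by exact_mod_cast hq
  obtain ⟨Q, hQ⟩ : ∃ Q : ℝ, Q = (q : ℝ) ^ (∑ j, b j + M) := ⟨_, rfl⟩
  have hQ0 : 0 < Q := by
    rw [hQ]
    positivity
  have key : ∀ t : Fin (m + 1) → V,
      (((Finset.univ.filter fun ψ : Fin (m + 1) → Bk V n q M b =>
        ∀ i, (WB EG q M A b).Adj (ψ (EH.p i)) (ψ i.succ)).filter fun ψ =>
          (fun j => (ψ j).1) = t).card : ℝ) ≤ Q ^ (m + 1) * (q : ℝ) ^ (-κ) := by
    intro t
    rcases Finset.eq_empty_or_nonempty ((Finset.univ.filter fun ψ : Fin (m + 1) → Bk V n q M b =>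
        ∀ i, (WB EG q M A b).Adj (ψ (EH.p i)) (ψ i.succ)).filter fun ψ =>
          (fun j => (ψ j).1) = t) with h | ⟨ψ0, hψ0⟩
    · rw [h, Finset.card_empty]
      push_cast
      positivity
    · obtain ⟨h1, h2⟩ := Finset.mem_filter.1 hψ0
      have h3 := (Finset.mem_filter.1 h1).2
      have h4 : ∀ i : Fin m, ∃ i' : Fin n, (t (EH.p i) = EG.e (EG.p i') ∧
          t i.succ = EG.e i'.succ) ∨ (t i.succ = EG.e (EG.p i') ∧ t (EH.p i) = EG.e i'.succ) := by
        intro i
        obtain ⟨-, i', h5, -⟩ := h3 i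
        refine ⟨i', ?_⟩
        rw [← h2]
        exact h5
      choose idx hidx using h4
      have h5 := count_over EG q M hq A hA b EH.p EH.hp t idx hidx hm
      have h6 : ((Finset.univ.filter fun ψ : Fin (m + 1) → Bk V n q M b =>
        ∀ i, (WB EG q M A b).Adj (ψ (EH.p i)) (ψ i.succ)).filter fun ψ =>
          (fun j => (ψ j).1) = t) = (Finset.univ.filter fun ψ : Fin (m + 1) → Bk V n q M b =>
            (∀ j, (ψ j).1 = t j) ∧ ∀ i, adjB EG q M A b (ψ (EH.p i)) (ψ i.succ)) := by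
        ext ψ
        simp only [Finset.mem_filter, Finset.mem_univ, true_and, funext_iff]
        exact and_comm
      rw [h6, h5, ← hQ, div_eq_mul_inv]
      refine mul_le_mul_of_nonneg_left ?_ (by positivity)
      -- the homomorphism
      let f : U → V := fun u => t (EH.e.symm u)
      have hf : ∀ i, (f (EH.e (EH.p i)) = EG.e (EG.p (idx i)) ∧
        f (EH.e i.succ) = EG.e (idx i).succ) ∨ (f (EH.e i.succ) = EG.e (EG.p (idx i)) ∧
          f (EH.e (EH.p i)) = EG.e (idx i).succ) := by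
        intro i
        show (t (EH.e.symm (EH.e (EH.p i))) = _ ∧ t (EH.e.symm (EH.e i.succ)) = _) ∨
          (t (EH.e.symm (EH.e i.succ)) = _ ∧ t (EH.e.symm (EH.e (EH.p i))) = _)
        rw [Equiv.symm_apply_apply, Equiv.symm_apply_apply]
        exact hidx i
      have hfh : ∀ a b, H.Adj a b → G.Adj (f a) (f b) := by
        intro a b hab
        obtain ⟨i, ⟨rfl, rfl⟩ | ⟨rfl, rfl⟩⟩ := EH.all a b hab
        · rcases hf i with ⟨h7, h8⟩ | ⟨h7, h8⟩
          · rw [h7, h8]
            exact EG.adj _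
          · rw [h7, h8]
            exact (EG.adj _).symm
        · rcases hf i with ⟨h7, h8⟩ | ⟨h7, h8⟩
          · rw [h7, h8]
            exact (EG.adj _).symm
          · rw [h7, h8]
            exact EG.adj _
      have h7 := hκ ⟨f, hfh⟩
      have h8 : ∑ j, (b j : ℝ) * la H f (EG.e (EG.p j)) (EG.e j.succ) =
          ((∑ i, b (idx i) : ℕ) : ℝ) := by
        simp_rw [la_eq EG EH f idx hf, Finset.mul_sum]
        rw [Finset.sum_comm]
        push_cast
        refine Finset.sum_congr rfl fun i _ => ?_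
        simp
      have h9 : ∑ v, (A v : ℝ) * lv f v = ((∑ j, A (t j) : ℕ) : ℝ) := by
        have e1 := sum_lv f A
        have e2 : ∑ u, A (f u) = ∑ j, A (t j) := by
          rw [← EH.e.sum_comp]
          refine Finset.sum_congr rfl fun j _ => ?_
          show A (t (EH.e.symm (EH.e j))) = _
          rw [Equiv.symm_apply_apply]
        rw [← e2, e1]
        push_cast
        rfl
      have h10 : κ ≤ ((∑ j, A (t j) + ∑ i, b (idx i) : ℕ) : ℝ) := by
        rw [Nat.cast_add, ← h9, ← h8]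
        exact h7
      rw [← Real.rpow_natCast, ← Real.rpow_neg hq0.le]
      exact Real.rpow_le_rpow_of_exponent_le hq1 (neg_le_neg h10)
  have hcard : (Nat.card (H →g WB EG q M A b) : ℝ) ≤
      ((n : ℝ) + 1) ^ (m + 1) * (Q ^ (m + 1) * (q : ℝ) ^ (-κ)) := by
    rw [homs_eq (WB EG q M A b) EH, Nat.card_eq_fintype_card, Fintype.card_subtype]
    rw [Finset.card_eq_sum_card_fiberwise (f := fun ψ : Fin (m + 1) → Bk V n q M b =>
      fun j => (ψ j).1) (t := Finset.univ) (fun _ _ => Finset.mem_coe.2 (Finset.mem_univ _))]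
    push_cast
    refine (Finset.sum_le_sum fun t _ => key t).trans (le_of_eq ?_)
    rw [Finset.sum_const, Finset.card_univ, Fintype.card_fun, Fintype.card_fin, hV, nsmul_eq_mul]
    push_cast
    rfl
  unfold dens
  rw [Nat.card_eq_fintype_card (α := Bk V n q M b), Nat.card_eq_fintype_card (α := U),
    card_X' q M b hV, hU, ← hQ, div_le_iff₀ (by positivity)]
  refine hcard.trans (le_of_eq ?_)
  rw [mul_pow]
  ring

open Classical in
/-- the exponent of two trees is rational -/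
theorem trees (EG : TreeEnum G n) (hn : 0 < n) (EH : TreeEnum H m) (hm : 0 < m) :
    ∃ lam : ℚ, IsLeast (Exps G H) (lam : ℝ) ∧ ∃ y : RR G H → ℝ, (∀ f, 0 ≤ y f) ∧
      ∑ f, y f = 1 ∧ (∀ v, ∑ f, y f * (lv f.1 v : ℝ) ≤ lam) ∧
      ∀ v w, G.Adj v w → ∑ f, y f * (la H f.1 v w : ℝ) ≤ lam := by
  classical
  have hV : Fintype.card V = n + 1 := by
    rw [← Fintype.card_congr EG.e, Fintype.card_fin]
  have hU : Fintype.card U = m + 1 := by
    rw [← Fintype.card_congr EH.e, Fintype.card_fin]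
  have hR := RR_nonempty EG hn EH
  have hne : Nonempty V := Fintype.card_pos_iff.1 (by omega)
  obtain ⟨lam, y, z, hy, hy1, hz, hz1, hyl, hzl⟩ := game (R := RR G H) (J := V ⊕ Fin n)
    (fun f j => match j with
      | Sum.inl v => (lv f.1 v : ℚ)
      | Sum.inr i => (la H f.1 (EG.e (EG.p i)) (EG.e i.succ) : ℚ))
  have hyl1 : ∀ v, ∑ f, (y f : ℝ) * lv f.1 v ≤ lam := by
    intro v
    have := hyl (Sum.inl v)
    exact_mod_cast this
  have hyl2 : ∀ i, ∑ f, (y f : ℝ) * la H f.1 (EG.e (EG.p i)) (EG.e i.succ) ≤ lam := by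
    intro i
    have := hyl (Sum.inr i)
    exact_mod_cast this
  have hy1' : ∑ f, (y f : ℝ) = 1 := by exact_mod_cast hy1
  have hy' : ∀ f, (0 : ℝ) ≤ y f := fun f => by exact_mod_cast hy f
  have hyl3 : ∀ v w, G.Adj v w → ∑ f, (y f : ℝ) * (la H f.1 v w : ℝ) ≤ lam := by
    intro v v' hvv
    obtain ⟨i, ⟨rfl, rfl⟩ | ⟨rfl, rfl⟩⟩ := EG.all v v' hvv
    · exact hyl2 i
    · have h := hyl2 i
      simp_rw [fun f : RR G H => la_symm (H := H) f.1 (EG.e (EG.p i)) (EG.e i.succ)] at h
      exact h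
  -- positivity
  have hlam : (0 : ℝ) < lam := by
    have h1 := Finset.sum_le_sum fun v (_ : v ∈ (Finset.univ : Finset V)) => hyl1 v
    rw [Finset.sum_comm, Finset.sum_const, Finset.card_univ, hV, nsmul_eq_mul] at h1
    have h2 : ∀ f : RR G H, ∑ v, (y f : ℝ) * lv f.1 v = y f * (m + 1) := by
      intro f
      rw [← Finset.mul_sum]
      have h3 := sum_lv f.1 (fun _ => 1)
      simp only [one_mul, Finset.sum_const, Finset.card_univ, hU, smul_eq_mul, mul_one] at h3
      have h4 : ∑ v, (lv f.1 v : ℝ) = m + 1 := by exact_mod_cast h3.symm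
      rw [h4]
    simp only [h2] at h1
    rw [← Finset.sum_mul, hy1', one_mul] at h1
    push_cast at h1
    by_contra hcon
    have h5 := mul_nonpos_of_nonneg_of_nonpos (by positivity : (0 : ℝ) ≤ (n : ℝ) + 1)
      (not_lt.1 hcon)
    have h6 : (0 : ℝ) ≤ m := Nat.cast_nonneg m
    linarith
  refine ⟨lam, ⟨⟨hlam.le, fun X _ _ W => ?_⟩, fun c hc => ?_⟩, fun f => (y f : ℝ), hy', hy1',
    hyl1, hyl3⟩
  · refine loads G H n m EG EH (fun f : RR G H => (y f : ℝ)) hy' hy1' (fun f => f.1)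
      (fun f => f.2) lam hlam (fun v => ?_) (fun v v' hvv => ?_) X W
    · exact hyl1 v
    · exact hyl3 v v' hvv
  · obtain ⟨hc0, hc⟩ := hc
    -- common denominator
    obtain ⟨N, hN, Z, hZ⟩ : ∃ N : ℕ, 0 < N ∧ ∃ Z : V ⊕ Fin n → ℕ,
        ∀ j, (Z j : ℚ) = N * z j := by
      refine ⟨∏ j, (z j).den, Finset.prod_pos fun j _ => (z j).den_pos,
        fun j => ((∏ i ∈ Finset.univ.erase j, (z i).den) * (z j).num.toNat), fun j => ?_⟩
      have h1 : ((z j).num.toNat : ℚ) = (z j).num := by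
        have h2 : 0 ≤ (z j).num := Rat.num_nonneg.2 (hz j)
        have h3 : (((z j).num.toNat : ℤ)) = (z j).num := Int.toNat_of_nonneg h2
        exact_mod_cast congrArg (fun x : ℤ => (x : ℚ)) h3
      rw [← Finset.mul_prod_erase Finset.univ _ (Finset.mem_univ j)]
      push_cast
      rw [h1]
      have h4 : (z j) * (z j).den = (z j).num := Rat.mul_den_eq_num (z j)
      calc (∏ i ∈ Finset.univ.erase j, ((z i).den : ℚ)) * ((z j).num : ℚ) =
          (∏ i ∈ Finset.univ.erase j, ((z i).den : ℚ)) * ((z j) * (z j).den) := by rw [h4]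
        _ = _ := by ring
    have hZs : ∑ v, Z (Sum.inl v) + ∑ j, Z (Sum.inr j) = N := by
      have h1 : ((∑ j, Z j : ℕ) : ℚ) = N := by
        push_cast
        simp_rw [hZ]
        rw [← Finset.mul_sum, hz1, mul_one]
      have h2 : ∑ j, Z j = N := by exact_mod_cast h1
      rw [← h2, Fintype.sum_sum_type]
    have hcost : ∀ f : RR G H, (N : ℝ) * lam ≤ ∑ v, (Z (Sum.inl v) : ℝ) * lv f.1 v +
        ∑ j, (Z (Sum.inr j) : ℝ) * la H f.1 (EG.e (EG.p j)) (EG.e j.succ) := by
      intro f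
      have h1 := hzl f
      rw [Fintype.sum_sum_type] at h1
      have h2 : (N : ℚ) * lam ≤ N * (∑ v, z (Sum.inl v) * (lv f.1 v : ℚ) +
          ∑ j, z (Sum.inr j) * (la H f.1 (EG.e (EG.p j)) (EG.e j.succ) : ℚ)) :=
        mul_le_mul_of_nonneg_left h1 (Nat.cast_nonneg N)
      have h3 : (N : ℚ) * (∑ v, z (Sum.inl v) * (lv f.1 v : ℚ) +
          ∑ j, z (Sum.inr j) * (la H f.1 (EG.e (EG.p j)) (EG.e j.succ) : ℚ)) =
          ∑ v, (Z (Sum.inl v) : ℚ) * lv f.1 v +
          ∑ j, (Z (Sum.inr j) : ℚ) * la H f.1 (EG.e (EG.p j)) (EG.e j.succ) := by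
        simp_rw [hZ]
        rw [mul_add, Finset.mul_sum, Finset.mul_sum]
        congr 1
        · exact Finset.sum_congr rfl fun v _ => by ring
        · exact Finset.sum_congr rfl fun v _ => by ring
      rw [h3] at h2
      exact_mod_cast h2
    obtain ⟨M, hM⟩ : ∃ M, M = ∑ v, Z (Sum.inl v) := ⟨_, rfl⟩
    have hA : ∀ v, Z (Sum.inl v) ≤ M := fun v => by
      rw [hM]
      exact Finset.single_le_sum (f := fun v => Z (Sum.inl v)) (fun _ _ => Nat.zero_le _)
        (Finset.mem_univ v)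
    by_contra hcon
    rw [not_le] at hcon
    have hNr : (0 : ℝ) < N := by exact_mod_cast hN
    have key : ∀ q : ℕ, 1 ≤ q → (q : ℝ) ^ ((N : ℝ) * lam - N * c) ≤
        (((n : ℝ) + 1) ^ (n + 1)) ^ c := by
      intro q hq
      have hq0 : (0 : ℝ) < q := by
        have : 0 < q := hq
        exact_mod_cast this
      have : Nonempty (Bk V n q M (fun j => Z (Sum.inr j))) := by
        have h1 : 0 < Fintype.card (Bk V n q M (fun j => Z (Sum.inr j))) := by
          have h2 := card_X' (V := V) q M (fun j => Z (Sum.inr j)) hV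
          have h3 : (0 : ℝ) < (n + 1) * (q : ℝ) ^ (∑ j, Z (Sum.inr j) + M) := by positivity
          rw [← h2] at h3
          exact_mod_cast h3
        exact Fintype.card_pos_iff.1 h1
      have h1 := hc _ (WB EG q M (fun v => Z (Sum.inl v)) (fun j => Z (Sum.inr j)))
      have h2 := dens_G EG hn q M hq (fun v => Z (Sum.inl v)) hA (fun j => Z (Sum.inr j))
      have h3 := dens_H EG EH hm q M hq (fun v => Z (Sum.inl v)) hA (fun j => Z (Sum.inr j))
        (N * lam) hcost
      rw [hZs] at h2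
      have h4 : ((((n : ℝ) + 1) ^ (n + 1))⁻¹ * ((q : ℝ) ^ N)⁻¹) ^ c ≤
          (q : ℝ) ^ (-((N : ℝ) * lam)) :=
        (Real.rpow_le_rpow (by positivity) h2 hc0).trans (h1.trans h3)
      rw [Real.mul_rpow (by positivity) (by positivity), Real.inv_rpow (by positivity),
        Real.inv_rpow (by positivity), ← Real.rpow_natCast (q : ℝ) N,
        ← Real.rpow_mul hq0.le, Real.rpow_neg hq0.le, inv_mul_eq_div,
        div_le_iff₀ (by positivity)] at h4
      rw [Real.rpow_sub hq0, div_eq_mul_inv]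
      have h5 := mul_le_mul_of_nonneg_left h4 (Real.rpow_nonneg hq0.le ((N : ℝ) * lam))
      refine h5.trans (le_of_eq ?_)
      rw [← mul_assoc, mul_inv_cancel₀ (Real.rpow_pos_of_pos hq0 _).ne', one_mul]
    have ht : Tendsto (fun q : ℕ => (q : ℝ) ^ ((N : ℝ) * lam - N * c)) atTop atTop :=
      (tendsto_rpow_atTop (by
        have := mul_lt_mul_of_pos_left hcon hNr
        linarith)).comp tendsto_natCast_atTop_atTop
    obtain ⟨q, hq1, hq2⟩ := ((ht.eventually_gt_atTop ((((n : ℝ) + 1) ^ (n + 1)) ^ c)).and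
      (eventually_ge_atTop 1)).exists
    exact absurd (key q hq2) (not_le.2 hq1)

/-- the two descriptions of the homomorphisms -/
def eRR (G : SimpleGraph V) (H : SimpleGraph U) : RR G H ≃ (H →g G) where
  toFun f := ⟨f.1, fun {a b} h => f.2 a b h⟩
  invFun g := ⟨g, fun a b h => g.map_adj h⟩
  left_inv _ := rfl
  right_inv _ := rfl

open Classical in
theorem finsum_RR (F : (H →g G) → ℝ) : ∑ᶠ f, F f = ∑ f : RR G H, F (eRR G H f) := by
  have : Fintype (H →g G) := Fintype.ofEquiv _ (eRR G H)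
  rw [finsum_eq_sum_of_fintype, (eRR G H).sum_comp]

open Classical in
theorem loads_iff (c : ℝ) : Loads G H c ↔ ∃ y : RR G H → ℝ, (∀ f, 0 ≤ y f) ∧
      ∑ f, y f = 1 ∧ (∀ v, ∑ f, y f * (lv f.1 v : ℝ) ≤ c) ∧
      ∀ v w, G.Adj v w → ∑ f, y f * (la H f.1 v w : ℝ) ≤ c := by
  classical
  have e1 : ∀ (f : RR G H) (v : V), Nat.card {u // eRR G H f u = v} = lv f.1 v := by
    intro f v
    rw [Nat.card_eq_fintype_card, Fintype.card_subtype]
    unfold lv
    congr
  have e2 : ∀ (f : RR G H) (v w : V), Nat.card {z : U × U // H.Adj z.1 z.2 ∧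
      eRR G H f z.1 = v ∧ eRR G H f z.2 = w} = la H f.1 v w := by
    intro f v w
    rw [Nat.card_eq_fintype_card, Fintype.card_subtype]
    unfold la
    congr
  unfold Loads
  simp only [finsum_RR, e1, e2]
  constructor
  · rintro ⟨y, h1, h2, h3, h4⟩
    exact ⟨fun f => y (eRR G H f), fun f => h1 _, h2, h3, h4⟩
  · rintro ⟨y, h1, h2, h3, h4⟩
    refine ⟨fun g => y ((eRR G H).symm g), fun f => h1 _, ?_, ?_, ?_⟩
    · simpa using h2
    · simpa using h3
    · simpa using h4

/-- the exponent of two trees is the value of the linear programme -/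
theorem trees_full (EG : TreeEnum G n) (hn : 0 < n) (EH : TreeEnum H m) (hm : 0 < m) :
    ∃ lam : ℚ, IsLeast (Exps G H) (lam : ℝ) ∧ IsLeast {c : ℝ | Loads G H c} (lam : ℝ) := by
  classical
  obtain ⟨lam, h1, h2⟩ := trees EG hn EH hm
  refine ⟨lam, h1, (loads_iff _).2 h2, fun c hc => ?_⟩
  obtain ⟨y, hy, hy1, hyl1, hyl3⟩ := (loads_iff c).1 hc
  have hV : Fintype.card V = n + 1 := by
    rw [← Fintype.card_congr EG.e, Fintype.card_fin]
  have hU : Fintype.card U = m + 1 := by
    rw [← Fintype.card_congr EH.e, Fintype.card_fin]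
  have hc0 : 0 < c := by
    have h1 := Finset.sum_le_sum fun v (_ : v ∈ (Finset.univ : Finset V)) => hyl1 v
    rw [Finset.sum_comm, Finset.sum_const, Finset.card_univ, hV, nsmul_eq_mul] at h1
    have h2 : ∀ f : RR G H, ∑ v, y f * (lv f.1 v : ℝ) = y f * (m + 1) := by
      intro f
      rw [← Finset.mul_sum]
      have h3 := sum_lv f.1 (fun _ => 1)
      simp only [one_mul, Finset.sum_const, Finset.card_univ, hU, smul_eq_mul, mul_one] at h3
      have h4 : ∑ v, (lv f.1 v : ℝ) = m + 1 := by exact_mod_cast h3.symm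
      rw [h4]
    simp only [h2] at h1
    rw [← Finset.sum_mul, hy1, one_mul] at h1
    push_cast at h1
    by_contra hcon
    have h5 := mul_nonpos_of_nonneg_of_nonpos (by positivity : (0 : ℝ) ≤ (n : ℝ) + 1)
      (not_lt.1 hcon)
    have h6 : (0 : ℝ) ≤ m := Nat.cast_nonneg m
    linarith
  refine h1.2 ⟨hc0.le, fun X _ _ W => ?_⟩
  exact loads G H n m EG EH y hy hy1 (fun f => f.1) (fun f => f.2) c hc0 hyl1 hyl3 X W

end

/-- the main theorem on trees -/
theorem trees_main {V U : Type} [Finite V] [Finite U] (G : SimpleGraph V) (H : SimpleGraph U)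
    (hG : G.IsTree) (hH : H.IsTree) (hV : 2 ≤ Nat.card V) (hU : 2 ≤ Nat.card U) :
    ∃ q : ℚ, IsLeast (Exps G H) (q : ℝ) ∧ IsLeast {c : ℝ | Loads G H c} (q : ℝ) := by
  classical
  have := Fintype.ofFinite V
  have := Fintype.ofFinite U
  rw [Nat.card_eq_fintype_card] at hV hU
  obtain ⟨n, hn⟩ : ∃ n, Fintype.card V = n + 1 := ⟨Fintype.card V - 1, by omega⟩
  obtain ⟨m, hm⟩ : ∃ m, Fintype.card U = m + 1 := ⟨Fintype.card U - 1, by omega⟩
  obtain ⟨EG⟩ := enum_tree G hG n hn
  obtain ⟨EH⟩ := enum_tree H hH m hm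
  exact trees_full EG (by omega) EH (by omega)

end Pool.Agent.J6H87.DD.V
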